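import Pool.Agent.Run7.h113.FE.Lin

/-!
# The complete linear system of all forms of degree `d`

These lemmas are copied from the starting file `Pool/Agent/Results/MP_1f4fc7_nt/NearTheWholeLine.lean`.
-/

set_option autoImplicit false

open Pool.Agent.Y722.HS Pool.Agent.Y722.LS

namespace Run7.h113.FE

/-- The monomials of degree `d` in `2 m + 2` variables. -/
noncomputable def monomials (m d : ℕ) (ν : Mon (2 * m + 1) d) : MvPolynomial (Fin (2 * m + 2)) ℤ :=
  ∏ i, MvPolynomial.X i ^ (ν.1 i : ℕ)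

lemma aeval_monomials {m d : ℕ} {R : Type*} [CommRing R] (ν : Mon (2 * m + 1) d) (x : Fin (2 * m + 2) → R) :
    MvPolynomial.aeval x (monomials m d ν) = mev x ν := by
  unfold monomials mev
  rw [map_prod]
  refine Finset.prod_congr rfl fun i _ => ?_
  rw [map_pow, MvPolynomial.aeval_X]

lemma lval_monomials {m d : ℕ} {R : Type*} [CommRing R] (c : Mon (2 * m + 1) d → R)
    (x : Fin (2 * m + 2) → R) : lval (n := 2 * m + 1) (monomials m d) c x = val c x := by
  unfold lval val
  exact Finset.sum_congr rfl fun ν _ => by rw [aeval_monomials]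

lemma lform_monomials {m d : ℕ} {R : Type*} [CommRing R] (c : Mon (2 * m + 1) d → R) :
    lform (n := 2 * m + 1) (monomials m d) c = form c := by
  unfold lform form monomials
  refine Finset.sum_congr rfl fun ν _ => ?_
  rw [map_prod]
  simp

/-- The vector of the exponents of `x_i ^ d`. -/
lemma exists_pow {m d : ℕ} (k : Fin (2 * m + 2)) :
    ∃ ν : Mon (2 * m + 1) d, ∀ i, (ν.1 i : ℕ) = if i = k then d else 0 :=
  ⟨mkMon (fun i => if i = k then d else 0) (by simp), fun i => rfl⟩

/-- The complete linear system has a smooth member (Fermat). -/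
lemma smooth_fermat {m d : ℕ} (hd : 1 ≤ d) : ∃ c₀ : Mon (2 * m + 1) d → ℤ,
    IsSmooth (lform (n := 2 * m + 1) (monomials m d) (fun i => (c₀ i : ℂ))) := by
  classical
  choose ν hν using fun k => exists_pow (m := m) (d := d) k
  have hinj : Function.Injective ν := by
    intro a b hab
    by_contra hne
    have h1 := hν a a
    have h2 := hν b a
    rw [hab, if_pos rfl] at h1
    rw [if_neg hne] at h2
    omega
  refine ⟨fun μ => if μ ∈ Finset.univ.image ν then 1 else 0, ?_⟩
  have hF : lform (n := 2 * m + 1) (monomials m d)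
      (fun i => (((if i ∈ Finset.univ.image ν then 1 else 0 : ℤ)) : ℂ)) =
      ∑ k : Fin (2 * m + 2), (MvPolynomial.X k : MvPolynomial (Fin (2 * m + 2)) ℂ) ^ d := by
    rw [lform_monomials]
    unfold form
    have h1 : ∀ k : Fin (2 * m + 2), (∏ i, (MvPolynomial.X i : MvPolynomial (Fin (2 * m + 2)) ℂ) ^
        ((ν k).1 i : ℕ)) = MvPolynomial.X k ^ d := by
      intro k
      rw [Finset.prod_eq_single k]
      · rw [hν k k, if_pos rfl]
      · intro i _ hi
        rw [hν k i, if_neg hi, pow_zero]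
      · intro h
        exact absurd (Finset.mem_univ _) h
    rw [← Finset.sum_subset (Finset.subset_univ (Finset.univ.image ν))]
    · rw [Finset.sum_image fun a _ b _ h => hinj h]
      refine Finset.sum_congr rfl fun k _ => ?_
      rw [h1]
      beta_reduce
      rw [if_pos (Finset.mem_image_of_mem ν (Finset.mem_univ k))]
      simp
    · intro μ _ hμ
      beta_reduce
      rw [if_neg hμ]
      simp
  intro x hx _
  obtain ⟨k, hk⟩ : ∃ i, x i ≠ 0 := Function.ne_iff.mp hx
  refine ⟨k, ?_⟩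
  rw [hF, map_sum, map_sum, Finset.sum_eq_single k]
  · rw [MvPolynomial.pderiv_pow, MvPolynomial.pderiv_X_self]
    simp only [map_mul, map_natCast, map_pow, MvPolynomial.eval_X, mul_one]
    have hd0 : ((d : ℕ) : ℂ) ≠ 0 := by exact_mod_cast (by omega : d ≠ 0)
    exact mul_ne_zero hd0 (pow_ne_zero _ hk)
  · intro i _ hi
    rw [MvPolynomial.pderiv_pow, MvPolynomial.pderiv_X_of_ne hi]
    simp
  · intro h
    exact absurd (Finset.mem_univ _) h

lemma complete_hyps {m d : ℕ} (hd : 1 ≤ d) :
    (∀ ν, (monomials m d ν).IsHomogeneous d) ∧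
    (∃ c₀ : Mon (2 * m + 1) d → ℤ, IsSmooth (lform (n := 2 * m + 1) (monomials m d) (fun i => (c₀ i : ℂ)))) ∧
    (∀ p : ℕ, p.Prime → 0 ≤ p → Separates (n := 2 * m + 1) (monomials m d) p) ∧
    (∀ p : ℕ, p.Prime → 0 ≤ p → |zc (monomials m d) p - 0 * (p : ℝ) ^ m| ≤ 0 * (p : ℝ) ^ ((m : ℝ) - 1 / 2)) := by
  classical
  have hne : ∀ (p : ℕ) [Fact p.Prime] (x : Fin (2 * m + 2) → ZMod p), x ≠ 0 →
      ∃ ν : Mon (2 * m + 1) d, MvPolynomial.aeval x (monomials m d ν) ≠ 0 := by
    intro p _ x hx
    obtain ⟨k, hk⟩ : ∃ i, x i ≠ 0 := Function.ne_iff.mp hx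
    obtain ⟨ν, hν⟩ := exists_pow (m := m) (d := d) k
    refine ⟨ν, ?_⟩
    rw [aeval_monomials]
    unfold mev
    rw [Finset.prod_eq_single k]
    · rw [hν k, if_pos rfl]
      exact pow_ne_zero _ hk
    · intro i _ hi
      rw [hν i, if_neg hi, pow_zero]
    · intro h
      exact absurd (Finset.mem_univ _) h
  refine ⟨fun ν => ?_, smooth_fermat hd, ?_, ?_⟩
  · unfold monomials
    have h1 := MvPolynomial.IsHomogeneous.prod Finset.univ
      (fun i : Fin (2 * m + 2) => (MvPolynomial.X i : MvPolynomial (Fin (2 * m + 2)) ℤ) ^ (ν.1 i : ℕ))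
      (fun i => (ν.1 i : ℕ)) (fun i _ => by
        have := (MvPolynomial.isHomogeneous_X ℤ i).pow (ν.1 i : ℕ)
        rwa [one_mul] at this)
    rwa [ν.2] at h1
  · intro p hp _ x y hxy hx
    have := Fact.mk hp
    obtain ⟨i, j, hij⟩ := hxy
    have hx0 : x ≠ 0 := by
      rintro rfl
      simp at hij
    obtain ⟨c, hc1, hc2⟩ := exists_val_pair hd x y hx0 i j hij 1
    refine ⟨c, ?_, ?_⟩
    · rw [eval_lform, lval_monomials, hc1]
      exact one_ne_zero
    · rw [eval_lform, lval_monomials, hc2]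
  · intro p hp _
    have := Fact.mk hp
    have h1 : bcone (n := 2 * m + 1) (monomials m d) p = 0 := by
      unfold bcone
      rw [Nat.card_eq_zero]
      left
      refine ⟨fun x => ?_⟩
      obtain ⟨ν, hν⟩ := hne p x.1 x.2.1
      exact hν (x.2.2 ν)
    unfold zc
    rw [h1]
    simp

end Run7.h113.FE
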