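import Pool.Agent.Y722.HS.LSum

/-!
# Random vectors modulo the primes

`Om ι` is the product of the finite sets `ι → ZMod p`, `mu ι` the product of the uniform probability measures, and
`bx ι H` the uniform probability measure on the integer vectors of height at most `H`.
-/

set_option autoImplicit false

namespace Run7.h113.FE

open Finset MeasureTheory ProbabilityTheory Filter Topology
open Pool.Agent.Y722.HS (EB EM red box)
open scoped ENNReal

scoped instance factP (p : Nat.Primes) : Fact (p : ℕ).Prime := ⟨p.2⟩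

section
variable (ι : Type) [Fintype ι] [DecidableEq ι]

/-- The uniform probability measure on the vectors with coordinates in `ZMod p`. -/
noncomputable def unif (p : Nat.Primes) : Measure (ι → ZMod p) :=
  (((p : ℕ) : ℝ≥0∞) ^ Fintype.card ι)⁻¹ • Measure.count

/-- Families of vectors modulo the primes. -/
abbrev Om : Type := (p : Nat.Primes) → ι → ZMod p

/-- The vectors modulo the primes are independent and uniformly distributed. -/
noncomputable def mu : Measure (Om ι) := Measure.infinitePi (unif ι)

/-- The uniform probability measure on the integer vectors of height at most `H`. -/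
noncomputable def bx (H : ℕ) : Measure (ι → ℤ) :=
  ((2 * (H : ℝ≥0∞) + 1) ^ Fintype.card ι)⁻¹ • ∑ c ∈ box ι H, Measure.dirac c

end

variable {ι : Type} [Fintype ι] [DecidableEq ι]

/-- The reductions of an integer vector. -/
def redP (c : ι → ℤ) : Om ι := fun p => red (p : ℕ) c

lemma card_vec (p : Nat.Primes) : Fintype.card (ι → ZMod p) = (p : ℕ) ^ Fintype.card ι := by
  rw [Fintype.card_fun, ZMod.card]

instance prob_unif (p : Nat.Primes) : IsProbabilityMeasure (unif ι p) := by
  constructor
  unfold unif
  rw [Measure.smul_apply, Measure.count_univ, ENat.card_eq_coe_fintype_card, card_vec]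
  push_cast
  rw [smul_eq_mul, ENNReal.inv_mul_cancel]
  · exact pow_ne_zero _ (by exact_mod_cast p.2.ne_zero)
  · exact ENNReal.pow_ne_top (ENNReal.natCast_ne_top _)

instance prob_mu : IsProbabilityMeasure (mu ι) := by
  unfold mu
  infer_instance

section
variable {E : Type*} [NormedAddCommGroup E] [NormedSpace ℝ E]

lemma integral_unif (p : Nat.Primes) (f : (ι → ZMod p) → ℝ) : ∫ c, f c ∂unif ι p = EM (p : ℕ) f := by
  unfold unif EM
  rw [integral_smul_measure, integral_count, smul_eq_mul, ENNReal.toReal_inv, ENNReal.toReal_pow,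
    ENNReal.toReal_natCast, div_eq_inv_mul]

lemma integrable_unif (p : Nat.Primes) (f : (ι → ZMod p) → E) : Integrable f (unif ι p) :=
  Integrable.of_finite

lemma integral_bx (H : ℕ) (f : (ι → ℤ) → ℝ) : ∫ c, f c ∂bx ι H = EB H f := by
  unfold bx EB
  rw [integral_smul_measure, integral_finsetSum_measure]
  · simp only [integral_dirac, smul_eq_mul, ENNReal.toReal_inv, ENNReal.toReal_pow]
    rw [div_eq_inv_mul]
    congr 3
  · intro c _
    exact integrable_dirac (by simp)

lemma integrable_bx (H : ℕ) (f : (ι → ℤ) → E) : Integrable f (bx ι H) := by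
  unfold bx
  refine Integrable.smul_measure ?_ (by
    apply ENNReal.inv_ne_top.mpr
    apply pow_ne_zero
    simp)
  rw [integrable_finsetSum_measure]
  intro c _
  exact integrable_dirac (by simp)

end

lemma card_box (H : ℕ) : (box ι H).card = (2 * H + 1) ^ Fintype.card ι := by
  unfold Pool.Agent.Y722.HS.box Pool.Agent.Y722.HS.IH
  rw [Fintype.card_piFinset]
  simp only [Int.card_Icc, Finset.prod_const, Finset.card_univ]
  congr 1
  omega

instance prob_bx (H : ℕ) : IsProbabilityMeasure (bx ι H) := by
  constructor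
  unfold bx
  rw [Measure.smul_apply, Measure.finsetSum_apply]
  simp only [measure_univ, Finset.sum_const, nsmul_eq_mul, mul_one, smul_eq_mul]
  rw [card_box]
  push_cast
  rw [ENNReal.inv_mul_cancel]
  · exact pow_ne_zero _ (by simp)
  · exact ENNReal.pow_ne_top (by finiteness)

/-- Random vectors modulo the primes, nearly independent and uniform in pairs. -/
structure Rnd {Ω' : Type*} [MeasurableSpace Ω'] (P : Measure Ω') (c : Ω' → Om ι) (κ Y : ℝ) : Prop where
  prob : IsProbabilityMeasure P
  meas : Measurable c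
  κ0 : 0 ≤ κ
  two : ∀ p q : Nat.Primes, p ≠ q → ((p : ℕ) : ℝ) * ((q : ℕ) : ℝ) ≤ Y → ∀ (f : (ι → ZMod p) → ℝ)
    (g : (ι → ZMod q) → ℝ),
    |∫ ω, f (c ω p) * g (c ω q) ∂P - EM (p : ℕ) f * EM (q : ℕ) g| ≤
      κ * (((p : ℕ) : ℝ) * ((q : ℕ) : ℝ)) * (EM (p : ℕ) (fun r => |f r|) * EM (q : ℕ) (fun r => |g r|))

lemma rnd_mu (Y : ℝ) : Rnd (mu ι) (fun ω => ω) 0 Y := by
  refine ⟨inferInstance, measurable_id, le_rfl, fun p q hpq _ f g => ?_⟩
  have h1 : iIndepFun (fun (p : Nat.Primes) (ω : Om ι) => ω p) (mu ι) :=
    iIndepFun_infinitePi (X := fun (p : Nat.Primes) (x : ι → ZMod p) => x) (fun p => measurable_id)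
  have h2 : IndepFun (fun ω : Om ι => f (ω p)) (fun ω : Om ι => g (ω q)) (mu ι) :=
    (h1.indepFun hpq).comp (measurable_of_finite f) (measurable_of_finite g)
  have hev : ∀ (p : Nat.Primes) (f : (ι → ZMod p) → ℝ), ∫ ω, f (ω p) ∂mu ι = EM (p : ℕ) f := by
    intro p f
    rw [← integral_unif]
    have h5 := (measurePreserving_eval_infinitePi (unif ι) p).map_eq
    rw [← h5, integral_map (measurable_pi_apply p).aemeasurable (measurable_of_finite f).aestronglyMeasurable]
    rfl
  have h3 := h2.integral_fun_mul_eq_mul_integral ((measurable_of_finite f).comp (measurable_pi_apply p)).aestronglyMeasurable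
    ((measurable_of_finite g).comp (measurable_pi_apply q)).aestronglyMeasurable
  rw [h3, hev, hev, sub_self, abs_zero]
  simp

lemma measurable_redP : Measurable (redP : (ι → ℤ) → Om ι) := measurable_of_countable _

lemma rnd_bx (H : ℕ) : Rnd (bx ι H) redP (2 ^ Fintype.card ι / (2 * H + 1)) (2 * H + 1) := by
  refine ⟨inferInstance, measurable_redP, by positivity, fun p q hpq hY f g => ?_⟩
  rw [integral_bx]
  have h1 := Pool.Agent.Y722.HS.EB_two (ι := ι) H (p : ℕ) (q : ℕ)
    ((Nat.coprime_primes p.2 q.2).mpr (fun h => hpq (Subtype.ext h))) (by exact_mod_cast hY) f g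
  refine h1.trans (le_of_eq ?_)
  ring

end Run7.h113.FE
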