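import Pool.Agent.Run7.h113.FE.Sup

/-!
# The random Euler product
-/

set_option autoImplicit false

namespace Run7.h113.FE

open Finset MeasureTheory ProbabilityTheory Filter Topology
open scoped ENNReal

/-- The primes up to `y`. -/
def pr (y : ℕ) : Finset Nat.Primes := (Finset.range (y + 1)).subtype Nat.Prime

lemma mem_pr {y : ℕ} {p : Nat.Primes} : p ∈ pr y ↔ (p : ℕ) ≤ y := by
  unfold pr
  refine (Finset.mem_subtype (p := Nat.Prime) (s := Finset.range (y + 1)) (a := p)).trans ?_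
  rw [Finset.mem_range]
  omega

lemma pr_mono {y z : ℕ} (h : y ≤ z) : pr y ⊆ pr z := fun _ hp => mem_pr.mpr ((mem_pr.mp hp).trans h)

lemma pr_one : pr 1 = ∅ := by
  ext p
  rw [mem_pr]
  have := p.2.two_le
  simp
  omega

/-- The primes in a dyadic block. -/
def bl (k : ℕ) : Finset Nat.Primes := pr (2 ^ (k + 1)) \ pr (2 ^ k)

lemma mem_bl {k : ℕ} {p : Nat.Primes} : p ∈ bl k ↔ 2 ^ k < (p : ℕ) ∧ (p : ℕ) ≤ 2 ^ (k + 1) := by
  unfold bl
  rw [Finset.mem_sdiff, mem_pr, mem_pr]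
  omega

lemma card_bl_le (k : ℕ) : (bl k).card ≤ 2 ^ k := by
  have h1 : ((bl k).image fun p : Nat.Primes => (p : ℕ)) ⊆ Finset.Ioc (2 ^ k) (2 ^ (k + 1)) := by
    intro n hn
    obtain ⟨p, hp, rfl⟩ := Finset.mem_image.mp hn
    rw [mem_bl] at hp
    exact Finset.mem_Ioc.mpr hp
  have h2 := Finset.card_le_card h1
  have h3 := Finset.card_image_of_injective (bl k) (f := fun p : Nat.Primes => (p : ℕ)) (fun a b h => Subtype.ext h)
  rw [h3, Nat.card_Ioc] at h2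
  rw [pow_succ] at h2
  omega

/-- Chebyshev's bound for the number of primes in a dyadic block. -/
lemma card_bl_cheb (k : ℕ) : k * (bl k).card ≤ 4 * 2 ^ k := by
  have h1 : ∏ p ∈ bl k, (p : ℕ) ≤ primorial (2 ^ (k + 1)) := by
    unfold primorial
    have e : ∏ p ∈ bl k, (p : ℕ) = ∏ n ∈ (bl k).image (fun p : Nat.Primes => (p : ℕ)), n := by
      exact (Finset.prod_image (s := bl k) (g := fun p : Nat.Primes => (p : ℕ)) (f := fun n => n)
        (fun a _ b _ h => Subtype.ext h)).symm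
    rw [e]
    refine Finset.prod_le_prod_of_subset_of_one_le' ?_ ?_
    · intro n hn
      obtain ⟨p, hp, rfl⟩ := Finset.mem_image.mp hn
      rw [mem_bl] at hp
      rw [Finset.mem_filter, Finset.mem_range]
      exact ⟨by omega, p.2⟩
    · intro n hn _
      exact (Finset.mem_filter.mp hn).2.one_lt.le
  have h2 : (2 ^ k) ^ (bl k).card ≤ ∏ p ∈ bl k, (p : ℕ) := by
    refine Finset.pow_card_le_prod _ _ _ fun p hp => (mem_bl.mp hp).1.le
  have h3 := h2.trans (h1.trans (primorial_le_four_pow _))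
  rw [← pow_mul, show (4 : ℕ) = 2 ^ 2 by norm_num, ← pow_mul] at h3
  have h4 := (Nat.pow_le_pow_iff_right (by norm_num : 1 < 2)).mp h3
  rw [pow_succ] at h4
  omega

variable {ι : Type} [Fintype ι] [DecidableEq ι] {M : ℝ}

namespace Loc

variable (L : Loc ι M)

lemma sm_add (ω : Om ι) (s : ℂ) (k : ℕ) :
    L.sm (pr (2 ^ (k + 1))) ω s = L.sm (pr (2 ^ k)) ω s + L.sm (bl k) ω s := by
  unfold sm bl
  have h := Finset.sum_sdiff (f := fun p => L.g p (ω p) s)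
    (pr_mono (Nat.pow_le_pow_right (by norm_num : 0 < 2) (by omega : k ≤ k + 1)))
  rw [← h, add_comm]

lemma sm_range (ω : Om ι) (s : ℂ) (N : ℕ) :
    ∑ k ∈ Finset.range N, L.sm (bl k) ω s = L.sm (pr (2 ^ N)) ω s := by
  induction N with
  | zero => simp [sm, pr_one]
  | succ N ih => rw [Finset.sum_range_succ, ih, sm_add]

/-- The random function. -/
noncomputable def Lam (ω : Om ι) (s : ℂ) : ℂ := ∑' k, L.sm (bl k) ω s

lemma dyadic_bound {θ : ℝ} (hθ0 : 0 ≤ θ) (hθ : θ < 1 / 2) (k : ℕ) :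
    ∑ p ∈ bl k, (L.C * ((p : ℕ) : ℝ) ^ (-1 + θ)) ^ 2 + (∑ p ∈ bl k, L.C * ((p : ℕ) : ℝ) ^ (-(3 / 2) + θ)) ^ 2 ≤
      (2 * L.C * (((2 : ℝ) ^ (-(1 / 2) + θ)) ^ k)) ^ 2 := by
  have hC := L.C0
  have h2 : (0 : ℝ) < 2 ^ k := by positivity
  have hcard : ((bl k).card : ℝ) ≤ 2 ^ k := by exact_mod_cast card_bl_le k
  have hlow : ∀ p ∈ bl k, (2 : ℝ) ^ k ≤ ((p : ℕ) : ℝ) := fun p hp => by exact_mod_cast (mem_bl.mp hp).1.le
  have e0 : ((2 : ℝ) ^ (-(1 / 2) + θ)) ^ k = ((2 : ℝ) ^ k) ^ (-(1 / 2) + θ) := by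
    rw [← Real.rpow_natCast, ← Real.rpow_mul (by norm_num), ← Real.rpow_natCast, ← Real.rpow_mul (by norm_num),
      mul_comm]
  rw [e0]
  set T : ℝ := (2 : ℝ) ^ k with hT
  have hT2 : (T ^ (-(1 / 2) + θ)) ^ 2 = T ^ (-1 + 2 * θ) := by
    rw [sq, ← Real.rpow_add h2]
    congr 1
    ring
  have t1 : ∑ p ∈ bl k, (L.C * ((p : ℕ) : ℝ) ^ (-1 + θ)) ^ 2 ≤ L.C ^ 2 * (T ^ (-(1 / 2) + θ)) ^ 2 := by
    have h3 : ∀ p ∈ bl k, (L.C * ((p : ℕ) : ℝ) ^ (-1 + θ)) ^ 2 ≤ (L.C * T ^ (-1 + θ)) ^ 2 := by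
      intro p hp
      have := Real.rpow_le_rpow_of_nonpos h2 (hlow p hp) (by linarith : -1 + θ ≤ 0)
      gcongr
    refine (Finset.sum_le_sum h3).trans ?_
    rw [Finset.sum_const, nsmul_eq_mul]
    calc ((bl k).card : ℝ) * (L.C * T ^ (-1 + θ)) ^ 2 ≤ T * (L.C * T ^ (-1 + θ)) ^ 2 := by gcongr
      _ = L.C ^ 2 * (T ^ (1 : ℝ) * T ^ (-1 + θ) * T ^ (-1 + θ)) := by rw [Real.rpow_one]; ring
      _ = _ := by
          rw [← Real.rpow_add h2, ← Real.rpow_add h2, hT2]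
          congr 2
          ring
  have t2 : (∑ p ∈ bl k, L.C * ((p : ℕ) : ℝ) ^ (-(3 / 2) + θ)) ^ 2 ≤ L.C ^ 2 * (T ^ (-(1 / 2) + θ)) ^ 2 := by
    have h3 : ∀ p ∈ bl k, L.C * ((p : ℕ) : ℝ) ^ (-(3 / 2) + θ) ≤ L.C * T ^ (-(3 / 2) + θ) := by
      intro p hp
      have := Real.rpow_le_rpow_of_nonpos h2 (hlow p hp) (by linarith : -(3 / 2) + θ ≤ 0)
      gcongr
    have h4 : ∑ p ∈ bl k, L.C * ((p : ℕ) : ℝ) ^ (-(3 / 2) + θ) ≤ L.C * T ^ (-(1 / 2) + θ) := by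
      refine (Finset.sum_le_sum h3).trans ?_
      rw [Finset.sum_const, nsmul_eq_mul]
      calc ((bl k).card : ℝ) * (L.C * T ^ (-(3 / 2) + θ)) ≤ T * (L.C * T ^ (-(3 / 2) + θ)) := by gcongr
        _ = L.C * (T ^ (1 : ℝ) * T ^ (-(3 / 2) + θ)) := by rw [Real.rpow_one]; ring
        _ = _ := by
            rw [← Real.rpow_add h2]
            congr 2
            ring
    calc _ ≤ (L.C * T ^ (-(1 / 2) + θ)) ^ 2 := by
          gcongr
      _ = _ := by ring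
  nlinarith [sq_nonneg (L.C * T ^ (-(1 / 2) + θ))]

/-- The dyadic blocks are summable, uniformly over compact sets, almost surely. -/
lemma ae_summable {A : Finset ℂ} {R θ : ℝ} (hR : 0 < R) (hθ0 : 0 ≤ θ) (hθ : θ < 1 / 2)
    (hA : ∀ a ∈ A, ∀ z ∈ Metric.closedBall a R, -θ ≤ z.re) :
    ∀ᵐ ω ∂mu ι, Summable fun k => L.DD A R (bl k) ω := by
  have hC := L.C0
  have hAH : ∀ a ∈ A, Metric.closedBall a R ⊆ HP := by
    intro a ha z hz
    have := hA a ha z hz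
    change -(1 / 2) < z.re
    linarith
  set ρ : ℝ := (2 : ℝ) ^ (-(1 / 2) + θ) with hρ
  have hρ0 : 0 < ρ := by positivity
  have hρ1 : ρ < 1 := Real.rpow_lt_one_of_one_lt_of_neg (by norm_num) (by linarith)
  have hm : ∀ k, Integrable (fun ω => L.DD A R (bl k) ω) (mu ι) ∧
      ∫ ω, L.DD A R (bl k) ω ∂mu ι ≤ A.card * (2 * (2 * (2 * L.C * ρ ^ k))) := by
    intro k
    set Y : ℝ := (2 : ℝ) ^ (k + 1) * 2 ^ (k + 1) with hY
    refine L.DD_int (rnd_mu (ι := ι) Y) hR hAH (bl k) _ fun a ha φ => ?_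
    refine L.sm_mean (rnd_mu (ι := ι) Y) (θ := θ) (hA a ha _ (circleMap_mem_closedBall a hR.le φ)) hθ (bl k) ?_ _
      (by positivity) ?_
    · intro p hp q hq
      have h1 : ((p : ℕ) : ℝ) ≤ 2 ^ (k + 1) := by exact_mod_cast (mem_bl.mp hp).2
      have h2 : ((q : ℕ) : ℝ) ≤ 2 ^ (k + 1) := by exact_mod_cast (mem_bl.mp hq).2
      rw [hY]
      gcongr
    · rw [zero_mul, add_zero]
      exact L.dyadic_bound hθ0 hθ k
  have hsum : Summable fun k : ℕ => (A.card : ℝ) * (2 * (2 * (2 * L.C * ρ ^ k))) :=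
    ((((summable_geometric_of_lt_one hρ0.le hρ1).mul_left (2 * L.C)).mul_left 2).mul_left 2).mul_left _
  have hfin : ∫⁻ ω, ∑' k, ENNReal.ofReal (L.DD A R (bl k) ω) ∂mu ι ≠ ∞ := by
    rw [lintegral_tsum fun k => (hm k).1.aestronglyMeasurable.aemeasurable.ennreal_ofReal]
    have h1 : ∀ k, ∫⁻ ω, ENNReal.ofReal (L.DD A R (bl k) ω) ∂mu ι ≤
        ENNReal.ofReal (A.card * (2 * (2 * (2 * L.C * ρ ^ k)))) := by
      intro k
      rw [← ofReal_integral_eq_lintegral_ofReal (hm k).1 (ae_of_all _ fun ω => L.DD_nonneg A R (bl k) ω)]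
      exact ENNReal.ofReal_le_ofReal (hm k).2
    refine ne_top_of_le_ne_top ?_ (ENNReal.tsum_le_tsum h1)
    exact hsum.tsum_ofReal_ne_top
  have hae := ae_lt_top' (AEMeasurable.tsum fun k => (hm k).1.aestronglyMeasurable.aemeasurable.ennreal_ofReal) hfin
  filter_upwards [hae] with ω hω
  have h1 := ENNReal.summable_toReal hω.ne
  refine h1.congr fun k => ?_
  rw [ENNReal.toReal_ofReal (L.DD_nonneg A R (bl k) ω)]

/-- Uniform convergence on a compact set, almost surely. -/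
lemma ae_unif {K : Set ℂ} (hK : IsCompact K) (hsub : K ⊆ HP) :
    ∀ᵐ ω ∂mu ι, TendstoUniformlyOn (fun (k : ℕ) s => L.sm (pr (2 ^ k)) ω s) (L.Lam ω) atTop K := by
  obtain ⟨A, R, θ, hR, _, hθ0, hθ, hA, hcov⟩ := cover hK hsub
  have hAH : ∀ a ∈ A, Metric.closedBall a R ⊆ HP := by
    intro a ha z hz
    have := hA a ha z hz
    change -(1 / 2) < z.re
    linarith
  filter_upwards [L.ae_summable hR hθ0 hθ hA] with ω hω
  have h1 := tendstoUniformlyOn_tsum_nat (f := fun k s => L.sm (bl k) ω s) hω (s := K)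
    (fun k s hs => L.sm_le_DD hR hAH (bl k) ω (hcov s hs))
  refine h1.congr (Eventually.of_forall fun N s _ => ?_)
  exact L.sm_range ω s N

/-- An exhaustion of the half-plane. -/
def Kx (j : ℕ) : Set ℂ := {s | -(1 / 2) + 1 / ((j : ℝ) + 1) ≤ s.re} ∩ Metric.closedBall 0 j

lemma Kx_compact (j : ℕ) : IsCompact (Kx j) :=
  (isCompact_closedBall (0 : ℂ) (j : ℝ)).inter_left (isClosed_le continuous_const Complex.continuous_re)

lemma Kx_sub (j : ℕ) : Kx j ⊆ HP := by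
  intro s hs
  have h1 : -(1 / 2) + 1 / ((j : ℝ) + 1) ≤ s.re := hs.1
  have : 0 < 1 / ((j : ℝ) + 1) := by positivity
  change -(1 / 2) < s.re
  linarith

lemma exists_Kx {K : Set ℂ} (hK : IsCompact K) (hsub : K ⊆ HP) : ∃ j, K ⊆ Kx j := by
  rcases K.eq_empty_or_nonempty with rfl | hne
  · exact ⟨0, by simp⟩
  obtain ⟨z0, hz0, hmin⟩ := hK.exists_isMinOn hne Complex.continuous_re.continuousOn
  have h0 : -(1 / 2) < z0.re := hsub hz0
  obtain ⟨B, hB⟩ := hK.isBounded.subset_closedBall 0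
  obtain ⟨j, hj⟩ := exists_nat_ge (max B (1 / (z0.re + 1 / 2)))
  refine ⟨j, fun s hs => ⟨?_, ?_⟩⟩
  · have h1 : z0.re ≤ s.re := hmin hs
    have h2 : 1 / (z0.re + 1 / 2) ≤ (j : ℝ) + 1 := by
      have := (le_max_right B (1 / (z0.re + 1 / 2))).trans hj
      linarith
    have h3 : 0 < z0.re + 1 / 2 := by linarith
    have h4 : 1 / ((j : ℝ) + 1) ≤ z0.re + 1 / 2 := by
      rw [one_div_le (by positivity) h3]
      exact h2
    change -(1 / 2) + 1 / ((j : ℝ) + 1) ≤ s.re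
    linarith
  · have h1 := hB hs
    exact Metric.closedBall_subset_closedBall ((le_max_left _ _).trans hj) h1

/-- **The random Euler product**: almost surely the sum converges locally uniformly in the half-plane. -/
theorem ae_conv : ∀ᵐ ω ∂mu ι, TendstoLocallyUniformlyOn (fun (k : ℕ) s => L.sm (pr (2 ^ k)) ω s) (L.Lam ω) atTop HP := by
  have h1 : ∀ᵐ ω ∂mu ι, ∀ j : ℕ, TendstoUniformlyOn (fun (k : ℕ) s => L.sm (pr (2 ^ k)) ω s) (L.Lam ω) atTop (Kx j) :=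
    ae_all_iff.mpr fun j => L.ae_unif (Kx_compact j) (Kx_sub j)
  filter_upwards [h1] with ω hω
  rw [tendstoLocallyUniformlyOn_iff_forall_isCompact isOpen_HP]
  intro K hKs hK
  obtain ⟨j, hj⟩ := exists_Kx hK hKs
  exact (hω j).mono hj

lemma edge_block (ω : Om ι) {s : ℂ} (hs : 0 ≤ s.re) {k : ℕ} (hk : 1 ≤ k) {y : ℕ} (h1 : 2 ^ k ≤ y)
    (h2 : y ≤ 2 ^ (k + 1)) : ‖L.sm (pr y) ω s - L.sm (pr (2 ^ k)) ω s‖ ≤ 4 * L.C / k := by
  have hC := L.C0
  have e : L.sm (pr y) ω s - L.sm (pr (2 ^ k)) ω s = ∑ p ∈ pr y \ pr (2 ^ k), L.g p (ω p) s := by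
    unfold sm
    rw [← Finset.sum_sdiff (pr_mono h1)]
    ring
  rw [e]
  refine (norm_sum_le _ _).trans ?_
  have hsH : s ∈ HP := by
    change -(1 / 2) < s.re
    linarith
  have h3 : ∀ p ∈ pr y \ pr (2 ^ k), ‖L.g p (ω p) s‖ ≤ L.C / 2 ^ k := by
    intro p hp
    rw [Finset.mem_sdiff, mem_pr, mem_pr, not_le] at hp
    have hp2 : (2 : ℝ) ^ k ≤ ((p : ℕ) : ℝ) := by exact_mod_cast hp.2.le
    have hp1 : (1 : ℝ) ≤ ((p : ℕ) : ℝ) := by exact_mod_cast p.2.one_lt.le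
    refine (L.bound p (ω p) s hsH).trans ?_
    have h4 : ((p : ℕ) : ℝ) ^ (-1 - s.re) ≤ ((p : ℕ) : ℝ) ^ (-1 : ℝ) :=
      Real.rpow_le_rpow_of_exponent_le hp1 (by linarith)
    have h5 : ((p : ℕ) : ℝ) ^ (-1 : ℝ) ≤ 1 / 2 ^ k := by
      rw [Real.rpow_neg_one, one_div]
      gcongr
    calc _ ≤ L.C * (1 / 2 ^ k) := by
          gcongr
          exact h4.trans h5
      _ = _ := by ring
  refine (Finset.sum_le_sum h3).trans ?_
  rw [Finset.sum_const, nsmul_eq_mul]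
  have h6 : (pr y \ pr (2 ^ k)).card ≤ (bl k).card :=
    Finset.card_le_card (Finset.sdiff_subset_sdiff (pr_mono h2) (subset_refl _))
  have h7 : (k : ℝ) * ((bl k).card : ℝ) ≤ 4 * 2 ^ k := by exact_mod_cast card_bl_cheb k
  have hk0 : (0 : ℝ) < k := by exact_mod_cast hk
  have h8 : ((pr y \ pr (2 ^ k)).card : ℝ) ≤ 4 * 2 ^ k / k := by
    rw [le_div_iff₀ hk0, mul_comm]
    refine le_trans ?_ h7
    gcongr
  calc _ ≤ (4 * 2 ^ k / k) * (L.C / 2 ^ k) := by gcongr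
    _ = _ := by field_simp

/-- Convergence of the whole sequence on the closed half-plane. -/
lemma unif_edge {K : Set ℂ} (hK0 : ∀ s ∈ K, 0 ≤ s.re) (ω : Om ι)
    (h : TendstoUniformlyOn (fun (k : ℕ) s => L.sm (pr (2 ^ k)) ω s) (L.Lam ω) atTop K) :
    TendstoUniformlyOn (fun (y : ℕ) s => L.sm (pr y) ω s) (L.Lam ω) atTop K := by
  have hC := L.C0
  rw [Metric.tendstoUniformlyOn_iff] at h ⊢
  intro ε hε
  obtain ⟨k0, hk0⟩ := eventually_atTop.mp (h (ε / 2) (by positivity))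
  obtain ⟨k1, hk1⟩ := exists_nat_gt (8 * L.C / ε)
  have hk1pos : 0 < k1 := by
    have : (0 : ℝ) < k1 := lt_of_le_of_lt (by positivity) hk1
    exact_mod_cast this
  filter_upwards [eventually_ge_atTop (2 ^ (max k0 k1))] with y hy s hs
  set k := Nat.log 2 y with hk
  have hy0 : y ≠ 0 := by
    have := Nat.one_le_two_pow (n := max k0 k1)
    omega
  have a1 : 2 ^ k ≤ y := Nat.pow_log_le_self 2 hy0
  have a2 : y < 2 ^ (k + 1) := Nat.lt_pow_succ_log_self (by norm_num) y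
  have a3 : max k0 k1 ≤ k := by
    rw [hk]
    exact Nat.le_log_of_pow_le (by norm_num) hy
  have b1 := hk0 k ((le_max_left _ _).trans a3) s hs
  have b2 := L.edge_block ω (hK0 s hs) (k := k) (by omega) a1 a2.le
  have hkr : (k1 : ℝ) ≤ k := by exact_mod_cast (le_max_right k0 k1).trans a3
  have hkp : (0 : ℝ) < k := lt_of_lt_of_le (by exact_mod_cast hk1pos) hkr
  have b3 : 4 * L.C / k < ε / 2 := by
    rw [div_lt_iff₀ hε] at hk1
    rw [div_lt_iff₀ hkp]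
    have : (k1 : ℝ) * ε ≤ k * ε := by gcongr
    linarith
  rw [dist_eq_norm] at b1 ⊢
  calc ‖L.Lam ω s - L.sm (pr y) ω s‖ = ‖(L.Lam ω s - L.sm (pr (2 ^ k)) ω s) - (L.sm (pr y) ω s - L.sm (pr (2 ^ k)) ω s)‖ := by
        congr 1; ring
    _ ≤ _ := norm_sub_le _ _
    _ < ε / 2 + ε / 2 := by linarith
    _ = ε := by ring

end Loc

end Run7.h113.FE
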