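import Pool.Agent.Run7.h113.FE.Conv
import Mathlib.Data.ZMod.QuotientRing

/-!
# Functions of the reductions modulo finitely many primes
-/

set_option autoImplicit false

namespace Run7.h113.FE

open Finset MeasureTheory ProbabilityTheory Filter Topology
open Pool.Agent.Y722.HS (EB EM red)
open scoped ENNReal

variable {ι : Type} [Fintype ι] [DecidableEq ι]

/-- The product of the primes of a finite set. -/
def NN (S : Finset Nat.Primes) : ℕ := ∏ p : S, ((p : Nat.Primes) : ℕ)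

lemma NN_pos (S : Finset Nat.Primes) : 0 < NN S := Finset.prod_pos fun p _ => p.1.2.pos

instance (S : Finset Nat.Primes) : NeZero (NN S) := ⟨(NN_pos S).ne'⟩

lemma cop (S : Finset Nat.Primes) : Pairwise (Function.onFun Nat.Coprime fun p : S => ((p : Nat.Primes) : ℕ)) := by
  intro p q hpq
  rw [Function.onFun, Nat.coprime_primes p.1.2 q.1.2]
  intro h
  exact hpq (Subtype.ext (Subtype.ext h))

/-- The Chinese remainder theorem for vectors. -/
noncomputable def crt (S : Finset Nat.Primes) : (ι → ZMod (NN S)) ≃ ((p : S) → ι → ZMod ((p : Nat.Primes) : ℕ)) :=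
  (Equiv.piCongrRight fun _ : ι => (ZMod.prodEquivPi (fun p : S => ((p : Nat.Primes) : ℕ)) (cop S)).toEquiv).trans
    (Equiv.piComm _)

lemma crt_red (S : Finset Nat.Primes) (c : ι → ℤ) : crt S (red (NN S) c) = S.restrict (redP c) := by
  funext p i
  change ZMod.prodEquivPi (fun p : S => ((p : Nat.Primes) : ℕ)) (cop S) ((c i : ℤ) : ZMod _) p =
    ((c i : ℤ) : ZMod ((p : Nat.Primes) : ℕ))
  rw [map_intCast]
  rfl

lemma unif_singleton (p : Nat.Primes) (r : ι → ZMod p) :
    unif ι p {r} = (((p : ℕ) : ℝ≥0∞) ^ Fintype.card ι)⁻¹ := by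
  unfold unif
  rw [Measure.smul_apply, Measure.count_singleton, smul_eq_mul, mul_one]

lemma EM_crt (S : Finset Nat.Primes) (F : ((p : S) → ι → ZMod ((p : Nat.Primes) : ℕ)) → ℝ) :
    EM (NN S) (fun c : ι → ZMod (NN S) => F (crt S c)) = ∫ ω, F (S.restrict ω) ∂mu ι := by
  have h0 := integral_restrict_infinitePi (μ := unif ι) (s := S) (f := F) (measurable_of_finite F).aestronglyMeasurable
  refine Eq.trans ?_ h0.symm
  rw [integral_fintype Integrable.of_finite]
  unfold EM
  rw [(crt S).sum_comp F, Finset.sum_div]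
  refine Finset.sum_congr rfl fun r _ => ?_
  have h1 : (Measure.pi fun p : S => unif ι (p : Nat.Primes)).real {r} = 1 / ((NN S : ℕ) : ℝ) ^ Fintype.card ι := by
    rw [Measure.real, Measure.pi_singleton]
    simp only [unif_singleton]
    rw [ENNReal.toReal_prod]
    simp only [ENNReal.toReal_inv, ENNReal.toReal_pow, ENNReal.toReal_natCast]
    rw [Finset.prod_inv_distrib, Finset.prod_pow, one_div]
    unfold NN
    push_cast
    rfl
  rw [h1, smul_eq_mul]
  ring

/-- `Φ` depends only on the coordinates in `S`. -/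
def Dep {E : Type*} (S : Finset Nat.Primes) (Φ : Om ι → E) : Prop := ∀ ω ω' : Om ι, (∀ p ∈ S, ω p = ω' p) → Φ ω = Φ ω'

/-- Extension by zero. -/
noncomputable def ext (S : Finset Nat.Primes) (r : (p : S) → ι → ZMod ((p : Nat.Primes) : ℕ)) : Om ι := by
  classical
  exact fun p => if h : p ∈ S then r ⟨p, h⟩ else 0

lemma Dep.eq {E : Type*} {S : Finset Nat.Primes} {Φ : Om ι → E} (h : Dep S Φ) (ω : Om ι) :
    Φ (ext S (S.restrict ω)) = Φ ω := by
  refine h _ _ fun p hp => ?_
  unfold ext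
  rw [dif_pos hp]
  rfl

/-- Upper bound. -/
lemma EB_le_mu {S : Finset Nat.Primes} {Φ : Om ι → ℝ} (h : Dep S Φ) (h0 : ∀ ω, 0 ≤ Φ ω) {H : ℕ}
    (hH : NN S ≤ 2 * H + 1) : EB H (fun c : ι → ℤ => Φ (redP c)) ≤ 2 ^ Fintype.card ι * ∫ ω, Φ ω ∂mu ι := by
  have h1 := Pool.Agent.Y722.HS.EB_le (ι := ι) H (NN S) hH (fun c => Φ (ext S (crt S c))) (fun c => h0 _)
  rw [EM_crt S fun r => Φ (ext S r)] at h1
  simp only [crt_red, h.eq] at h1
  exact h1

/-- Convergence. -/
lemma EB_tendsto {S : Finset Nat.Primes} {Φ : Om ι → ℝ} (h : Dep S Φ) :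
    Tendsto (fun H : ℕ => EB H (fun c : ι → ℤ => Φ (redP c))) atTop (𝓝 (∫ ω, Φ ω ∂mu ι)) := by
  set B : ℝ := EM (NN S) (fun c : ι → ZMod (NN S) => |Φ (ext S (crt S c))|) with hB
  have h2 : ∀ᶠ H : ℕ in atTop, |EB H (fun c : ι → ℤ => Φ (redP c)) - ∫ ω, Φ ω ∂mu ι| ≤
      2 ^ Fintype.card ι * ((NN S : ℕ) * B) / (2 * H + 1) := by
    filter_upwards [eventually_ge_atTop (NN S)] with H hH
    have h1 := Pool.Agent.Y722.HS.EB_two (ι := ι) H (NN S) 1 (Nat.coprime_one_right _) (by omega)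
      (fun c => Φ (ext S (crt S c))) (fun _ => 1)
    have e1 : EM 1 (fun _ : ι → ZMod 1 => (1 : ℝ)) = 1 := Pool.Agent.Y722.HS.EM_const 1 1
    have e2 : EM 1 (fun _ : ι → ZMod 1 => |(1 : ℝ)|) = 1 := by
      rw [abs_one]
      exact Pool.Agent.Y722.HS.EM_const 1 1
    rw [e1, e2, EM_crt S fun r => Φ (ext S r)] at h1
    simp only [crt_red, h.eq, mul_one] at h1
    refine h1.trans (le_of_eq ?_)
    push_cast
    ring
  rw [tendsto_iff_dist_tendsto_zero]
  refine squeeze_zero' (Eventually.of_forall fun H => dist_nonneg) h2 ?_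
  have h3 : Tendsto (fun H : ℕ => (2 * (H : ℝ) + 1)) atTop atTop :=
    tendsto_atTop_add_const_right _ _ (tendsto_natCast_atTop_atTop.const_mul_atTop two_pos)
  exact h3.const_div_atTop _

end Run7.h113.FE
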