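import Pool.Agent.Run7.h113.FE.Fin

/-!
# The functional limit theorem
-/

set_option autoImplicit false

namespace Run7.h113.FE

open Finset MeasureTheory ProbabilityTheory Filter Topology
open Pool.Agent.Y722.HS (EB EM red)
open scoped ENNReal

variable {ι : Type} [Fintype ι] [DecidableEq ι] {M : ℝ}

lemma sum_tail {β : ℝ} (P : ℕ) (S : Finset Nat.Primes) (hS : ∀ p ∈ S, P < (p : ℕ))
    (hs : Summable fun n : ℕ => (n : ℝ) ^ (-β)) :
    ∑ p ∈ S, ((p : ℕ) : ℝ) ^ (-β) ≤ ∑' n : ℕ, ((n + P : ℕ) : ℝ) ^ (-β) := by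
  have hs' : Summable fun n : ℕ => ((n + P : ℕ) : ℝ) ^ (-β) := (summable_nat_add_iff P).mpr hs
  have e : ∑ p ∈ S, ((p : ℕ) : ℝ) ^ (-β) =
      ∑ n ∈ S.image (fun p : Nat.Primes => (p : ℕ) - P), ((n + P : ℕ) : ℝ) ^ (-β) := by
    rw [Finset.sum_image]
    · refine Finset.sum_congr rfl fun p hp => ?_
      have := hS p hp
      rw [Nat.sub_add_cancel this.le]
    · intro a ha b hb h
      have h1 := hS a ha
      have h2 := hS b hb
      apply Subtype.ext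
      change (a : ℕ) - P = (b : ℕ) - P at h
      omega
  rw [e]
  exact hs'.sum_le_tsum _ fun n _ => by positivity

/-- The tail of the series. -/
noncomputable def tau (β : ℝ) (P : ℕ) : ℝ := ∑' n : ℕ, ((n + P : ℕ) : ℝ) ^ (-β)

lemma tau_nonneg (β : ℝ) (P : ℕ) : 0 ≤ tau β P := tsum_nonneg fun n => by positivity

lemma tau_tendsto (β : ℝ) : Tendsto (tau β) atTop (𝓝 0) :=
  _root_.tendsto_sum_nat_add fun n : ℕ => ((n : ℕ) : ℝ) ^ (-β)

namespace Loc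

variable (L : Loc ι M)

/-- The full sum, in the open half-plane of absolute convergence. -/
noncomputable def Q (r : Om ι) (s : ℂ) : ℂ := ∑' p : Nat.Primes, L.g p (r p) s

lemma dep_sm {E : Type*} (S : Finset Nat.Primes) (f : (ℂ → ℂ) → E) : Dep S fun ω : Om ι => f (L.sm S ω) := by
  intro ω ω' h
  have : L.sm S ω = L.sm S ω' := by
    funext s
    unfold sm
    exact Finset.sum_congr rfl fun p hp => by rw [h p hp]
  change f _ = f _
  rw [this]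

/-- The tail of the full sum. -/
lemma Q_tail (r : Om ι) {s : ℂ} {ε : ℝ} (hε : 0 < ε) (hε1 : ε ≤ 1) (hs : ε ≤ s.re) {y : ℕ} (hy : 1 ≤ y) :
    ‖L.Q r s - L.sm (pr y) r s‖ ≤ L.C * (16 / (ε * Real.log (y + 1))) := by
  have hC := L.C0
  have hsH : s ∈ HP := by
    change -(1 / 2) < s.re
    linarith
  have hb : ∀ p : Nat.Primes, ‖L.g p (r p) s‖ ≤ L.C * ((p : ℕ) : ℝ) ^ (-1 - ε) := by
    intro p
    have hp1 : (1 : ℝ) ≤ ((p : ℕ) : ℝ) := by exact_mod_cast p.2.one_lt.le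
    refine (L.bound p (r p) s hsH).trans ?_
    gcongr
  have hg : Summable fun p : Nat.Primes => L.C * ((p : ℕ) : ℝ) ^ (-1 - ε) :=
    (Pool.Agent.Y722.HS.summable_primes hε).mul_left _
  have h1 : Summable fun p : Nat.Primes => L.g p (r p) s := Summable.of_norm_bounded hg hb
  have h2 := h1.sum_add_tsum_subtype_compl (pr y)
  have e : L.Q r s - L.sm (pr y) r s = ∑' p : {p : Nat.Primes // p ∉ pr y}, L.g p (r p) s := by
    unfold Q sm
    rw [← h2]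
    ring
  rw [e]
  have h4 : Summable fun p : {p : Nat.Primes // p ∉ pr y} =>
      L.C * (((p : Nat.Primes) : ℕ) : ℝ) ^ (-1 - ε) := hg.comp_injective Subtype.val_injective
  refine (tsum_of_norm_bounded h4.hasSum fun p => hb p.1).trans ?_
  refine h4.tsum_le_of_sum_le fun t => ?_
  rw [← Finset.mul_sum]
  refine mul_le_mul_of_nonneg_left ?_ (by positivity)
  have h5 := Pool.Agent.Y722.HS.tail_le (y + 1) (by omega) ε hε hε1
    (t.image (fun p : {p : Nat.Primes // p ∉ pr y} => ((p : Nat.Primes) : ℕ))) (by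
      intro q hq
      obtain ⟨p, _, rfl⟩ := Finset.mem_image.mp hq
      refine ⟨p.1.2, ?_⟩
      have h6 : ¬ ((p.1 : Nat.Primes) : ℕ) ≤ y := fun h => p.2 (mem_pr.mpr h)
      omega)
  have h6 : ∑ q ∈ t.image (fun p : {p : Nat.Primes // p ∉ pr y} => ((p : Nat.Primes) : ℕ)),
      (q : ℝ) ^ (-1 - ε) = ∑ p ∈ t, (((p : Nat.Primes) : ℕ) : ℝ) ^ (-1 - ε) :=
    Finset.sum_image (fun a _ b _ h => Subtype.ext (Subtype.ext h))
  rw [h6] at h5
  push_cast at h5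
  exact h5

/-- The middle primes: mean value of the dominating function over the box. -/
lemma DD_box {A : Finset ℂ} {R θ : ℝ} (hR : 0 < R) (hθ0 : 0 ≤ θ) (hθ : θ < 1 / 2)
    (hA : ∀ a ∈ A, ∀ z ∈ Metric.closedBall a R, -θ ≤ z.re) {H y P : ℕ} (hy1 : 1 ≤ y) (hy : y ^ 4 ≤ H) :
    EB H (fun c : ι → ℤ => L.DD A R (pr y \ pr P) (redP c)) ≤
      A.card * (2 * (2 * (L.C * Real.sqrt (tau (2 - 2 * θ) P + tau (3 / 2 - θ) P ^ 2 + 2 ^ Fintype.card ι / y)))) := by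
  have hC := L.C0
  have hAH : ∀ a ∈ A, Metric.closedBall a R ⊆ HP := by
    intro a ha z hz
    have := hA a ha z hz
    change -(1 / 2) < z.re
    linarith
  have hyr : (1 : ℝ) ≤ y := by exact_mod_cast hy1
  have hyp : (0 : ℝ) < y := by linarith
  have hHy : (y : ℝ) ^ 4 ≤ H := by exact_mod_cast hy
  have hpos : 0 < tau (2 - 2 * θ) P + tau (3 / 2 - θ) P ^ 2 + 2 ^ Fintype.card ι / (y : ℝ) := by
    have := tau_nonneg (2 - 2 * θ) P
    positivity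
  rw [← integral_bx]
  refine (L.DD_int (rnd_bx (ι := ι) H) hR hAH (pr y \ pr P) _ fun a ha φ => ?_).2
  refine L.sm_mean (rnd_bx (ι := ι) H) (θ := θ) (hA a ha _ (circleMap_mem_closedBall a hR.le φ)) hθ (pr y \ pr P) ?_ _
    (by positivity) ?_
  · intro p hp q hq
    have h1 : ((p : ℕ) : ℝ) ≤ y := by exact_mod_cast mem_pr.mp (Finset.mem_sdiff.mp hp).1
    have h2 : ((q : ℕ) : ℝ) ≤ y := by exact_mod_cast mem_pr.mp (Finset.mem_sdiff.mp hq).1
    calc ((p : ℕ) : ℝ) * ((q : ℕ) : ℝ) ≤ y * y := by gcongr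
      _ ≤ (y : ℝ) ^ 4 := by
          calc (y : ℝ) * y = (y : ℝ) ^ 2 := by ring
            _ ≤ _ := pow_le_pow_right₀ hyr (by norm_num)
      _ ≤ 2 * H + 1 := by linarith
  · have hP : ∀ p ∈ pr y \ pr P, P < (p : ℕ) := by
      intro p hp
      have := (Finset.mem_sdiff.mp hp).2
      rw [mem_pr] at this
      omega
    have hpy : ∀ p ∈ pr y \ pr P, ((p : ℕ) : ℝ) ≤ y := by
      intro p hp
      exact_mod_cast mem_pr.mp (Finset.mem_sdiff.mp hp).1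
    have s1 : ∑ p ∈ pr y \ pr P, (L.C * ((p : ℕ) : ℝ) ^ (-1 + θ)) ^ 2 ≤ L.C ^ 2 * tau (2 - 2 * θ) P := by
      have e : ∀ p ∈ pr y \ pr P, (L.C * ((p : ℕ) : ℝ) ^ (-1 + θ)) ^ 2 = L.C ^ 2 * ((p : ℕ) : ℝ) ^ (-(2 - 2 * θ)) := by
        intro p _
        have hp0 : (0 : ℝ) < ((p : ℕ) : ℝ) := by exact_mod_cast p.2.pos
        rw [mul_pow, sq (((p : ℕ) : ℝ) ^ (-1 + θ)), ← Real.rpow_add hp0]
        congr 2
        ring
      rw [Finset.sum_congr rfl e, ← Finset.mul_sum]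
      gcongr
      exact sum_tail P _ hP (Real.summable_nat_rpow.mpr (by linarith))
    have s2 : ∑ p ∈ pr y \ pr P, L.C * ((p : ℕ) : ℝ) ^ (-(3 / 2) + θ) ≤ L.C * tau (3 / 2 - θ) P := by
      rw [← Finset.mul_sum]
      gcongr
      have e : ∀ p ∈ pr y \ pr P, ((p : ℕ) : ℝ) ^ (-(3 / 2) + θ) = ((p : ℕ) : ℝ) ^ (-(3 / 2 - θ)) := by
        intro p _
        congr 1
        ring
      rw [Finset.sum_congr rfl e]
      exact sum_tail P _ hP (Real.summable_nat_rpow.mpr (by linarith))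
    have s20 : 0 ≤ ∑ p ∈ pr y \ pr P, L.C * ((p : ℕ) : ℝ) ^ (-(3 / 2) + θ) :=
      Finset.sum_nonneg fun p _ => by positivity
    have s3 : ∑ p ∈ pr y \ pr P, ((p : ℕ) : ℝ) * (L.C * ((p : ℕ) : ℝ) ^ (-1 + θ)) ≤ L.C * (y * (y : ℝ) ^ θ) := by
      have e : ∀ p ∈ pr y \ pr P, ((p : ℕ) : ℝ) * (L.C * ((p : ℕ) : ℝ) ^ (-1 + θ)) ≤ L.C * (y : ℝ) ^ θ := by
        intro p hp
        have hp0 : (0 : ℝ) < ((p : ℕ) : ℝ) := by exact_mod_cast p.2.pos
        have e1 : ((p : ℕ) : ℝ) * (L.C * ((p : ℕ) : ℝ) ^ (-1 + θ)) = L.C * ((p : ℕ) : ℝ) ^ θ := by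
          rw [Real.rpow_add hp0, Real.rpow_neg_one]
          field_simp
        rw [e1]
        have := hpy p hp
        gcongr
      refine (Finset.sum_le_sum e).trans ?_
      rw [Finset.sum_const, nsmul_eq_mul]
      have hc : ((pr y \ pr P).card : ℝ) ≤ y := by
        have h1 : (pr y \ pr P).card ≤ (pr y).card := Finset.card_le_card Finset.sdiff_subset
        have h2 : ((pr y).image fun p : Nat.Primes => (p : ℕ)) ⊆ Finset.Icc 1 y := by
          intro n hn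
          obtain ⟨p, hp, rfl⟩ := Finset.mem_image.mp hn
          rw [mem_pr] at hp
          exact Finset.mem_Icc.mpr ⟨p.2.one_lt.le, hp⟩
        have h3 := Finset.card_le_card h2
        have h4 := Finset.card_image_of_injective (pr y) (f := fun p : Nat.Primes => (p : ℕ))
          (fun a b h => Subtype.ext h)
        rw [h4, Nat.card_Icc] at h3
        have h5 : (pr y \ pr P).card ≤ y := by omega
        exact_mod_cast h5
      calc ((pr y \ pr P).card : ℝ) * (L.C * (y : ℝ) ^ θ) ≤ y * (L.C * (y : ℝ) ^ θ) := by gcongr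
        _ = _ := by ring
    have s30 : 0 ≤ ∑ p ∈ pr y \ pr P, ((p : ℕ) : ℝ) * (L.C * ((p : ℕ) : ℝ) ^ (-1 + θ)) :=
      Finset.sum_nonneg fun p _ => by positivity
    have s4 : (2 : ℝ) ^ Fintype.card ι / (2 * H + 1) *
        (∑ p ∈ pr y \ pr P, ((p : ℕ) : ℝ) * (L.C * ((p : ℕ) : ℝ) ^ (-1 + θ))) ^ 2 ≤
        L.C ^ 2 * (2 ^ Fintype.card ι / y) := by
      have h1 : (y : ℝ) ^ θ ≤ (y : ℝ) ^ (1 / 2 : ℝ) := Real.rpow_le_rpow_of_exponent_le hyr hθ.le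
      have h2 : ((y : ℝ) ^ (1 / 2 : ℝ)) ^ 2 = y := by
        rw [← Real.rpow_natCast, ← Real.rpow_mul hyp.le]
        norm_num
      have h3 : (L.C * (y * (y : ℝ) ^ θ)) ^ 2 ≤ L.C ^ 2 * (y : ℝ) ^ 3 := by
        have h4 : ((y : ℝ) ^ θ) ^ 2 ≤ (y : ℝ) := by
          calc ((y : ℝ) ^ θ) ^ 2 ≤ ((y : ℝ) ^ (1 / 2 : ℝ)) ^ 2 := by gcongr
            _ = (y : ℝ) := h2
        calc (L.C * (y * (y : ℝ) ^ θ)) ^ 2 = L.C ^ 2 * (y ^ 2 * ((y : ℝ) ^ θ) ^ 2) := by ring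
          _ ≤ L.C ^ 2 * (y ^ 2 * y) := by gcongr
          _ = _ := by ring
      calc _ ≤ (2 : ℝ) ^ Fintype.card ι / (y : ℝ) ^ 4 * (L.C ^ 2 * (y : ℝ) ^ 3) := by
            have h5 : (∑ p ∈ pr y \ pr P, ((p : ℕ) : ℝ) * (L.C * ((p : ℕ) : ℝ) ^ (-1 + θ))) ^ 2 ≤
                L.C ^ 2 * (y : ℝ) ^ 3 := (pow_le_pow_left₀ s30 s3 2).trans h3
            gcongr
            linarith
        _ = _ := by field_simp
    have s5 : (∑ p ∈ pr y \ pr P, L.C * ((p : ℕ) : ℝ) ^ (-(3 / 2) + θ)) ^ 2 ≤ L.C ^ 2 * tau (3 / 2 - θ) P ^ 2 := by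
      calc _ ≤ (L.C * tau (3 / 2 - θ) P) ^ 2 := pow_le_pow_left₀ s20 s2 2
        _ = _ := by ring
    rw [mul_pow, Real.sq_sqrt hpos.le]
    linarith

/-- Continuity at the edge, uniformly for the primes up to `P`. -/
lemma shift_small {K : Set ℂ} (hK : IsCompact K) (hK0 : ∀ s ∈ K, 0 ≤ s.re) (P : ℕ) {δ : ℝ} (hδ : 0 < δ) :
    ∃ η : ℝ, 0 < η ∧ ∀ ε : ℝ, 0 ≤ ε → ε < η → ∀ (r : Om ι), ∀ s ∈ K, ‖L.sm (pr P) r (ε + s) - L.sm (pr P) r s‖ ≤ δ := by
  have hK' : IsCompact ((fun x : ℝ × ℂ => ((x.1 : ℝ) : ℂ) + x.2) '' (Set.Icc (0 : ℝ) 1 ×ˢ K)) :=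
    (isCompact_Icc.prod hK).image (by fun_prop)
  have hsub : ((fun x : ℝ × ℂ => ((x.1 : ℝ) : ℂ) + x.2) '' (Set.Icc (0 : ℝ) 1 ×ˢ K)) ⊆ HP := by
    rintro z ⟨⟨t, w⟩, ⟨ht, hw⟩, rfl⟩
    have h1 := hK0 w hw
    have h2 := ht.1
    change -(1 / 2) < ((t : ℂ) + w).re
    simp only [Complex.add_re, Complex.ofReal_re]
    change 0 ≤ t at h2
    linarith
  set δ' : ℝ := δ / ((pr P).card + 1) with hδ'
  have hδ'0 : 0 < δ' := by positivity
  have key : ∀ᶠ ε : ℝ in 𝓝[≥] (0 : ℝ), ∀ p ∈ pr P, ∀ r : ι → ZMod p, ∀ s ∈ K,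
      ‖L.g p r ((ε : ℂ) + s) - L.g p r s‖ ≤ δ' := by
    rw [Filter.eventually_all_finset]
    intro p _
    rw [Filter.eventually_all]
    intro r
    have hu := hK'.uniformContinuousOn_of_continuous ((L.diff p r).continuousOn.mono hsub)
    rw [Metric.uniformContinuousOn_iff] at hu
    obtain ⟨η, hη, h⟩ := hu δ' hδ'0
    have : Set.Ico 0 (min 1 η) ∈ 𝓝[≥] (0 : ℝ) := Ico_mem_nhdsGE (by positivity)
    filter_upwards [this] with ε hε s hs
    have h1 : ε < 1 := lt_of_lt_of_le hε.2 (min_le_left _ _)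
    have h2 : ε < η := lt_of_lt_of_le hε.2 (min_le_right _ _)
    have h3 := h ((ε : ℂ) + s) ⟨(ε, s), ⟨⟨hε.1, h1.le⟩, hs⟩, rfl⟩ s ⟨(0, s), ⟨⟨le_rfl, zero_le_one⟩, hs⟩, by simp⟩
      (by rw [dist_eq_norm, add_sub_cancel_right, Complex.norm_real, Real.norm_of_nonneg hε.1]; exact h2)
    rw [dist_eq_norm] at h3
    exact h3.le
  obtain ⟨η, hη, h⟩ := (mem_nhdsGE_iff_exists_Ico_subset).mp key
  refine ⟨η, hη, fun ε h0 h1 r s hs => ?_⟩
  have h2 := h ⟨h0, h1⟩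
  unfold sm
  rw [← Finset.sum_sub_distrib]
  refine (norm_sum_le _ _).trans ?_
  refine (Finset.sum_le_sum fun p hp => h2 p hp (r p) s hs).trans ?_
  rw [Finset.sum_const, nsmul_eq_mul, hδ', mul_div_assoc', div_le_iff₀ (by positivity)]
  nlinarith

end Loc

end Run7.h113.FE
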