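import Pool.Agent.Run7.h113.FE.LogB
import Pool.Agent.Y722.LS.Gen

/-!
# The local functions of a linear system of hypersurfaces
-/

set_option autoImplicit false

namespace Run7.h113.FE

open Finset Filter Topology
open Pool.Agent.Y722.HS (EB EM red IsSmooth EM_mono)
open Pool.Agent.Y722.LS

variable {m : ℕ} {ι : Type} [Fintype ι] [DecidableEq ι]

/-- `α p r j`, `j < b`, are the eigenvalues of Frobenius on the middle cohomology `H^{2m}` of the hypersurface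
`∑ r i f i = 0` over `𝔽_p` (zeros added if necessary), if it is smooth; the other `α p r j` are any numbers of absolute
value at most `p^m`. -/
structure IsFrobeniusFamily (f : ι → MvPolynomial (Fin (2 * m + 2)) ℤ) (b : ℕ)
    (α : (p : Nat.Primes) → (ι → ZMod p) → Fin b → ℂ) : Prop where
  bound : ∀ (p : Nat.Primes) (r : ι → ZMod p) (j : Fin b), ‖α p r j‖ ≤ ((p : ℕ) : ℝ) ^ m
  count : ∀ (p : Nat.Primes) (r : ι → ZMod p),
    IsSmooth (MvPolynomial.map (algebraMap (ZMod p) (AlgebraicClosure (ZMod p))) (lform (n := 2 * m + 1) f r)) →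
      (lcone (n := 2 * m + 1) f r : ℂ) =
        (((p : ℕ) : ℂ) ^ (2 * m + 1) - 1) - (((p : ℕ) : ℂ) - 1) * ((p : ℕ) : ℂ) ^ m +
          (((p : ℕ) : ℂ) - 1) * ∑ j, α p r j

section
variable {f : ι → MvPolynomial (Fin (2 * m + 2)) ℤ} {p0 : ℕ} {CZ : ℝ}

lemma trace_near (P : MvPolynomial ι ℤ)
    (hP : ∀ (K : Type) [Field K] (c : ι → K), MvPolynomial.eval₂ (Int.castRingHom K) c P ≠ 0 →
      IsSmooth (lform (n := 2 * m + 1) f c))
    (hZ : ∀ p : ℕ, p.Prime → zc f p ≤ CZ * (p : ℝ) ^ m) {b : ℕ} {α : (p : Nat.Primes) → (ι → ZMod p) → Fin b → ℂ}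
    (h : IsFrobeniusFamily f b α) (p : Nat.Primes) (r : ι → ZMod p) :
    ‖(∑ j, α p r j) / ((p : ℕ) : ℂ) ^ (m + 1) - ((NN f p0 (p : ℕ) r + rho f (p : ℕ) : ℝ) : ℂ)‖ ≤
      bb (NN f p0) (BB P p0) (b + CZ + 1) (p : ℕ) r := by
  classical
  have hp := p.2
  have hp0 : (0 : ℝ) < ((p : ℕ) : ℝ) := by exact_mod_cast hp.pos
  have hp1 : (1 : ℝ) ≤ ((p : ℕ) : ℝ) := by exact_mod_cast hp.one_lt.le
  obtain ⟨hρ0, hρ1⟩ := rho_bd hZ (p : ℕ) hp
  by_cases hb : (p : ℕ) < p0 ∨ MvPolynomial.eval₂ (Int.castRingHom (ZMod p)) r P = 0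
  · have h1 : bb (NN f p0) (BB P p0) (b + CZ + 1) (p : ℕ) r =
        |NN f p0 (p : ℕ) r| + (b + CZ + 1) / ((p : ℕ) : ℝ) := by
      unfold bb BB; rw [if_pos hb, one_mul]
    rw [h1]
    have h2 : ‖(∑ j, α p r j) / ((p : ℕ) : ℂ) ^ (m + 1)‖ ≤ b / ((p : ℕ) : ℝ) := by
      rw [norm_div, norm_pow, Complex.norm_natCast]
      have h3 : ‖∑ j, α p r j‖ ≤ b * ((p : ℕ) : ℝ) ^ m := by
        refine (norm_sum_le _ _).trans ?_
        refine (Finset.sum_le_sum fun j _ => h.bound p r j).trans ?_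
        rw [Finset.sum_const, nsmul_eq_mul, Finset.card_univ, Fintype.card_fin]
      calc _ ≤ b * ((p : ℕ) : ℝ) ^ m / ((p : ℕ) : ℝ) ^ (m + 1) := by gcongr
        _ = _ := by rw [pow_succ]; field_simp
    have h3 : ‖((NN f p0 (p : ℕ) r + rho f (p : ℕ) : ℝ) : ℂ)‖ ≤ |NN f p0 (p : ℕ) r| + (CZ + 1) / ((p : ℕ) : ℝ) := by
      rw [Complex.norm_real, Real.norm_eq_abs]
      refine (abs_add_le _ _).trans ?_
      rw [abs_of_nonneg hρ0]
      linarith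
    have h7 : ((b : ℝ) + CZ + 1) / ((p : ℕ) : ℝ) = b / ((p : ℕ) : ℝ) + (CZ + 1) / ((p : ℕ) : ℝ) := by ring
    rw [h7]
    refine (norm_sub_le _ _).trans ?_
    linarith
  · have h1 : bb (NN f p0) (BB P p0) (b + CZ + 1) (p : ℕ) r = 0 := by
      unfold bb BB; rw [if_neg hb, zero_mul]
    push Not at hb
    obtain ⟨hb1, hb2⟩ := hb
    have hsm : IsSmooth (MvPolynomial.map (algebraMap (ZMod p) (AlgebraicClosure (ZMod p)))
        (lform (n := 2 * m + 1) f r)) := by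
      rw [map_lform]
      apply hP
      have h2 : MvPolynomial.eval₂ (Int.castRingHom (AlgebraicClosure (ZMod p)))
          (fun i => algebraMap (ZMod p) (AlgebraicClosure (ZMod p)) (r i)) P =
          algebraMap (ZMod p) (AlgebraicClosure (ZMod p))
            (MvPolynomial.eval₂ (Int.castRingHom (ZMod p)) r P) := by
        rw [MvPolynomial.eval₂_comp_left, RingHom.ext_int
          ((algebraMap (ZMod p) (AlgebraicClosure (ZMod p))).comp (Int.castRingHom (ZMod p)))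
          (Int.castRingHom (AlgebraicClosure (ZMod p)))]
        rfl
      rw [h2]
      intro h3
      exact hb2 ((map_eq_zero _).mp h3)
    have h2 := h.count p r hsm
    have hp1' : ((p : ℕ) : ℝ) - 1 ≠ 0 := by
      have : (1 : ℝ) < ((p : ℕ) : ℝ) := by exact_mod_cast hp.one_lt
      linarith
    have hp1c : (((p : ℕ) : ℂ) - 1) ≠ 0 := by exact_mod_cast hp1'
    have h3 : ∑ j, α p r j =
        ((la (n := 2 * m + 1) f (p : ℕ) r + zc f (p : ℕ) + ((p : ℕ) : ℝ) ^ m : ℝ) : ℂ) := by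
      have h4 : la (n := 2 * m + 1) f (p : ℕ) r + zc f (p : ℕ) + ((p : ℕ) : ℝ) ^ m =
          ((lcone (n := 2 * m + 1) f r : ℝ) - (((p : ℕ) : ℝ) ^ (2 * m + 1) - 1)) / (((p : ℕ) : ℝ) - 1) +
            ((p : ℕ) : ℝ) ^ m := by
        unfold la zc dcone
        field_simp
        ring
      rw [h4]
      push_cast
      rw [h2]
      field_simp
      ring
    rw [h1, h3, NN, if_neg (by omega), rho]
    apply le_of_eq
    rw [norm_eq_zero]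
    have hpc : ((p : ℕ) : ℂ) ≠ 0 := by exact_mod_cast hp.ne_zero
    push_cast
    field_simp
    ring

end

/-- The mean value of the normalised trace. -/
lemma trace_mean {d : ℕ} (hd : 1 ≤ d) (f : ι → MvPolynomial (Fin (2 * m + 2)) ℤ)
    (hf : ∀ i, (f i).IsHomogeneous d) (c0 : ι → ℤ)
    (hs : IsSmooth (lform (n := 2 * m + 1) f (fun i => (c0 i : ℂ)))) (p0 : ℕ)
    (hsep : ∀ p : ℕ, p.Prime → p0 ≤ p → Separates (n := 2 * m + 1) f p) (e C0 : ℝ)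
    (hZ : ∀ p : ℕ, p.Prime → p0 ≤ p → |zc f p - e * (p : ℝ) ^ m| ≤ C0 * (p : ℝ) ^ ((m : ℝ) - 1 / 2))
    {b : ℕ} {α : (p : Nat.Primes) → (ι → ZMod p) → Fin b → ℂ} (h : IsFrobeniusFamily f b α) :
    ∃ C : ℝ, 0 ≤ C ∧ ∀ p : Nat.Primes, ‖EC p (fun r => (∑ j, α p r j) / ((p : ℕ) : ℂ) ^ (m + 1)) -
      (1 + (e : ℂ)) / ((p : ℕ) : ℂ)‖ ≤ C * ((p : ℕ) : ℝ) ^ (-(3 / 2) : ℝ) := by
  obtain ⟨C1, hC1, hZ1⟩ := count_all f p0 e C0 hZ
  have hzc : ∀ p : ℕ, p.Prime → zc f p ≤ (|e| + C1) * (p : ℝ) ^ m := by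
    intro p hp
    have h1 := hZ1 p hp
    have h2 := half_pow (m := m) hp
    have h3 : (0 : ℝ) ≤ (p : ℝ) ^ m := by positivity
    have h4 := (abs_le.mp h1).2
    have h5 : e * (p : ℝ) ^ m ≤ |e| * (p : ℝ) ^ m := by
      gcongr
      exact le_abs_self e
    have h6 : C1 * (p : ℝ) ^ ((m : ℝ) - 1 / 2) ≤ C1 * (p : ℝ) ^ m := by gcongr
    linarith
  obtain ⟨P, hP0, hP⟩ := exists_disc (n := 2 * m + 1) f hd hf c0 hs
  have hCZ : 0 ≤ |e| + C1 := by positivity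
  have hfam := fam (f := f) (p0 := p0) P c0 hP0 hCZ hsep hzc
  set A : ℝ := 4 + (1 + (|e| + C1)) ^ 2 + p0 + P.totalDegree + |(MvPolynomial.eval c0 P : ℝ)| with hA
  have hA1 := hfam.A0
  set β : ℝ := b + (|e| + C1) + 1 with hβ
  have hβ0 : 0 ≤ β := by positivity
  refine ⟨A + (2 + β) * A + C1, by positivity, fun p => ?_⟩
  have hp0 : (0 : ℝ) < ((p : ℕ) : ℝ) := by exact_mod_cast p.2.pos
  have hp1 : (1 : ℝ) ≤ ((p : ℕ) : ℝ) := by exact_mod_cast p.2.one_lt.le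
  have hM0 : (0 : ℝ) < ((p : ℕ) : ℝ) ^ Fintype.card ι := by positivity
  have hMc : (((p : ℕ) : ℂ) ^ Fintype.card ι) ≠ 0 := pow_ne_zero _ (by exact_mod_cast p.2.ne_zero)
  have h1 := fun r => trace_near (p0 := p0) P hP hzc h p r
  set T : (ι → ZMod p) → ℂ := fun r => (∑ j, α p r j) / ((p : ℕ) : ℂ) ^ (m + 1) with hT
  have e1 : EC p T - (1 + (e : ℂ)) / ((p : ℕ) : ℂ) =
      EC p (fun r => T r - ((NN f p0 (p : ℕ) r + rho f (p : ℕ) : ℝ) : ℂ)) +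
        ((EM (p : ℕ) (fun r : ι → ZMod p => NN f p0 (p : ℕ) r) : ℝ) : ℂ) +
          ((rho f (p : ℕ) - (1 + e) / ((p : ℕ) : ℝ) : ℝ) : ℂ) := by
    unfold EC EM
    rw [Finset.sum_sub_distrib]
    push_cast
    rw [Finset.sum_add_distrib, Finset.sum_const, Finset.card_univ, card_vec, nsmul_eq_mul]
    push_cast
    field_simp
    ring
  rw [e1]
  have t1 : ‖EC p (fun r => T r - ((NN f p0 (p : ℕ) r + rho f (p : ℕ) : ℝ) : ℂ))‖ ≤
      (2 + β) * A * ((p : ℕ) : ℝ) ^ (-(3 / 2) : ℝ) := by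
    have h2 := hfam.EM_bb hβ0 (p : ℕ)
    rw [Real.rpow_neg hp0.le, ← one_div]
    refine le_trans ?_ h2
    unfold EC EM
    rw [norm_div, norm_pow, Complex.norm_natCast]
    gcongr
    exact (norm_sum_le _ _).trans (Finset.sum_le_sum fun r _ => h1 r)
  have t2 : ‖((EM (p : ℕ) (fun r : ι → ZMod p => NN f p0 (p : ℕ) r) : ℝ) : ℂ)‖ ≤ A * ((p : ℕ) : ℝ) ^ (-(3 / 2) : ℝ) := by
    rw [Complex.norm_real, Real.norm_eq_abs]
    refine (hfam.mean (p : ℕ)).trans ?_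
    rw [div_eq_mul_inv, ← Real.rpow_natCast, ← Real.rpow_neg hp0.le]
    gcongr
    norm_num
  have t3 : ‖((rho f (p : ℕ) - (1 + e) / ((p : ℕ) : ℝ) : ℝ) : ℂ)‖ ≤ C1 * ((p : ℕ) : ℝ) ^ (-(3 / 2) : ℝ) := by
    rw [Complex.norm_real, Real.norm_eq_abs]
    have e2 : rho f (p : ℕ) - (1 + e) / ((p : ℕ) : ℝ) = (zc f (p : ℕ) - e * ((p : ℕ) : ℝ) ^ m) / ((p : ℕ) : ℝ) ^ (m + 1) := by
      rw [rho, pow_succ]
      field_simp
      ring
    rw [e2, abs_div, abs_of_pos (by positivity : (0 : ℝ) < ((p : ℕ) : ℝ) ^ (m + 1)), div_le_iff₀ (by positivity)]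
    refine (hZ1 (p : ℕ) p.2).trans (le_of_eq ?_)
    rw [mul_assoc, ← Real.rpow_natCast, ← Real.rpow_add hp0]
    congr 2
    push_cast
    ring
  refine (norm_add_le _ _).trans ((add_le_add (norm_add_le _ _) le_rfl).trans ?_)
  calc _ ≤ (2 + β) * A * ((p : ℕ) : ℝ) ^ (-(3 / 2) : ℝ) + A * ((p : ℕ) : ℝ) ^ (-(3 / 2) : ℝ) +
        C1 * ((p : ℕ) : ℝ) ^ (-(3 / 2) : ℝ) := add_le_add (add_le_add t1 t2) t3
    _ = _ := by ring

/-- The local functions: the logarithm of the Euler factor at `m + 1 + s`, minus `(1 + e)` times the one of `ζ` at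
`1 + s`. -/
noncomputable def glin {b : ℕ} (α : (p : Nat.Primes) → (ι → ZMod p) → Fin b → ℂ) (m : ℕ) (e : ℝ) (p : Nat.Primes)
    (r : ι → ZMod p) (s : ℂ) : ℂ :=
  (∑ j, -Complex.log (1 - α p r j * ((p : ℕ) : ℂ) ^ (-((m : ℂ) + 1 + s)))) -
    (1 + (e : ℂ)) * -Complex.log (1 - ((p : ℕ) : ℂ) ^ (-(1 + s)))

lemma zeta_term {p : ℕ} (hp : p.Prime) (s : ℂ) : ‖(p : ℂ) ^ (-(1 + s))‖ ≤ (p : ℝ) ^ (-1 - s.re) := by
  have h := norm_term hp (m := 0) (a := 1) (by simp) s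
  simpa using h

lemma zeta_diff {p : ℕ} (hp : p.Prime) : DifferentiableOn ℂ (fun s : ℂ => Complex.log (1 - (p : ℂ) ^ (-(1 + s)))) HP := by
  have h := diff_term hp (m := 0) (a := 1) (by simp)
  simpa using h

lemma EC_split (p : Nat.Primes) (G T : (ι → ZMod p) → ℂ) (k : ℂ) :
    EC p G = EC p (fun r => G r - (T r - k)) + (EC p T - k) := by
  have hMc : (((p : ℕ) : ℂ) ^ Fintype.card ι) ≠ 0 := pow_ne_zero _ (by exact_mod_cast p.2.ne_zero)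
  unfold EC
  rw [Finset.sum_sub_distrib, Finset.sum_sub_distrib, Finset.sum_const, Finset.card_univ, card_vec, nsmul_eq_mul]
  push_cast
  field_simp
  ring

lemma glin_mean_aux (e : ℝ) {b : ℕ} {α : (p : Nat.Primes) → (ι → ZMod p) → Fin b → ℂ} (p : Nat.Primes) (s : ℂ) :
    EC p (fun r => (∑ j, α p r j) * ((p : ℕ) : ℂ) ^ (-((m : ℂ) + 1 + s))) - (1 + (e : ℂ)) * ((p : ℕ) : ℂ) ^ (-(1 + s)) =
      ((p : ℕ) : ℂ) ^ (-s) * (EC p (fun r => (∑ j, α p r j) / ((p : ℕ) : ℂ) ^ (m + 1)) - (1 + (e : ℂ)) / ((p : ℕ) : ℂ)) := by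
  have hpc : ((p : ℕ) : ℂ) ≠ 0 := by exact_mod_cast p.2.ne_zero
  have e1 : ((p : ℕ) : ℂ) ^ (-((m : ℂ) + 1 + s)) = ((p : ℕ) : ℂ) ^ (-s) / ((p : ℕ) : ℂ) ^ (m + 1) := by
    rw [show (-((m : ℂ) + 1 + s)) = -s + -((m + 1 : ℕ) : ℂ) by push_cast; ring, Complex.cpow_add _ _ hpc,
      Complex.cpow_neg _ ((m + 1 : ℕ) : ℂ), Complex.cpow_natCast, div_eq_mul_inv]
  have e2 : ((p : ℕ) : ℂ) ^ (-(1 + s)) = ((p : ℕ) : ℂ) ^ (-s) / ((p : ℕ) : ℂ) := by
    rw [show (-(1 + s)) = -s + -1 by ring, Complex.cpow_add _ _ hpc, Complex.cpow_neg_one, div_eq_mul_inv]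
  rw [e1, e2]
  have e3 : EC p (fun r => (∑ j, α p r j) * (((p : ℕ) : ℂ) ^ (-s) / ((p : ℕ) : ℂ) ^ (m + 1))) =
      ((p : ℕ) : ℂ) ^ (-s) * EC p (fun r => (∑ j, α p r j) / ((p : ℕ) : ℂ) ^ (m + 1)) := by
    unfold EC
    rw [mul_div_assoc', Finset.mul_sum]
    congr 1
    refine Finset.sum_congr rfl fun r _ => ?_
    ring
  rw [e3]
  ring

/-- The local functions of a linear system. -/
noncomputable def linLoc {d : ℕ} (hd : 1 ≤ d) (f : ι → MvPolynomial (Fin (2 * m + 2)) ℤ)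
    (hf : ∀ i, (f i).IsHomogeneous d) (c0 : ι → ℤ)
    (hs : IsSmooth (lform (n := 2 * m + 1) f (fun i => (c0 i : ℂ)))) (p0 : ℕ)
    (hsep : ∀ p : ℕ, p.Prime → p0 ≤ p → Separates (n := 2 * m + 1) f p) (e C0 : ℝ)
    (hZ : ∀ p : ℕ, p.Prime → p0 ≤ p → |zc f p - e * (p : ℝ) ^ m| ≤ C0 * (p : ℝ) ^ ((m : ℝ) - 1 / 2))
    {b : ℕ} {α : (p : Nat.Primes) → (ι → ZMod p) → Fin b → ℂ} (h : IsFrobeniusFamily f b α) :
    Loc ι (b + 1 + |e|) where
  g := glin α m e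
  C := 5 * (b + 1 + |e|) + (trace_mean hd f hf c0 hs p0 hsep e C0 hZ h).choose
  C0 := by
    have := (trace_mean hd f hf c0 hs p0 hsep e C0 hZ h).choose_spec.1
    positivity
  diff := fun p r => by
    unfold glin
    refine DifferentiableOn.sub (DifferentiableOn.fun_sum fun j _ => (diff_term p.2 (h.bound p r j)).fun_neg) ?_
    exact (zeta_diff p.2).fun_neg.const_mul _
  bound := fun p r s hsH => by
    have hC := (trace_mean hd f hf c0 hs p0 hsep e C0 hZ h).choose_spec.1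
    set C := (trace_mean hd f hf c0 hs p0 hsep e C0 hZ h).choose
    have hx0 : (0 : ℝ) < ((p : ℕ) : ℝ) ^ (-1 - s.re) := by
      have : (0 : ℝ) < ((p : ℕ) : ℝ) := by exact_mod_cast p.2.pos
      positivity
    have hsm := rpow_small p.2 hsH
    have h1 : ∀ j, ‖-Complex.log (1 - α p r j * ((p : ℕ) : ℂ) ^ (-((m : ℂ) + 1 + s)))‖ ≤
        3 * ((p : ℕ) : ℝ) ^ (-1 - s.re) := by
      intro j
      have h2 := norm_term p.2 (h.bound p r j) s
      rw [norm_neg]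
      refine (log1 (h2.trans hsm)).2.trans ?_
      linarith
    have h2 : ‖-Complex.log (1 - ((p : ℕ) : ℂ) ^ (-(1 + s)))‖ ≤ 3 * ((p : ℕ) : ℝ) ^ (-1 - s.re) := by
      have h3 := zeta_term p.2 s
      rw [norm_neg]
      refine (log1 (h3.trans hsm)).2.trans ?_
      linarith
    have h3 : ‖(1 + (e : ℂ))‖ ≤ 1 + |e| := by
      refine (norm_add_le _ _).trans ?_
      rw [norm_one, Complex.norm_real, Real.norm_eq_abs]
    unfold glin
    refine (norm_sub_le _ _).trans ?_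
    have h4 : ‖∑ j, -Complex.log (1 - α p r j * ((p : ℕ) : ℂ) ^ (-((m : ℂ) + 1 + s)))‖ ≤
        b * (3 * ((p : ℕ) : ℝ) ^ (-1 - s.re)) := by
      refine (norm_sum_le _ _).trans ((Finset.sum_le_sum fun j _ => h1 j).trans ?_)
      rw [Finset.sum_const, nsmul_eq_mul, Finset.card_univ, Fintype.card_fin]
    have h5 : ‖(1 + (e : ℂ)) * -Complex.log (1 - ((p : ℕ) : ℂ) ^ (-(1 + s)))‖ ≤
        (1 + |e|) * (3 * ((p : ℕ) : ℝ) ^ (-1 - s.re)) := by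
      rw [norm_mul]
      gcongr
    have he := abs_nonneg e
    have hb : (0 : ℝ) ≤ b := Nat.cast_nonneg b
    calc _ ≤ b * (3 * ((p : ℕ) : ℝ) ^ (-1 - s.re)) + (1 + |e|) * (3 * ((p : ℕ) : ℝ) ^ (-1 - s.re)) := add_le_add h4 h5
      _ = (3 * (b + 1 + |e|)) * ((p : ℕ) : ℝ) ^ (-1 - s.re) := by ring
      _ ≤ _ := by
          gcongr
          nlinarith
  mean := fun p s hsH => by
    have hC := (trace_mean hd f hf c0 hs p0 hsep e C0 hZ h).choose_spec.1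
    have hm := (trace_mean hd f hf c0 hs p0 hsep e C0 hZ h).choose_spec.2 p
    set C := (trace_mean hd f hf c0 hs p0 hsep e C0 hZ h).choose
    have hsr : -(1 / 2) < s.re := hsH
    have hp0 : (0 : ℝ) < ((p : ℕ) : ℝ) := by exact_mod_cast p.2.pos
    have hp1 : (1 : ℝ) ≤ ((p : ℕ) : ℝ) := by exact_mod_cast p.2.one_lt.le
    have hx0 : (0 : ℝ) < ((p : ℕ) : ℝ) ^ (-1 - s.re) := by positivity
    have hsm := rpow_small p.2 hsH
    have he := abs_nonneg e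
    have hb : (0 : ℝ) ≤ b := Nat.cast_nonneg b
    have hMc : (((p : ℕ) : ℂ) ^ Fintype.card ι) ≠ 0 := pow_ne_zero _ (by exact_mod_cast p.2.ne_zero)
    -- the quadratic error
    have hq : (((p : ℕ) : ℝ) ^ (-1 - s.re)) ^ 2 ≤ ((p : ℕ) : ℝ) ^ (-(3 / 2) - s.re) := by
      rw [← Real.rpow_natCast, ← Real.rpow_mul hp0.le]
      apply Real.rpow_le_rpow_of_exponent_le hp1
      push_cast
      linarith
    have h1 : ∀ r : ι → ZMod p, ‖glin α m e p r s - ((∑ j, α p r j) * ((p : ℕ) : ℂ) ^ (-((m : ℂ) + 1 + s)) -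
        (1 + (e : ℂ)) * ((p : ℕ) : ℂ) ^ (-(1 + s)))‖ ≤ 2 * (b + 1 + |e|) * ((p : ℕ) : ℝ) ^ (-(3 / 2) - s.re) := by
      intro r
      have e1 : glin α m e p r s - ((∑ j, α p r j) * ((p : ℕ) : ℂ) ^ (-((m : ℂ) + 1 + s)) -
          (1 + (e : ℂ)) * ((p : ℕ) : ℂ) ^ (-(1 + s))) =
          (∑ j, -(Complex.log (1 - α p r j * ((p : ℕ) : ℂ) ^ (-((m : ℂ) + 1 + s))) +
            α p r j * ((p : ℕ) : ℂ) ^ (-((m : ℂ) + 1 + s)))) +
          (1 + (e : ℂ)) * (Complex.log (1 - ((p : ℕ) : ℂ) ^ (-(1 + s))) + ((p : ℕ) : ℂ) ^ (-(1 + s))) := by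
        unfold glin
        simp only [neg_add, Finset.sum_add_distrib, Finset.sum_neg_distrib, ← Finset.sum_mul]
        ring
      rw [e1]
      have h2 : ∀ j, ‖-(Complex.log (1 - α p r j * ((p : ℕ) : ℂ) ^ (-((m : ℂ) + 1 + s))) +
            α p r j * ((p : ℕ) : ℂ) ^ (-((m : ℂ) + 1 + s)))‖ ≤ 2 * ((p : ℕ) : ℝ) ^ (-(3 / 2) - s.re) := by
        intro j
        have h3 := norm_term p.2 (h.bound p r j) s
        rw [norm_neg]
        refine (log1 (h3.trans hsm)).1.trans ?_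
        have h4 : ‖α p r j * ((p : ℕ) : ℂ) ^ (-((m : ℂ) + 1 + s))‖ ^ 2 ≤ (((p : ℕ) : ℝ) ^ (-1 - s.re)) ^ 2 := by
          gcongr
        linarith
      have h3 : ‖Complex.log (1 - ((p : ℕ) : ℂ) ^ (-(1 + s))) + ((p : ℕ) : ℂ) ^ (-(1 + s))‖ ≤
          2 * ((p : ℕ) : ℝ) ^ (-(3 / 2) - s.re) := by
        have h3 := zeta_term p.2 s
        refine (log1 (h3.trans hsm)).1.trans ?_
        have h4 : ‖((p : ℕ) : ℂ) ^ (-(1 + s))‖ ^ 2 ≤ (((p : ℕ) : ℝ) ^ (-1 - s.re)) ^ 2 := by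
          gcongr
        linarith
      have h4 : ‖(1 + (e : ℂ))‖ ≤ 1 + |e| := by
        refine (norm_add_le _ _).trans ?_
        rw [norm_one, Complex.norm_real, Real.norm_eq_abs]
      have h5 : ‖∑ j, -(Complex.log (1 - α p r j * ((p : ℕ) : ℂ) ^ (-((m : ℂ) + 1 + s))) +
            α p r j * ((p : ℕ) : ℂ) ^ (-((m : ℂ) + 1 + s)))‖ ≤ b * (2 * ((p : ℕ) : ℝ) ^ (-(3 / 2) - s.re)) := by
        refine (norm_sum_le _ _).trans ((Finset.sum_le_sum fun j _ => h2 j).trans ?_)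
        rw [Finset.sum_const, nsmul_eq_mul, Finset.card_univ, Fintype.card_fin]
      have h6 : ‖(1 + (e : ℂ)) * (Complex.log (1 - ((p : ℕ) : ℂ) ^ (-(1 + s))) + ((p : ℕ) : ℂ) ^ (-(1 + s)))‖ ≤
          (1 + |e|) * (2 * ((p : ℕ) : ℝ) ^ (-(3 / 2) - s.re)) := by
        rw [norm_mul]
        gcongr
      refine (norm_add_le _ _).trans ((add_le_add h5 h6).trans (le_of_eq ?_))
      ring
    have e2 : EC p (fun r => glin α m e p r s) =
        EC p (fun r => glin α m e p r s - ((∑ j, α p r j) * ((p : ℕ) : ℂ) ^ (-((m : ℂ) + 1 + s)) -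
          (1 + (e : ℂ)) * ((p : ℕ) : ℂ) ^ (-(1 + s)))) +
        (EC p (fun r => (∑ j, α p r j) * ((p : ℕ) : ℂ) ^ (-((m : ℂ) + 1 + s))) -
          (1 + (e : ℂ)) * ((p : ℕ) : ℂ) ^ (-(1 + s))) := EC_split p _ _ _
    rw [e2, glin_mean_aux]
    have t1 : ‖EC p (fun r => glin α m e p r s - ((∑ j, α p r j) * ((p : ℕ) : ℂ) ^ (-((m : ℂ) + 1 + s)) -
          (1 + (e : ℂ)) * ((p : ℕ) : ℂ) ^ (-(1 + s))))‖ ≤ 2 * (b + 1 + |e|) * ((p : ℕ) : ℝ) ^ (-(3 / 2) - s.re) := by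
      unfold EC
      rw [norm_div, norm_pow, Complex.norm_natCast, div_le_iff₀ (by positivity)]
      refine (norm_sum_le _ _).trans ((Finset.sum_le_sum fun r _ => h1 r).trans ?_)
      rw [Finset.sum_const, nsmul_eq_mul, Finset.card_univ, card_vec]
      push_cast
      rw [mul_comm]
    have t2 : ‖((p : ℕ) : ℂ) ^ (-s) * (EC p (fun r => (∑ j, α p r j) / ((p : ℕ) : ℂ) ^ (m + 1)) -
        (1 + (e : ℂ)) / ((p : ℕ) : ℂ))‖ ≤ C * ((p : ℕ) : ℝ) ^ (-(3 / 2) - s.re) := by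
      rw [norm_mul, norm_cpow_p p.2]
      calc ((p : ℕ) : ℝ) ^ (-s.re) * _ ≤ ((p : ℕ) : ℝ) ^ (-s.re) * (C * ((p : ℕ) : ℝ) ^ (-(3 / 2) : ℝ)) := by gcongr
        _ = C * (((p : ℕ) : ℝ) ^ (-(3 / 2) : ℝ) * ((p : ℕ) : ℝ) ^ (-s.re)) := by ring
        _ = _ := by
            rw [← Real.rpow_add hp0]
            congr 2
    refine (norm_add_le _ _).trans ((add_le_add t1 t2).trans ?_)
    have hy : 0 < ((p : ℕ) : ℝ) ^ (-(3 / 2) - s.re) := by positivity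
    nlinarith
  edge := fun p r s hs0 => by
    have hC := (trace_mean hd f hf c0 hs p0 hsep e C0 hZ h).choose_spec.1
    set C := (trace_mean hd f hf c0 hs p0 hsep e C0 hZ h).choose
    have hsH : s ∈ HP := by
      change -(1 / 2) < s.re
      linarith
    have hp0 : (0 : ℝ) < ((p : ℕ) : ℝ) := by exact_mod_cast p.2.pos
    have hp1 : (1 : ℝ) ≤ ((p : ℕ) : ℝ) := by exact_mod_cast p.2.one_lt.le
    have hx0 : (0 : ℝ) < ((p : ℕ) : ℝ) ^ (-1 - s.re) := by positivity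
    have hsm := rpow_small p.2 hsH
    have hx1 : ((p : ℕ) : ℝ) ^ (-1 - s.re) ≤ 1 / ((p : ℕ) : ℝ) := by
      rw [one_div, ← Real.rpow_neg_one]
      exact Real.rpow_le_rpow_of_exponent_le hp1 (by linarith)
    have hx2 : (((p : ℕ) : ℝ) ^ (-1 - s.re)) ^ 2 ≤ ((p : ℕ) : ℝ) ^ (-(3 / 2) : ℝ) := by
      rw [← Real.rpow_natCast, ← Real.rpow_mul hp0.le]
      apply Real.rpow_le_rpow_of_exponent_le hp1
      push_cast
      linarith
    have hgen : ∀ z : ℂ, ‖z‖ ≤ ((p : ℕ) : ℝ) ^ (-1 - s.re) →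
        ‖-Complex.log (1 - z)‖ ≤ 1 / ((p : ℕ) : ℝ) + 2 * ((p : ℕ) : ℝ) ^ (-(3 / 2) : ℝ) := by
      intro z hz
      rw [norm_neg]
      have h1 := (log1 (hz.trans hsm)).1
      have h2 : ‖Complex.log (1 - z)‖ ≤ ‖Complex.log (1 - z) + z‖ + ‖z‖ := by
        have := norm_sub_le (Complex.log (1 - z) + z) z
        rwa [add_sub_cancel_right] at this
      have h3 : ‖z‖ ^ 2 ≤ (((p : ℕ) : ℝ) ^ (-1 - s.re)) ^ 2 := by gcongr
      linarith
    have he := abs_nonneg e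
    have hb : (0 : ℝ) ≤ b := Nat.cast_nonneg b
    have h3 : ‖(1 + (e : ℂ))‖ ≤ 1 + |e| := by
      refine (norm_add_le _ _).trans ?_
      rw [norm_one, Complex.norm_real, Real.norm_eq_abs]
    unfold glin
    refine (norm_sub_le _ _).trans ?_
    have h4 : ‖∑ j, -Complex.log (1 - α p r j * ((p : ℕ) : ℂ) ^ (-((m : ℂ) + 1 + s)))‖ ≤
        b * (1 / ((p : ℕ) : ℝ) + 2 * ((p : ℕ) : ℝ) ^ (-(3 / 2) : ℝ)) := by
      refine (norm_sum_le _ _).trans ((Finset.sum_le_sum fun j _ => hgen _ (norm_term p.2 (h.bound p r j) s)).trans ?_)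
      rw [Finset.sum_const, nsmul_eq_mul, Finset.card_univ, Fintype.card_fin]
    have h5 : ‖(1 + (e : ℂ)) * -Complex.log (1 - ((p : ℕ) : ℂ) ^ (-(1 + s)))‖ ≤
        (1 + |e|) * (1 / ((p : ℕ) : ℝ) + 2 * ((p : ℕ) : ℝ) ^ (-(3 / 2) : ℝ)) := by
      rw [norm_mul]
      have := hgen _ (zeta_term p.2 s)
      gcongr
    have hy : 0 < ((p : ℕ) : ℝ) ^ (-(3 / 2) : ℝ) := by positivity
    calc _ ≤ b * (1 / ((p : ℕ) : ℝ) + 2 * ((p : ℕ) : ℝ) ^ (-(3 / 2) : ℝ)) +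
          (1 + |e|) * (1 / ((p : ℕ) : ℝ) + 2 * ((p : ℕ) : ℝ) ^ (-(3 / 2) : ℝ)) := add_le_add h4 h5
      _ = (b + 1 + |e|) / ((p : ℕ) : ℝ) + 2 * (b + 1 + |e|) * ((p : ℕ) : ℝ) ^ (-(3 / 2) : ℝ) := by ring
      _ ≤ _ := by
          gcongr
          nlinarith

end Run7.h113.FE
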