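import Pool.Agent.Run7.h113.FE.Sup

/-!
# The logarithms of the Euler factors
-/

set_option autoImplicit false

namespace Run7.h113.FE

open Finset Filter Topology

lemma log1 {z : ℂ} (hz : ‖z‖ ≤ 0.7072) : ‖Complex.log (1 - z) + z‖ ≤ 2 * ‖z‖ ^ 2 ∧ ‖Complex.log (1 - z)‖ ≤ 3 * ‖z‖ := by
  have h0 := norm_nonneg z
  have hz1 : ‖-z‖ < 1 := by rw [norm_neg]; linarith
  have h1 := Complex.norm_log_one_add_sub_self_le (z := -z) hz1
  rw [norm_neg] at h1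
  have e1 : Complex.log (1 + -z) - -z = Complex.log (1 - z) + z := by rw [← sub_eq_add_neg]; ring
  rw [e1] at h1
  have h2 : (1 - ‖z‖)⁻¹ ≤ 4 := by
    rw [inv_le_comm₀ (by linarith) (by norm_num)]
    linarith
  have h3 : ‖Complex.log (1 - z) + z‖ ≤ 2 * ‖z‖ ^ 2 := by
    calc _ ≤ ‖z‖ ^ 2 * (1 - ‖z‖)⁻¹ / 2 := h1
      _ ≤ ‖z‖ ^ 2 * 4 / 2 := by gcongr
      _ = _ := by ring
  refine ⟨h3, ?_⟩
  have h4 : ‖Complex.log (1 - z)‖ ≤ ‖Complex.log (1 - z) + z‖ + ‖z‖ := by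
    have := norm_sub_le (Complex.log (1 - z) + z) z
    rwa [add_sub_cancel_right] at this
  nlinarith

lemma rpow_small {p : ℕ} (hp : p.Prime) {σ : ℝ} (hσ : -(1 / 2) < σ) : (p : ℝ) ^ (-1 - σ) ≤ 0.7072 := by
  have hp2 : (2 : ℝ) ≤ p := by exact_mod_cast hp.two_le
  have hp0 : (0 : ℝ) < p := by linarith
  have h1 : (p : ℝ) ^ (-1 - σ) ≤ (p : ℝ) ^ (-(1 / 2) : ℝ) :=
    Real.rpow_le_rpow_of_exponent_le (by linarith) (by linarith)
  have h2 : (p : ℝ) ^ (-(1 / 2) : ℝ) ≤ (2 : ℝ) ^ (-(1 / 2) : ℝ) :=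
    Real.rpow_le_rpow_of_nonpos (by norm_num) hp2 (by norm_num)
  have h3 : (2 : ℝ) ^ (-(1 / 2) : ℝ) ≤ 0.7072 := by
    rw [Real.rpow_neg (by norm_num), ← Real.sqrt_eq_rpow, inv_le_comm₀ (by positivity) (by norm_num)]
    apply Real.le_sqrt_of_sq_le
    norm_num
  linarith

lemma norm_cpow_p {p : ℕ} (hp : p.Prime) (s : ℂ) : ‖(p : ℂ) ^ (-s)‖ = (p : ℝ) ^ (-s.re) := by
  have hp0 : (0 : ℝ) < p := by exact_mod_cast hp.pos
  have : ((p : ℝ) : ℂ) = (p : ℂ) := by push_cast; rfl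
  rw [← this, Complex.norm_cpow_eq_rpow_re_of_pos hp0, Complex.neg_re]

/-- A term of size at most `p^(-1-σ)`. -/
lemma norm_term {p : ℕ} (hp : p.Prime) {m : ℕ} {a : ℂ} (ha : ‖a‖ ≤ (p : ℝ) ^ m) (s : ℂ) :
    ‖a * (p : ℂ) ^ (-((m : ℂ) + 1 + s))‖ ≤ (p : ℝ) ^ (-1 - s.re) := by
  have hp0 : (0 : ℝ) < p := by exact_mod_cast hp.pos
  rw [norm_mul, norm_cpow_p hp]
  have e1 : (-((m : ℂ) + 1 + s).re) = -(m : ℝ) + (-1 - s.re) := by
    simp only [Complex.add_re, Complex.natCast_re, Complex.one_re]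
    ring
  rw [e1, Real.rpow_add hp0, Real.rpow_neg hp0.le, Real.rpow_natCast]
  have h2 : (0 : ℝ) < (p : ℝ) ^ m := by positivity
  have h3 : (0 : ℝ) < (p : ℝ) ^ (-1 - s.re) := by positivity
  calc ‖a‖ * (((p : ℝ) ^ m)⁻¹ * (p : ℝ) ^ (-1 - s.re)) ≤ (p : ℝ) ^ m * (((p : ℝ) ^ m)⁻¹ * (p : ℝ) ^ (-1 - s.re)) := by
        gcongr
    _ = _ := by field_simp

lemma diff_term {p : ℕ} (hp : p.Prime) {m : ℕ} {a : ℂ} (ha : ‖a‖ ≤ (p : ℝ) ^ m) :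
    DifferentiableOn ℂ (fun s : ℂ => Complex.log (1 - a * (p : ℂ) ^ (-((m : ℂ) + 1 + s)))) HP := by
  have hp0 : (p : ℂ) ≠ 0 := by exact_mod_cast hp.ne_zero
  intro s hs
  have hs' : -(1 / 2) < s.re := hs
  have h1 : ‖a * (p : ℂ) ^ (-((m : ℂ) + 1 + s))‖ ≤ 0.7072 := (norm_term hp ha s).trans (rpow_small hp hs')
  have h2 : (1 - a * (p : ℂ) ^ (-((m : ℂ) + 1 + s))) ∈ Complex.slitPlane := by
    left
    rw [Complex.sub_re, Complex.one_re]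
    have := (Complex.abs_re_le_norm (a * (p : ℂ) ^ (-((m : ℂ) + 1 + s)))).trans h1
    have := (abs_le.mp this).2
    linarith
  apply DifferentiableAt.differentiableWithinAt
  refine DifferentiableAt.clog ?_ h2
  refine (differentiableAt_const _).sub (DifferentiableAt.const_mul ?_ _)
  exact DifferentiableAt.const_cpow (by fun_prop) (Or.inl hp0)

end Run7.h113.FE
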