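import Pool.Agent.Run7.h113.FE.Lim

/-!
# The functional limit theorem, conclusion
-/

set_option autoImplicit false

namespace Run7.h113.FE

open Finset MeasureTheory ProbabilityTheory Filter Topology
open Pool.Agent.Y722.HS (EB EM red EB_mono EB_add EB_mul EB_const)
open scoped ENNReal NNReal

variable {ι : Type} [Fintype ι] [DecidableEq ι] {M : ℝ}

namespace Loc

variable (L : Loc ι M) {K : Set ℂ}

/-- The partial sums as continuous functions on `K`. -/
noncomputable def SK (hsub : K ⊆ HP) (P : ℕ) (ω : Om ι) : C(K, ℂ) :=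
  ⟨fun s => L.sm (pr P) ω s, continuousOn_iff_continuous_domRestrict.mp ((L.sm_diff (pr P) ω).continuousOn.mono hsub)⟩

open Classical in
/-- The random function on `K`. -/
noncomputable def PhiK (K : Set ℂ) (ω : Om ι) : C(K, ℂ) :=
  if h : ContinuousOn (L.Lam ω) K then ⟨K.domRestrict (L.Lam ω), continuousOn_iff_continuous_domRestrict.mp h⟩ else 0

lemma PhiK_apply {ω : Om ι} (h : ContinuousOn (L.Lam ω) K) (s : K) : L.PhiK K ω s = L.Lam ω s := by
  unfold PhiK
  rw [dif_pos h]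
  rfl

lemma edge_sub (hK0 : ∀ s ∈ K, 0 ≤ s.re) : K ⊆ HP := by
  intro s hs
  have := hK0 s hs
  change -(1 / 2) < s.re
  linarith

lemma ae_cont (hK : IsCompact K) (hsub : K ⊆ HP) : ∀ᵐ ω ∂mu ι, ContinuousOn (L.Lam ω) K := by
  filter_upwards [L.ae_unif hK hsub] with ω hω
  exact hω.continuousOn (Eventually.of_forall fun k => (L.sm_diff (pr (2 ^ k)) ω).continuousOn.mono hsub).frequently

lemma SK_tendsto (hK : IsCompact K) (hK0 : ∀ s ∈ K, 0 ≤ s.re) :
    ∀ᵐ ω ∂mu ι, Tendsto (fun P => L.SK (edge_sub hK0) P ω) atTop (𝓝 (L.PhiK K ω)) := by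
  have : CompactSpace K := isCompact_iff_compactSpace.mp hK
  filter_upwards [L.ae_unif hK (edge_sub hK0), L.ae_cont hK (edge_sub hK0)] with ω hω hc
  rw [ContinuousMap.tendsto_iff_tendstoUniformly]
  have h1 := L.unif_edge hK0 ω hω
  rw [tendstoUniformlyOn_iff_tendstoUniformly_comp_coe] at h1
  have e : (⇑(L.PhiK K ω) : K → ℂ) = L.Lam ω ∘ Subtype.val := by
    funext s
    exact L.PhiK_apply hc s
  rw [e]
  exact h1

lemma nice_y (H : ℕ) : Nat.sqrt (Nat.sqrt H) ^ 4 ≤ H ∧ H < (Nat.sqrt (Nat.sqrt H) + 1) ^ 4 := by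
  constructor
  · calc Nat.sqrt (Nat.sqrt H) ^ 4 = (Nat.sqrt (Nat.sqrt H) ^ 2) ^ 2 := by ring
      _ ≤ (Nat.sqrt H) ^ 2 := Nat.pow_le_pow_left (Nat.sqrt_le' _) 2
      _ ≤ H := Nat.sqrt_le' _
  · have h1 : Nat.sqrt H < (Nat.sqrt (Nat.sqrt H) + 1) ^ 2 := Nat.lt_succ_sqrt' _
    have h2 : H < (Nat.sqrt H + 1) ^ 2 := Nat.lt_succ_sqrt' _
    calc H < (Nat.sqrt H + 1) ^ 2 := h2
      _ ≤ ((Nat.sqrt (Nat.sqrt H) + 1) ^ 2) ^ 2 := Nat.pow_le_pow_left h1 2
      _ = _ := by ring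

lemma y_tendsto : Tendsto (fun H : ℕ => Nat.sqrt (Nat.sqrt H)) atTop atTop := by
  have h1 : Tendsto Nat.sqrt atTop atTop :=
    tendsto_atTop_atTop.mpr fun b => ⟨b ^ 2, fun a ha => Nat.le_sqrt'.mpr ha⟩
  exact h1.comp h1

/-- The limit theorem for bounded Lipschitz functions. -/
lemma lim_lip (hK : IsCompact K) (hK0 : ∀ s ∈ K, 0 ≤ s.re) {ε : ℕ → ℝ} (hε0 : ∀ H, 0 < ε H)
    (hε : Tendsto ε atTop (𝓝 0)) (hεL : Tendsto (fun H : ℕ => ε H * Real.log H) atTop atTop)
    (Y : ℕ → (ι → ℤ) → C(K, ℂ)) {ρ : ℕ → ℝ} (hρ : Tendsto ρ atTop (𝓝 0))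
    (hY : ∀ H c (s : K), ‖Y H c s - L.Q (redP c) (ε H + s)‖ ≤ ρ H) (G : C(K, ℂ) → ℝ) {B : ℝ} (hB : ∀ x, |G x| ≤ B)
    [CompactSpace K] {Λ : ℝ≥0} (hG : LipschitzWith Λ G) :
    Tendsto (fun H : ℕ => EB H (fun c : ι → ℤ => G (Y H c))) atTop (𝓝 (∫ ω, G (L.PhiK K ω) ∂mu ι)) := by
  have hC := L.C0
  have hB0 : 0 ≤ B := (abs_nonneg _).trans (hB 0)
  set K' : Set ℂ := (fun x : ℝ × ℂ => ((x.1 : ℝ) : ℂ) + x.2) '' (Set.Icc (0 : ℝ) 1 ×ˢ K) with hK'def
  have hK' : IsCompact K' := (isCompact_Icc.prod hK).image (by fun_prop)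
  have hsub : K' ⊆ HP := by
    rintro z ⟨⟨t, w⟩, ⟨ht, hw⟩, rfl⟩
    have h1 := hK0 w hw
    have h2 := ht.1
    change -(1 / 2) < ((t : ℂ) + w).re
    simp only [Complex.add_re, Complex.ofReal_re]
    change 0 ≤ t at h2
    linarith
  obtain ⟨A, R, θ, hR, _, hθ0, hθ, hA, hcov⟩ := cover hK' hsub
  have hAH : ∀ a ∈ A, Metric.closedBall a R ⊆ HP := by
    intro a ha z hz
    have := hA a ha z hz
    change -(1 / 2) < z.re
    linarith
  -- the limit over the random Euler products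
  have hmeasP : ∀ P, AEStronglyMeasurable (fun ω => G (L.SK (edge_sub hK0) P ω)) (mu ι) := by
    intro P
    have hd : Dep (pr P) fun ω : Om ι => G (L.SK (edge_sub hK0) P ω) := by
      intro ω ω' h
      have : L.SK (edge_sub hK0) P ω = L.SK (edge_sub hK0) P ω' := by
        ext s
        exact congrFun (L.dep_sm (pr P) (fun f => f) ω ω' h) s
      change G _ = G _
      rw [this]
    have e : (fun ω : Om ι => G (L.SK (edge_sub hK0) P ω)) =
        (fun r => G (L.SK (edge_sub hK0) P (ext (pr P) r))) ∘ (pr P).restrict := by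
      funext ω
      exact (hd.eq ω).symm
    rw [e]
    exact ((measurable_of_finite _).comp (Finset.measurable_restrict _)).aestronglyMeasurable
  have hlimP : Tendsto (fun P => ∫ ω, G (L.SK (edge_sub hK0) P ω) ∂mu ι) atTop (𝓝 (∫ ω, G (L.PhiK K ω) ∂mu ι)) := by
    refine tendsto_integral_of_dominated_convergence (fun _ => B) hmeasP (integrable_const _)
      (fun P => ae_of_all _ fun ω => hB _) ?_
    filter_upwards [L.SK_tendsto hK hK0] with ω hω
    exact (hG.continuous.tendsto _).comp hω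
  rw [Metric.tendsto_atTop]
  intro δ hδ
  set Λ' : ℝ := (Λ : ℝ) + 1 with hΛ'
  have hΛ'0 : 0 < Λ' := by positivity
  have hbP : Tendsto (fun P => (A.card : ℝ) * (2 * (2 * (L.C * Real.sqrt (tau (2 - 2 * θ) P + tau (3 / 2 - θ) P ^ 2)))))
      atTop (𝓝 0) := by
    have h1 : Tendsto (fun P => tau (2 - 2 * θ) P + tau (3 / 2 - θ) P ^ 2) atTop (𝓝 0) := by
      simpa using (tau_tendsto (2 - 2 * θ)).add ((tau_tendsto (3 / 2 - θ)).pow 2)
    have h2 := (Real.continuous_sqrt.tendsto 0).comp h1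
    rw [Real.sqrt_zero] at h2
    simpa using (((h2.const_mul L.C).const_mul 2).const_mul 2).const_mul (A.card : ℝ)
  obtain ⟨P, hP1, hP2⟩ := (((Metric.tendsto_nhds.mp hlimP (δ / 4) (by positivity))).and
    (hbP.eventually (gt_mem_nhds (show 0 < δ / (16 * Λ') by positivity)))).exists
  obtain ⟨η, hη, hshift⟩ := L.shift_small hK hK0 P (show 0 < δ / (16 * Λ') by positivity)
  have hdep : Dep (pr P) fun ω : Om ι => G (L.SK (edge_sub hK0) P ω) := by
    intro ω ω' h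
    have : L.SK (edge_sub hK0) P ω = L.SK (edge_sub hK0) P ω' := by
      ext s
      exact congrFun (L.dep_sm (pr P) (fun f => f) ω ω' h) s
    change G _ = G _
    rw [this]
  have hbox := EB_tendsto hdep
  -- eventual conditions
  have ev1 := Metric.tendsto_nhds.mp hbox (δ / 4) (by positivity)
  have ev2 := hε.eventually (gt_mem_nhds hη)
  have ev3 := hε.eventually (gt_mem_nhds (zero_lt_one))
  have ev4 := hρ.eventually (gt_mem_nhds (show 0 < δ / (16 * Λ') by positivity))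
  have hy1 : ∀ᶠ H : ℕ in atTop, 1 ≤ Nat.sqrt (Nat.sqrt H) := y_tendsto.eventually_ge_atTop 1
  have hyP : ∀ᶠ H : ℕ in atTop, P ≤ Nat.sqrt (Nat.sqrt H) := y_tendsto.eventually_ge_atTop P
  have hmid : Tendsto (fun H : ℕ => (A.card : ℝ) * (2 * (2 * (L.C * Real.sqrt (tau (2 - 2 * θ) P + tau (3 / 2 - θ) P ^ 2 +
      2 ^ Fintype.card ι / ((Nat.sqrt (Nat.sqrt H) : ℕ) : ℝ)))))) atTop
      (𝓝 ((A.card : ℝ) * (2 * (2 * (L.C * Real.sqrt (tau (2 - 2 * θ) P + tau (3 / 2 - θ) P ^ 2)))))) := by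
    have h0 : Tendsto (fun H : ℕ => (2 : ℝ) ^ Fintype.card ι / ((Nat.sqrt (Nat.sqrt H) : ℕ) : ℝ)) atTop (𝓝 0) :=
      (tendsto_natCast_atTop_atTop.comp y_tendsto).const_div_atTop _
    have h1 := (h0.const_add (tau (2 - 2 * θ) P + tau (3 / 2 - θ) P ^ 2))
    rw [add_zero] at h1
    exact ((((((Real.continuous_sqrt.tendsto _).comp h1).const_mul L.C).const_mul 2).const_mul 2).const_mul _)
  have ev5 := hmid.eventually (gt_mem_nhds hP2)
  have ev6 : ∀ᶠ H : ℕ in atTop, 64 * L.C / (δ / (16 * Λ')) < ε H * Real.log H := hεL.eventually_gt_atTop _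
  obtain ⟨H0, hH0⟩ := eventually_atTop.mp (ev1.and (ev2.and (ev3.and (ev4.and (hy1.and (hyP.and (ev5.and
    (ev6.and (eventually_gt_atTop 1)))))))))
  refine ⟨H0, fun H hH => ?_⟩
  obtain ⟨a1, a2, a3, a4, a5, a6, a7, a8, a9⟩ := hH0 H hH
  set y := Nat.sqrt (Nat.sqrt H) with hy
  obtain ⟨n1, n2⟩ := nice_y H
  rw [← hy] at n1 n2
  have hlog : Real.log H ≤ 4 * Real.log (y + 1) := by
    have h1 : (H : ℝ) ≤ ((y : ℝ) + 1) ^ 4 := by exact_mod_cast n2.le
    have h2 : (0 : ℝ) < H := by exact_mod_cast (by omega : 0 < H)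
    calc Real.log H ≤ Real.log (((y : ℝ) + 1) ^ 4) := Real.log_le_log h2 h1
      _ = _ := by rw [Real.log_pow]; norm_num
  have hlogH : 0 < Real.log H := Real.log_pos (by exact_mod_cast a9)
  have hlogy : 0 < Real.log ((y : ℝ) + 1) := by linarith
  have hεH := hε0 H
  have htail : L.C * (16 / (ε H * Real.log (y + 1))) ≤ δ / (16 * Λ') := by
    have h1 : 64 * L.C < δ / (16 * Λ') * (ε H * Real.log H) := by
      rwa [div_lt_iff₀' (by positivity)] at a8
    have h2 : δ / (16 * Λ') * (ε H * Real.log H) ≤ δ / (16 * Λ') * (ε H * (4 * Real.log (y + 1))) := by gcongr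
    rw [mul_div_assoc', div_le_iff₀ (by positivity)]
    linarith
  -- pointwise bound
  have hpt : ∀ c : ι → ℤ, dist (Y H c) (L.SK (edge_sub hK0) P (redP c)) ≤
      3 * (δ / (16 * Λ')) + L.DD A R (pr y \ pr P) (redP c) := by
    intro c
    rw [ContinuousMap.dist_le (by have := L.DD_nonneg A R (pr y \ pr P) (redP c); positivity)]
    intro s
    have b1 := hY H c s
    have hs0 := hK0 s s.2
    have b2 := L.Q_tail (redP c) (s := (ε H : ℂ) + s) hεH a3.le (by
      simp only [Complex.add_re, Complex.ofReal_re]; linarith) a5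
    have b3 := hshift (ε H) hεH.le a2 (redP c) s s.2
    have hmem : ((ε H : ℂ) + s) ∈ K' := ⟨(ε H, (s : ℂ)), ⟨⟨hεH.le, a3.le⟩, s.2⟩, rfl⟩
    have b4 := L.sm_le_DD hR hAH (pr y \ pr P) (redP c) (hcov _ hmem)
    have e1 : L.sm (pr y) (redP c) (ε H + s) = L.sm (pr y \ pr P) (redP c) (ε H + s) + L.sm (pr P) (redP c) (ε H + s) := by
      unfold sm
      exact (Finset.sum_sdiff (pr_mono a6)).symm
    rw [dist_eq_norm]
    have e2 : Y H c s - L.SK (edge_sub hK0) P (redP c) s = (Y H c s - L.Q (redP c) (ε H + s)) +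
        ((L.Q (redP c) (ε H + s) - L.sm (pr y) (redP c) (ε H + s)) + (L.sm (pr y \ pr P) (redP c) (ε H + s) +
          (L.sm (pr P) (redP c) (ε H + s) - L.sm (pr P) (redP c) s))) := by
      rw [e1]
      change Y H c s - L.sm (pr P) (redP c) s = _
      ring
    rw [e2]
    have c1 := norm_add_le (Y H c s - L.Q (redP c) (ε H + s))
      ((L.Q (redP c) (ε H + s) - L.sm (pr y) (redP c) (ε H + s)) + (L.sm (pr y \ pr P) (redP c) (ε H + s) +
          (L.sm (pr P) (redP c) (ε H + s) - L.sm (pr P) (redP c) s)))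
    have c2 := norm_add_le (L.Q (redP c) (ε H + s) - L.sm (pr y) (redP c) (ε H + s))
      (L.sm (pr y \ pr P) (redP c) (ε H + s) + (L.sm (pr P) (redP c) (ε H + s) - L.sm (pr P) (redP c) s))
    have c3 := norm_add_le (L.sm (pr y \ pr P) (redP c) (ε H + s))
      (L.sm (pr P) (redP c) (ε H + s) - L.sm (pr P) (redP c) s)
    linarith [b2.trans htail]
  have hDD := L.DD_box (ι := ι) hR hθ0 hθ hA (H := H) (y := y) (P := P) a5 n1
  have hEBd : EB H (fun c : ι → ℤ => Λ' * (3 * (δ / (16 * Λ')) + L.DD A R (pr y \ pr P) (redP c))) ≤ δ / 4 := by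
    rw [EB_mul, EB_add, EB_const]
    calc Λ' * (3 * (δ / (16 * Λ')) + EB H fun c : ι → ℤ => L.DD A R (pr y \ pr P) (redP c))
        ≤ Λ' * (3 * (δ / (16 * Λ')) + δ / (16 * Λ')) := by
          gcongr
          exact hDD.trans a7.le
      _ = δ / 4 := by field_simp; ring
  have hle : ∀ c : ι → ℤ, |G (Y H c) - G (L.SK (edge_sub hK0) P (redP c))| ≤
      Λ' * (3 * (δ / (16 * Λ')) + L.DD A R (pr y \ pr P) (redP c)) := by
    intro c
    have h1 := hG.dist_le_mul (Y H c) (L.SK (edge_sub hK0) P (redP c))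
    rw [Real.dist_eq] at h1
    refine h1.trans ?_
    have h2 := hpt c
    have h3 : (Λ : ℝ) ≤ Λ' := by rw [hΛ']; linarith
    have h4 := L.DD_nonneg A R (pr y \ pr P) (redP c)
    gcongr
  have hd1 : |EB H (fun c : ι → ℤ => G (Y H c)) - EB H (fun c : ι → ℤ => G (L.SK (edge_sub hK0) P (redP c)))| ≤ δ / 4 := by
    rw [abs_le]
    constructor
    · have h1 : EB H (fun c : ι → ℤ => G (L.SK (edge_sub hK0) P (redP c))) ≤
          EB H (fun c : ι → ℤ => G (Y H c) + Λ' * (3 * (δ / (16 * Λ')) + L.DD A R (pr y \ pr P) (redP c))) :=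
        EB_mono H _ _ fun c => by have := (abs_le.mp (hle c)).1; linarith
      rw [EB_add] at h1
      linarith
    · have h1 : EB H (fun c : ι → ℤ => G (Y H c)) ≤
          EB H (fun c : ι → ℤ => G (L.SK (edge_sub hK0) P (redP c)) +
            Λ' * (3 * (δ / (16 * Λ')) + L.DD A R (pr y \ pr P) (redP c))) :=
        EB_mono H _ _ fun c => by have := (abs_le.mp (hle c)).2; linarith
      rw [EB_add] at h1
      linarith
  rw [Real.dist_eq] at a1 hP1 ⊢
  have t1 := abs_le.mp hd1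
  have t2 := abs_lt.mp a1
  have t3 := abs_lt.mp hP1
  rw [abs_lt]
  constructor <;> linarith

lemma SK_measurable (hsub : K ⊆ HP) (P : ℕ) [MeasurableSpace C(K, ℂ)] : Measurable (L.SK hsub P) := by
  have hd : Dep (pr P) fun ω : Om ι => L.SK hsub P ω := by
    intro ω ω' h
    ext s
    exact congrFun (L.dep_sm (pr P) (fun f => f) ω ω' h) s
  have e : L.SK hsub P = (fun r => L.SK hsub P (ext (pr P) r)) ∘ (pr P).restrict := by
    funext ω
    exact (hd.eq ω).symm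
  rw [e]
  exact (measurable_of_finite _).comp (Finset.measurable_restrict _)

/-- **The functional limit theorem.** -/
theorem lim_cont (hK : IsCompact K) (hK0 : ∀ s ∈ K, 0 ≤ s.re) {ε : ℕ → ℝ} (hε0 : ∀ H, 0 < ε H)
    (hε : Tendsto ε atTop (𝓝 0)) (hεL : Tendsto (fun H : ℕ => ε H * Real.log H) atTop atTop)
    (Y : ℕ → (ι → ℤ) → C(K, ℂ)) {ρ : ℕ → ℝ} (hρ : Tendsto ρ atTop (𝓝 0))
    (hY : ∀ H c (s : K), ‖Y H c s - L.Q (redP c) (ε H + s)‖ ≤ ρ H) (G : C(K, ℂ) → ℝ) (hG : Continuous G) {B : ℝ}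
    (hB : ∀ x, |G x| ≤ B) :
    Integrable (fun ω => G (L.PhiK K ω)) (mu ι) ∧
    Tendsto (fun H : ℕ => EB H (fun c : ι → ℤ => G (Y H c))) atTop (𝓝 (∫ ω, G (L.PhiK K ω) ∂mu ι)) := by
  have : CompactSpace K := isCompact_iff_compactSpace.mp hK
  let _ : MeasurableSpace C(K, ℂ) := borel _
  have : BorelSpace C(K, ℂ) := ⟨rfl⟩
  have hm : AEMeasurable (L.PhiK K) (mu ι) :=
    aemeasurable_of_tendsto_metrizable_ae atTop (fun P => (L.SK_measurable (edge_sub hK0) P).aemeasurable)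
      (L.SK_tendsto hK hK0)
  have hint : Integrable (fun ω => G (L.PhiK K ω)) (mu ι) :=
    Integrable.of_bound (hG.measurable.comp_aemeasurable hm).aestronglyMeasurable B (ae_of_all _ fun ω => hB _)
  refine ⟨hint, ?_⟩
  set μs : ℕ → ProbabilityMeasure C(K, ℂ) := fun H => ⟨(bx ι H).map (Y H),
    Measure.isProbabilityMeasure_map (measurable_of_countable (Y H)).aemeasurable⟩ with hμs
  set ν : ProbabilityMeasure C(K, ℂ) := ⟨(mu ι).map (L.PhiK K), Measure.isProbabilityMeasure_map hm⟩ with hν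
  have hmap : ∀ (H : ℕ) (f : C(K, ℂ) → ℝ), Continuous f → ∫ x, f x ∂(μs H : Measure C(K, ℂ)) =
      EB H (fun c : ι → ℤ => f (Y H c)) := by
    intro H f hf
    rw [← integral_bx]
    exact integral_map (measurable_of_countable (Y H)).aemeasurable hf.measurable.aestronglyMeasurable
  have hmapν : ∀ (f : C(K, ℂ) → ℝ), Continuous f → ∫ x, f x ∂(ν : Measure C(K, ℂ)) = ∫ ω, f (L.PhiK K ω) ∂mu ι :=
    fun f hf => integral_map hm hf.measurable.aestronglyMeasurable
  have hT : Tendsto μs atTop (𝓝 ν) := by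
    rw [tendsto_iff_forall_lipschitz_integral_tendsto]
    rintro f ⟨D, hD⟩ ⟨Λ, hΛ⟩
    have hfb : ∀ x, |f x| ≤ D + |f 0| := by
      intro x
      have h1 := hD x 0
      rw [Real.dist_eq] at h1
      have h2 := abs_add_le (f x - f 0) (f 0)
      rw [sub_add_cancel] at h2
      linarith
    have h1 := L.lim_lip hK hK0 hε0 hε hεL Y hρ hY f hfb hΛ
    rw [hmapν f hΛ.continuous]
    refine h1.congr fun H => ?_
    rw [hmap H f hΛ.continuous]
  rw [ProbabilityMeasure.tendsto_iff_forall_integral_tendsto] at hT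
  have h1 := hT (BoundedContinuousFunction.ofNormedAddCommGroup G hG B (fun x => hB x))
  have h2 : Tendsto (fun H => ∫ x, G x ∂(μs H : Measure C(K, ℂ))) atTop (𝓝 (∫ x, G x ∂(ν : Measure C(K, ℂ)))) := h1
  rw [hmapν G hG] at h2
  refine h2.congr fun H => ?_
  rw [hmap H G hG]

end Loc

end Run7.h113.FE
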