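import Pool.Agent.Run7.h113.FE.Tl2
import Pool.Agent.Run7.h113.FE.LogB

/-!
# Complements
-/

set_option autoImplicit false

namespace Run7.h113.FE

open Finset MeasureTheory ProbabilityTheory Filter Topology
open Pool.Agent.Y722.HS (EB EM red box)
open scoped ENNReal NNReal

variable {ι : Type} [Fintype ι] [DecidableEq ι] {M : ℝ}

namespace Loc

variable (L : Loc ι M) {K : Set ℂ}

lemma Q_diff (r : Om ι) : DifferentiableOn ℂ (L.Q r) {s | 0 < s.re} := by
  have hC := L.C0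
  intro s hs
  have hs' : 0 < s.re := hs
  set ε : ℝ := min 1 (s.re / 2) with hε
  have hε0 : 0 < ε := by rw [hε]; positivity
  have hε1 : ε ≤ 1 := min_le_left _ _
  have hU : IsOpen {z : ℂ | ε < z.re} := isOpen_lt continuous_const Complex.continuous_re
  have hunif : TendstoUniformlyOn (fun (y : ℕ) z => L.sm (pr y) r z) (L.Q r) atTop {z : ℂ | ε < z.re} := by
    rw [Metric.tendstoUniformlyOn_iff]
    intro δ hδ
    have hlim : Tendsto (fun y : ℕ => L.C * (16 / (ε * Real.log ((y : ℝ) + 1)))) atTop (𝓝 0) := by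
      have h1 : Tendsto (fun y : ℕ => ε * Real.log ((y : ℝ) + 1)) atTop atTop :=
        (Real.tendsto_log_atTop.comp (tendsto_atTop_add_const_right _ _ tendsto_natCast_atTop_atTop)).const_mul_atTop hε0
      simpa using (h1.const_div_atTop 16).const_mul L.C
    filter_upwards [hlim.eventually (gt_mem_nhds hδ), eventually_ge_atTop 1] with y hy1 hy2 z hz
    have hz' : ε < z.re := hz
    rw [dist_eq_norm]
    exact lt_of_le_of_lt (L.Q_tail r hε0 hε1 hz'.le hy2) hy1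
  have hd := hunif.tendstoLocallyUniformlyOn.differentiableOn (Eventually.of_forall fun y =>
    (L.sm_diff (pr y) r).mono (fun z hz => by
      have hz' : ε < z.re := hz
      change -(1 / 2) < z.re
      linarith)) hU
  have hsm : s ∈ {z : ℂ | ε < z.re} := by
    change ε < s.re
    have : ε ≤ s.re / 2 := min_le_right _ _
    linarith
  exact (hd.differentiableAt (hU.mem_nhds hsm)).differentiableWithinAt

lemma Lam_diff {ω : Om ι} (h : TendstoLocallyUniformlyOn (fun (k : ℕ) s => L.sm (pr (2 ^ k)) ω s) (L.Lam ω) atTop HP) :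
    DifferentiableOn ℂ (L.Lam ω) HP :=
  h.differentiableOn (Eventually.of_forall fun k => L.sm_diff (pr (2 ^ k)) ω) isOpen_HP

/-- the tails of the limit -/
lemma tail_Lam {V B : ℝ} {s : ℂ} (hs : 0 ≤ s.re) (hB : ∀ z : ℕ, (mu ι).real {ω | V ≤ ‖L.sm (pr z) ω s‖} ≤ B) :
    (mu ι).real {ω | V + 1 ≤ ‖L.Lam ω s‖} ≤ B := by
  have hB0 : 0 ≤ B := measureReal_nonneg.trans (hB 0)
  set A : ℕ → Set (Om ι) := fun N => ⋂ k ≥ N, {ω | V ≤ ‖L.sm (pr (2 ^ k)) ω s‖} with hA
  have hsH : s ∈ HP := by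
    change -(1 / 2) < s.re
    linarith
  have hae : ∀ᵐ ω ∂mu ι, ω ∈ {ω : Om ι | V + 1 ≤ ‖L.Lam ω s‖} → ω ∈ ⋃ N, A N := by
    filter_upwards [L.ae_conv] with ω hω hmem
    have h1 : Tendsto (fun k : ℕ => L.sm (pr (2 ^ k)) ω s) atTop (𝓝 (L.Lam ω s)) := hω.tendsto_at hsH
    have h2 := h1.norm.eventually (lt_mem_nhds (show V < ‖L.Lam ω s‖ by
      have : V + 1 ≤ ‖L.Lam ω s‖ := hmem
      linarith))
    obtain ⟨N, hN⟩ := eventually_atTop.mp h2
    refine Set.mem_iUnion.mpr ⟨N, ?_⟩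
    simp only [hA, Set.mem_iInter]
    exact fun k hk => (hN k hk).le
  have h1 : (mu ι) {ω | V + 1 ≤ ‖L.Lam ω s‖} ≤ (mu ι) (⋃ N, A N) := measure_mono_ae hae
  have hmono : Monotone A := by
    intro N N' h
    simp only [hA]
    exact Set.biInter_mono (fun k hk => le_trans h hk) (fun _ _ => subset_rfl)
  have h2 : (mu ι) (⋃ N, A N) ≤ ENNReal.ofReal B := by
    rw [hmono.directed_le.measure_iUnion]
    refine iSup_le fun N => ?_
    have h3 : A N ⊆ {ω | V ≤ ‖L.sm (pr (2 ^ N)) ω s‖} := Set.biInter_subset_of_mem (le_refl N)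
    refine (measure_mono h3).trans ?_
    rw [← ENNReal.ofReal_toReal (measure_ne_top (mu ι) {ω | V ≤ ‖L.sm (pr (2 ^ N)) ω s‖})]
    exact ENNReal.ofReal_le_ofReal (hB _)
  exact ENNReal.toReal_le_of_le_ofReal hB0 (h1.trans h2)

/-- the functional limit theorem for any version of the limit -/
theorem lim_final (hK : IsCompact K) (hK0 : ∀ s ∈ K, 0 ≤ s.re) {ε : ℕ → ℝ} (hε0 : ∀ H, 0 < ε H)
    (hε : Tendsto ε atTop (𝓝 0)) (hεL : Tendsto (fun H : ℕ => ε H * Real.log H) atTop atTop)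
    (Y : ℕ → (ι → ℤ) → C(K, ℂ)) {ρ : ℕ → ℝ} (hρ : Tendsto ρ atTop (𝓝 0))
    (hY : ∀ H c (s : K), ‖Y H c s - L.Q (redP c) (ε H + s)‖ ≤ ρ H) (Ψ : Om ι → C(K, ℂ))
    (hΨ : ∀ᵐ ω ∂mu ι, ∀ s : K, Ψ ω s = L.Lam ω s) (G : C(K, ℂ) → ℝ) (hG : Continuous G) {B : ℝ}
    (hB : ∀ x, |G x| ≤ B) :
    Integrable (fun ω => G (Ψ ω)) (mu ι) ∧
    Tendsto (fun H : ℕ => (∑ c ∈ box ι H, G (Y H c)) / (2 * H + 1 : ℝ) ^ Fintype.card ι) atTop
      (𝓝 (∫ ω, G (Ψ ω) ∂mu ι)) := by
  have h1 := L.lim_cont hK hK0 hε0 hε hεL Y hρ hY G hG hB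
  have h2 : (fun ω => G (L.PhiK K ω)) =ᵐ[mu ι] fun ω => G (Ψ ω) := by
    filter_upwards [hΨ, L.ae_cont hK (edge_sub hK0)] with ω hω hc
    congr 1
    ext s
    rw [hω s]
    exact L.PhiK_apply hc s
  refine ⟨h1.1.congr h2, ?_⟩
  rw [← integral_congr_ae h2]
  exact h1.2

end Loc

/-- the residue of zeta -/
lemma zeta_res {ε : ℕ → ℝ} (hε0 : ∀ H, 0 < ε H) (hε : Tendsto ε atTop (𝓝 0)) :
    Tendsto (fun H => Real.log (ε H * ‖riemannZeta (1 + ε H)‖)) atTop (𝓝 0) := by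
  have h1 : Tendsto (fun H => (1 : ℂ) + (ε H : ℂ)) atTop (𝓝[≠] 1) := by
    rw [tendsto_nhdsWithin_iff]
    constructor
    · have h2 : Tendsto (fun H => ((ε H : ℝ) : ℂ)) atTop (𝓝 0) := by
        have := (Complex.continuous_ofReal.tendsto 0).comp hε
        rw [Complex.ofReal_zero] at this
        exact this
      simpa using h2.const_add (1 : ℂ)
    · refine Eventually.of_forall fun H => ?_
      simp [(hε0 H).ne']
  have h2 := (riemannZeta_residue_one.comp h1).norm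
  have h3 : ∀ H, ‖((fun s : ℂ => (s - 1) * riemannZeta s) ∘ fun H => (1 : ℂ) + (ε H : ℂ)) H‖ =
      ε H * ‖riemannZeta (1 + ε H)‖ := by
    intro H
    simp only [Function.comp_apply, add_sub_cancel_left, norm_mul, Complex.norm_real, Real.norm_of_nonneg (hε0 H).le]
  simp only [h3] at h2
  rw [norm_one] at h2
  have h4 := (Real.continuousAt_log one_ne_zero).tendsto.comp h2
  rw [Real.log_one] at h4
  exact h4

/-- Euler products and sums of logarithms -/
lemma exp_tsum {b : ℕ} (z : Nat.Primes → Fin b → ℂ) (u : Nat.Primes → ℝ) (hu : Summable u)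
    (hz : ∀ p j, ‖z p j‖ ≤ u p) (hz1 : ∀ p j, ‖z p j‖ ≤ 0.7072) :
    Summable (fun p : Nat.Primes => ∑ j, -Complex.log (1 - z p j)) ∧
    Complex.exp (∑' p : Nat.Primes, ∑ j, -Complex.log (1 - z p j)) = ∏' p : Nat.Primes, ∏ j, (1 - z p j)⁻¹ := by
  have h1 : Summable fun p : Nat.Primes => ∑ j, -Complex.log (1 - z p j) := by
    refine Summable.of_norm_bounded (g := fun p => (3 * (b : ℝ)) * u p) (hu.mul_left (3 * (b : ℝ))) fun p => ?_
    refine (norm_sum_le _ _).trans ?_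
    have h2 : ∀ j ∈ (Finset.univ : Finset (Fin b)), ‖-Complex.log (1 - z p j)‖ ≤ 3 * u p := by
      intro j _
      rw [norm_neg]
      refine (Run7.h113.FE.log1 (hz1 p j)).2.trans ?_
      have := hz p j
      linarith
    refine (Finset.sum_le_sum h2).trans (le_of_eq ?_)
    rw [Finset.sum_const, nsmul_eq_mul, Finset.card_univ, Fintype.card_fin]
    ring
  refine ⟨h1, ?_⟩
  have h2 := h1.hasSum.cexp
  rw [← h2.tprod_eq]
  refine tprod_congr fun p => ?_
  simp only [Function.comp, Complex.exp_sum]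
  refine Finset.prod_congr rfl fun j _ => ?_
  have h3 : (1 - z p j) ≠ 0 := by
    intro h
    have h4 : ‖z p j‖ = 1 := by rw [← sub_eq_zero.mp h, norm_one]
    have := hz1 p j
    rw [h4] at this
    norm_num at this
  rw [Complex.exp_neg, Complex.exp_log h3]

end Run7.h113.FE
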