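import Pool.Agent.Run7.h113.FE.Base

/-!
# Second moments of sums over primes, and suprema over compact sets
-/

set_option autoImplicit false

namespace Run7.h113.FE

open Finset MeasureTheory ProbabilityTheory Filter Topology
open Pool.Agent.Y722.HS (EB EM red)
open scoped ENNReal

variable {ι : Type} [Fintype ι] [DecidableEq ι] {Ω' : Type*} [MeasurableSpace Ω'] {P : Measure Ω'} {c : Ω' → Om ι}
  {κ Y : ℝ}

lemma EM_abs_le (p : Nat.Primes) (f : (ι → ZMod p) → ℝ) (a : ℝ) (h : ∀ r, |f r| ≤ a) :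
    EM (p : ℕ) (fun r => |f r|) ≤ a := by
  have hp : (0:ℝ) < ((p : ℕ) : ℝ) := by exact_mod_cast p.2.pos
  unfold EM
  rw [div_le_iff₀ (by positivity)]
  refine (Finset.sum_le_sum fun r _ => h r).trans ?_
  rw [Finset.sum_const, Finset.card_univ, card_vec, nsmul_eq_mul]
  push_cast
  rw [mul_comm]

lemma EM_abs_nonneg (p : Nat.Primes) (f : (ι → ZMod p) → ℝ) : 0 ≤ EM (p : ℕ) (fun r => |f r|) := by
  unfold EM
  have : 0 ≤ ∑ r, |f r| := Finset.sum_nonneg fun r _ => abs_nonneg _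
  positivity

lemma Rnd.meas1 (h : Rnd P c κ Y) (p : Nat.Primes) {E : Type*} [MeasurableSpace E] (f : (ι → ZMod p) → E) :
    Measurable fun ω => f (c ω p) :=
  (measurable_of_finite f).comp ((measurable_pi_apply p).comp h.meas)

lemma Rnd.int1 (h : Rnd P c κ Y) (p : Nat.Primes) {E : Type*} [NormedAddCommGroup E] [MeasurableSpace E] [BorelSpace E]
    [SecondCountableTopology E] (f : (ι → ZMod p) → E) : Integrable (fun ω => f (c ω p)) P := by
  have := h.prob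
  refine Integrable.of_bound (h.meas1 p f).aestronglyMeasurable (∑ r, ‖f r‖) (ae_of_all _ fun ω => ?_)
  exact Finset.single_le_sum (f := fun r => ‖f r‖) (fun r _ => norm_nonneg _) (Finset.mem_univ _)

/-- Second moments. -/
lemma Rnd.sq_real (h : Rnd P c κ Y) (S : Finset Nat.Primes)
    (hS : ∀ p ∈ S, ∀ q ∈ S, ((p : ℕ) : ℝ) * ((q : ℕ) : ℝ) ≤ Y) (x : ∀ p : Nat.Primes, (ι → ZMod p) → ℝ)
    (a m : Nat.Primes → ℝ) (ha : ∀ p ∈ S, ∀ r, |x p r| ≤ a p) (hm : ∀ p ∈ S, |EM (p : ℕ) (x p)| ≤ m p) :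
    ∫ ω, (∑ p ∈ S, x p (c ω p)) ^ 2 ∂P ≤
      ∑ p ∈ S, a p ^ 2 + (∑ p ∈ S, m p) ^ 2 + κ * (∑ p ∈ S, ((p : ℕ) : ℝ) * a p) ^ 2 := by
  classical
  have := h.prob
  have ha0 : ∀ p ∈ S, 0 ≤ a p := fun p hp => (abs_nonneg _).trans (ha p hp 0)
  have hm0 : ∀ p ∈ S, 0 ≤ m p := fun p hp => (abs_nonneg _).trans (hm p hp)
  have hii : ∀ p q : Nat.Primes, Integrable (fun ω => x p (c ω p) * x q (c ω q)) P := by
    intro p q
    refine Integrable.of_bound ((h.meas1 p (x p)).mul (h.meas1 q (x q))).aestronglyMeasurable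
      ((∑ r, ‖x p r‖) * (∑ r, ‖x q r‖)) (ae_of_all _ fun ω => ?_)
    rw [norm_mul]
    gcongr
    · exact Finset.single_le_sum (f := fun r => ‖x p r‖) (fun r _ => norm_nonneg _) (Finset.mem_univ _)
    · exact Finset.single_le_sum (f := fun r => ‖x q r‖) (fun r _ => norm_nonneg _) (Finset.mem_univ _)
  have e1 : ∫ ω, (∑ p ∈ S, x p (c ω p)) ^ 2 ∂P = ∑ p ∈ S, ∑ q ∈ S, ∫ ω, x p (c ω p) * x q (c ω q) ∂P := by
    simp only [sq, Finset.sum_mul_sum]
    rw [integral_finsetSum _ (fun p _ => integrable_finsetSum _ fun q _ => hii p q)]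
    refine Finset.sum_congr rfl fun p _ => ?_
    rw [integral_finsetSum _ (fun q _ => hii p q)]
  rw [e1]
  have key : ∀ p ∈ S, ∀ q ∈ S, ∫ ω, x p (c ω p) * x q (c ω q) ∂P ≤
      (if p = q then a p ^ 2 else 0) + m p * m q + κ * ((((p : ℕ) : ℝ) * a p) * (((q : ℕ) : ℝ) * a q)) := by
    intro p hp q hq
    have i1 := ha0 p hp
    have i2 := ha0 q hq
    have i3 := hm0 p hp
    have i4 := hm0 q hq
    have i5 := h.κ0
    by_cases hpq : p = q
    · subst hpq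
      rw [if_pos rfl]
      have j1 : ∫ ω, x p (c ω p) * x p (c ω p) ∂P ≤ ∫ ω, a p ^ 2 ∂P := by
        refine integral_mono (hii p p) (integrable_const _) fun ω => ?_
        change x p (c ω p) * x p (c ω p) ≤ a p ^ 2
        rw [← sq, ← sq_abs]
        gcongr
        exact ha p hp _
      rw [integral_const, probReal_univ, one_smul] at j1
      have j2 : 0 ≤ m p * m p := by positivity
      have j3 : 0 ≤ κ * ((((p : ℕ) : ℝ) * a p) * (((p : ℕ) : ℝ) * a p)) := by positivity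
      linarith
    · rw [if_neg hpq]
      have j1 := h.two p q hpq (hS p hp q hq) (x p) (x q)
      have j2 : EM (p : ℕ) (x p) * EM (q : ℕ) (x q) ≤ m p * m q := by
        refine (le_abs_self _).trans ?_
        rw [abs_mul]
        exact mul_le_mul (hm p hp) (hm q hq) (abs_nonneg _) i3
      have j3 : κ * (((p : ℕ) : ℝ) * ((q : ℕ) : ℝ)) * (EM (p : ℕ) (fun r => |x p r|) * EM (q : ℕ) (fun r => |x q r|)) ≤
          κ * ((((p : ℕ) : ℝ) * a p) * (((q : ℕ) : ℝ) * a q)) := by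
        have j4 := EM_abs_le p (x p) (a p) (ha p hp)
        have j5 := EM_abs_le q (x q) (a q) (ha q hq)
        have j6 := EM_abs_nonneg q (x q)
        have j7 : EM (p : ℕ) (fun r => |x p r|) * EM (q : ℕ) (fun r => |x q r|) ≤ a p * a q :=
          mul_le_mul j4 j5 j6 i1
        calc _ ≤ κ * (((p : ℕ) : ℝ) * ((q : ℕ) : ℝ)) * (a p * a q) := by gcongr
          _ = _ := by ring
      have j8 := (abs_le.mp j1).2
      linarith
  refine (Finset.sum_le_sum fun p hp => Finset.sum_le_sum fun q hq => key p hp q hq).trans (le_of_eq ?_)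
  simp only [Finset.sum_add_distrib, ← Finset.mul_sum]
  rw [sq (∑ p ∈ S, m p), sq (∑ p ∈ S, ((p : ℕ) : ℝ) * a p), Finset.sum_mul_sum, Finset.sum_mul_sum]
  congr 1
  · congr 1
    · refine Finset.sum_congr rfl fun p hp => ?_
      rw [Finset.sum_ite_eq]
      simp [hp]
    · refine Finset.sum_congr rfl fun p hp => ?_
      rw [Finset.mul_sum]
  · congr 1
    refine Finset.sum_congr rfl fun p hp => ?_
    rw [Finset.mul_sum]

/-- The mean value of a complex function of the vectors modulo `p`. -/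
noncomputable def EC (p : Nat.Primes) (f : (ι → ZMod p) → ℂ) : ℂ :=
  (∑ r, f r) / ((p : ℕ) : ℂ) ^ Fintype.card ι

lemma EC_re (p : Nat.Primes) (f : (ι → ZMod p) → ℂ) : (EC p f).re = EM (p : ℕ) fun r => (f r).re := by
  unfold EC EM
  have : (((p : ℕ) : ℂ) ^ Fintype.card ι) = ((((p : ℕ) : ℝ) ^ Fintype.card ι : ℝ) : ℂ) := by push_cast; rfl
  rw [this, Complex.div_ofReal_re, Complex.re_sum]

lemma EC_im (p : Nat.Primes) (f : (ι → ZMod p) → ℂ) : (EC p f).im = EM (p : ℕ) fun r => (f r).im := by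
  unfold EC EM
  have : (((p : ℕ) : ℂ) ^ Fintype.card ι) = ((((p : ℕ) : ℝ) ^ Fintype.card ι : ℝ) : ℂ) := by push_cast; rfl
  rw [this, Complex.div_ofReal_im, Complex.im_sum]

lemma Rnd.sq_complex (h : Rnd P c κ Y) (S : Finset Nat.Primes)
    (hS : ∀ p ∈ S, ∀ q ∈ S, ((p : ℕ) : ℝ) * ((q : ℕ) : ℝ) ≤ Y) (x : ∀ p : Nat.Primes, (ι → ZMod p) → ℂ)
    (a m : Nat.Primes → ℝ) (ha : ∀ p ∈ S, ∀ r, ‖x p r‖ ≤ a p) (hm : ∀ p ∈ S, ‖EC p (x p)‖ ≤ m p) :
    ∫ ω, ‖∑ p ∈ S, x p (c ω p)‖ ^ 2 ∂P ≤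
      2 * (∑ p ∈ S, a p ^ 2 + (∑ p ∈ S, m p) ^ 2 + κ * (∑ p ∈ S, ((p : ℕ) : ℝ) * a p) ^ 2) := by
  have := h.prob
  have h1 := h.sq_real S hS (fun p r => (x p r).re) a m
    (fun p hp r => (Complex.abs_re_le_norm _).trans (ha p hp r))
    (fun p hp => by rw [← EC_re]; exact (Complex.abs_re_le_norm _).trans (hm p hp))
  have h2 := h.sq_real S hS (fun p r => (x p r).im) a m
    (fun p hp r => (Complex.abs_im_le_norm _).trans (ha p hp r))
    (fun p hp => by rw [← EC_im]; exact (Complex.abs_im_le_norm _).trans (hm p hp))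
  have hb : ∀ (y : ∀ p : Nat.Primes, (ι → ZMod p) → ℝ), Integrable (fun ω => (∑ p ∈ S, y p (c ω p)) ^ 2) P := by
    intro y
    refine Integrable.of_bound ((Finset.measurable_sum S fun p _ => h.meas1 p (y p)).pow_const 2).aestronglyMeasurable
      ((∑ p ∈ S, ∑ r, ‖y p r‖) ^ 2) (ae_of_all _ fun ω => ?_)
    rw [norm_pow]
    gcongr
    refine (norm_sum_le _ _).trans (Finset.sum_le_sum fun p _ => ?_)
    exact Finset.single_le_sum (f := fun r => ‖y p r‖) (fun r _ => norm_nonneg _) (Finset.mem_univ _)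
  have e1 : ∀ ω, ‖∑ p ∈ S, x p (c ω p)‖ ^ 2 =
      (∑ p ∈ S, (x p (c ω p)).re) ^ 2 + (∑ p ∈ S, (x p (c ω p)).im) ^ 2 := by
    intro ω
    rw [Complex.sq_norm, Complex.normSq_apply, Complex.re_sum, Complex.im_sum]
    ring
  simp only [e1]
  rw [integral_add (hb fun p r => (x p r).re) (hb fun p r => (x p r).im)]
  linarith

lemma Rnd.abs_complex (h : Rnd P c κ Y) (S : Finset Nat.Primes)
    (hS : ∀ p ∈ S, ∀ q ∈ S, ((p : ℕ) : ℝ) * ((q : ℕ) : ℝ) ≤ Y) (x : ∀ p : Nat.Primes, (ι → ZMod p) → ℂ)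
    (a m : Nat.Primes → ℝ) (ha : ∀ p ∈ S, ∀ r, ‖x p r‖ ≤ a p) (hm : ∀ p ∈ S, ‖EC p (x p)‖ ≤ m p) (B : ℝ) (hB : 0 < B)
    (hb : ∑ p ∈ S, a p ^ 2 + (∑ p ∈ S, m p) ^ 2 + κ * (∑ p ∈ S, ((p : ℕ) : ℝ) * a p) ^ 2 ≤ B ^ 2) :
    ∫ ω, ‖∑ p ∈ S, x p (c ω p)‖ ∂P ≤ 2 * B := by
  have := h.prob
  have h1 := h.sq_complex S hS x a m ha hm
  have hm1 : Measurable fun ω => ∑ p ∈ S, x p (c ω p) := Finset.measurable_sum S fun p _ => h.meas1 p (x p)
  have hbd : ∀ ω, ‖∑ p ∈ S, x p (c ω p)‖ ≤ ∑ p ∈ S, ∑ r, ‖x p r‖ := by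
    intro ω
    refine (norm_sum_le _ _).trans (Finset.sum_le_sum fun p _ => ?_)
    exact Finset.single_le_sum (f := fun r => ‖x p r‖) (fun r _ => norm_nonneg _) (Finset.mem_univ _)
  have i1 : Integrable (fun ω => ‖∑ p ∈ S, x p (c ω p)‖) P :=
    Integrable.of_bound hm1.norm.aestronglyMeasurable _ (ae_of_all _ fun ω => by rw [norm_norm]; exact hbd ω)
  have i2 : Integrable (fun ω => ‖∑ p ∈ S, x p (c ω p)‖ ^ 2) P :=
    Integrable.of_bound (hm1.norm.pow_const 2).aestronglyMeasurable ((∑ p ∈ S, ∑ r, ‖x p r‖) ^ 2)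
      (ae_of_all _ fun ω => by
        rw [norm_pow, norm_norm]
        have := hbd ω
        gcongr)
  have h2 : ∫ ω, ‖∑ p ∈ S, x p (c ω p)‖ ∂P ≤ ∫ ω, (B + (1 / (2 * B)) * ‖∑ p ∈ S, x p (c ω p)‖ ^ 2) ∂P := by
    refine integral_mono i1 ((integrable_const _).add (i2.const_mul _)) fun ω => ?_
    change ‖∑ p ∈ S, x p (c ω p)‖ ≤ B + 1 / (2 * B) * ‖∑ p ∈ S, x p (c ω p)‖ ^ 2
    set t := ‖∑ p ∈ S, x p (c ω p)‖
    have h3 : 0 ≤ (t - B) ^ 2 := sq_nonneg _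
    have h4 : B + 1 / (2 * B) * t ^ 2 = (2 * B ^ 2 + t ^ 2) / (2 * B) := by field_simp
    rw [h4, le_div_iff₀ (by positivity)]
    nlinarith
  rw [integral_add (integrable_const _) (i2.const_mul _), integral_const, probReal_univ, one_smul,
    integral_const_mul] at h2
  refine h2.trans ?_
  have h5 : 1 / (2 * B) * ∫ ω, ‖∑ p ∈ S, x p (c ω p)‖ ^ 2 ∂P ≤ 1 / (2 * B) * (2 * B ^ 2) := by
    gcongr
    linarith
  have h6 : 1 / (2 * B) * (2 * B ^ 2) = B := by field_simp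
  linarith

end Run7.h113.FE
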