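import Pool.Agent.Run7.h113.FE.Sq

/-!
# Suprema over compact sets
-/

set_option autoImplicit false

namespace Run7.h113.FE

open Finset MeasureTheory ProbabilityTheory Filter Topology
open scoped ENNReal

/-- The half-plane `Re s > -1/2`. -/
def HP : Set ℂ := {s | -(1 / 2) < s.re}

lemma isOpen_HP : IsOpen HP := isOpen_lt continuous_const Complex.continuous_re

/-- Cauchy's formula. -/
lemma cauchy_le {f : ℂ → ℂ} {a w : ℂ} {R : ℝ} (hR : 0 < R) {U : Set ℂ} (hU : IsOpen U)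
    (hf : DifferentiableOn ℂ f U) (hsub : Metric.closedBall a R ⊆ U) (hw : ‖w - a‖ ≤ R / 2) :
    ‖f w‖ ≤ 1 / Real.pi * ∫ θ in (0 : ℝ)..2 * Real.pi, ‖f (circleMap a R θ)‖ := by
  have hw' : w ∈ Metric.ball a R := by
    rw [Metric.mem_ball, dist_eq_norm]
    linarith
  have hcirc : ∀ θ : ℝ, circleMap a R θ ∈ Metric.closedBall a R := fun θ => circleMap_mem_closedBall a hR.le θ
  have h1 := Complex.circleIntegral_sub_inv_smul_of_differentiable_on_off_countable
    (Set.countable_empty) hw' (hf.continuousOn.mono hsub)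
    (fun x hx => (hf x (hsub (Metric.ball_subset_closedBall hx.1))).differentiableAt
      (hU.mem_nhds (hsub (Metric.ball_subset_closedBall hx.1))))
  have hcont : Continuous fun θ : ℝ => f (circleMap a R θ) :=
    (hf.continuousOn.comp_continuous (continuous_circleMap _ _) fun θ => hsub (hcirc θ))
  have hne : ∀ θ : ℝ, R / 2 ≤ ‖circleMap a R θ - w‖ := by
    intro θ
    have h3 : ‖circleMap a R θ - a‖ = R := by
      simp [circleMap, abs_of_pos hR]
    have h4 : circleMap a R θ - w = (circleMap a R θ - a) - (w - a) := by ring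
    rw [h4]
    have := norm_sub_norm_le (circleMap a R θ - a) (w - a)
    linarith
  have h2 : ‖∮ z in C(a, R), (z - w)⁻¹ • f z‖ ≤
      ∫ θ in (0 : ℝ)..2 * Real.pi, 2 * ‖f (circleMap a R θ)‖ := by
    unfold circleIntegral
    refine (intervalIntegral.norm_integral_le_integral_norm (by positivity)).trans ?_
    apply intervalIntegral.integral_mono_on (by positivity)
    · apply Continuous.intervalIntegrable
      have c1 : Continuous fun θ : ℝ => (circleMap a R θ - w)⁻¹ := by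
        refine Continuous.inv₀ ((continuous_circleMap _ _).sub continuous_const) fun θ h0 => ?_
        have := hne θ
        rw [h0, norm_zero] at this
        linarith
      have c2 : Continuous fun θ : ℝ => deriv (circleMap a R) θ := by
        simp only [deriv_circleMap]
        exact (continuous_circleMap _ _).mul continuous_const
      exact (c2.smul (c1.smul hcont)).norm
    · exact (continuous_const.mul hcont.norm).intervalIntegrable _ _
    · intro θ _
      rw [deriv_circleMap]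
      simp only [smul_eq_mul, norm_mul, norm_inv, Complex.norm_I, mul_one]
      have h5 : ‖circleMap 0 R θ‖ = R := by
        simp [circleMap, abs_of_pos hR]
      rw [h5]
      have h6 : ‖circleMap a R θ - w‖⁻¹ ≤ 2 / R := by
        rw [inv_le_comm₀ (by linarith [hne θ]) (by positivity), inv_div]
        exact hne θ
      calc R * (‖circleMap a R θ - w‖⁻¹ * ‖f (circleMap a R θ)‖)
          ≤ R * (2 / R * ‖f (circleMap a R θ)‖) := by gcongr
        _ = _ := by field_simp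
  rw [h1, norm_smul] at h2
  have h3 : ‖(2 * Real.pi * Complex.I : ℂ)‖ = 2 * Real.pi := by
    simp [abs_of_pos Real.pi_pos]
  rw [h3, intervalIntegral.integral_const_mul] at h2
  have hpi := Real.pi_pos
  rw [one_div, ← div_eq_inv_mul, le_div_iff₀ hpi]
  linarith

/-- Covering a compact set by small discs. -/
lemma cover {K : Set ℂ} (hK : IsCompact K) (hsub : K ⊆ HP) : ∃ (A : Finset ℂ) (R θ : ℝ), 0 < R ∧ R ≤ 1 ∧ 0 ≤ θ ∧
    θ < 1 / 2 ∧ (∀ a ∈ A, ∀ z ∈ Metric.closedBall a R, -θ ≤ z.re) ∧ ∀ w ∈ K, ∃ a ∈ A, ‖w - a‖ ≤ R / 2 := by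
  rcases K.eq_empty_or_nonempty with rfl | hne
  · exact ⟨∅, 1, 0, one_pos, le_rfl, le_rfl, by norm_num, by simp, by simp⟩
  obtain ⟨z0, hz0, hmin⟩ := hK.exists_isMinOn hne Complex.continuous_re.continuousOn
  have h0 : -(1 / 2) < z0.re := hsub hz0
  set R : ℝ := min 1 ((z0.re + 1 / 2) / 2) with hR
  have hRpos : 0 < R := by
    rw [hR, lt_min_iff]
    constructor <;> linarith
  have hR1 : R ≤ 1 := min_le_left _ _
  have hR2 : R ≤ (z0.re + 1 / 2) / 2 := min_le_right _ _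
  obtain ⟨t, htK, hcov⟩ := hK.elim_nhds_subcover (fun x => Metric.ball x (R / 2))
    (fun x _ => Metric.ball_mem_nhds x (by positivity))
  refine ⟨t, R, max 0 (R - z0.re), hRpos, hR1, le_max_left _ _, ?_, ?_, ?_⟩
  · rw [max_lt_iff]
    constructor
    · norm_num
    · linarith
  · intro a ha z hz
    have h1 : z0.re ≤ a.re := hmin (htK a ha)
    rw [Metric.mem_closedBall, dist_eq_norm] at hz
    have h2 := (abs_le.mp ((Complex.abs_re_le_norm (z - a)).trans hz)).1
    rw [Complex.sub_re] at h2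
    have h3 : -(max 0 (R - z0.re)) ≤ z0.re - R := by
      have := le_max_right 0 (R - z0.re)
      linarith
    linarith
  · intro w hw
    have h1 := hcov hw
    rw [Set.mem_iUnion₂] at h1
    obtain ⟨a, ha, hwa⟩ := h1
    rw [Metric.mem_ball, dist_eq_norm] at hwa
    exact ⟨a, ha, hwa.le⟩

section
variable (ι : Type) [Fintype ι] [DecidableEq ι]

/-- Local functions, depending on the vectors modulo the primes. -/
structure Loc (M : ℝ) where
  g : (p : Nat.Primes) → (ι → ZMod p) → ℂ → ℂ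
  C : ℝ
  C0 : 0 < C
  diff : ∀ p r, DifferentiableOn ℂ (g p r) HP
  bound : ∀ p r s, s ∈ HP → ‖g p r s‖ ≤ C * ((p : ℕ) : ℝ) ^ (-1 - s.re)
  mean : ∀ p s, s ∈ HP → ‖EC p (fun r => g p r s)‖ ≤ C * ((p : ℕ) : ℝ) ^ (-(3 / 2) - s.re)
  edge : ∀ p r s, 0 ≤ s.re → ‖g p r s‖ ≤ M / ((p : ℕ) : ℝ) + C * ((p : ℕ) : ℝ) ^ (-(3 / 2 : ℝ))

end

variable {ι : Type} [Fintype ι] [DecidableEq ι] {Ω' : Type*} [MeasurableSpace Ω'] {P : Measure Ω'} {c : Ω' → Om ι}
  {κ Y M : ℝ}

namespace Loc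

variable (L : Loc ι M)

/-- The partial sum over a finite set of primes. -/
noncomputable def sm (S : Finset Nat.Primes) (r : Om ι) (s : ℂ) : ℂ := ∑ p ∈ S, L.g p (r p) s

lemma sm_diff (S : Finset Nat.Primes) (r : Om ι) : DifferentiableOn ℂ (L.sm S r) HP :=
  DifferentiableOn.fun_sum fun p _ => L.diff p (r p)

/-- The dominating function. -/
noncomputable def DD (A : Finset ℂ) (R : ℝ) (S : Finset Nat.Primes) (r : Om ι) : ℝ :=
  ∑ a ∈ A, 1 / Real.pi * ∫ θ in (0 : ℝ)..2 * Real.pi, ‖L.sm S r (circleMap a R θ)‖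

lemma DD_nonneg (A : Finset ℂ) (R : ℝ) (S : Finset Nat.Primes) (r : Om ι) : 0 ≤ L.DD A R S r :=
  Finset.sum_nonneg fun a _ => mul_nonneg (by positivity)
    (intervalIntegral.integral_nonneg (by positivity) fun θ _ => norm_nonneg _)

lemma sm_le_DD {A : Finset ℂ} {R : ℝ} (hR : 0 < R) (hA : ∀ a ∈ A, Metric.closedBall a R ⊆ HP) (S : Finset Nat.Primes)
    (r : Om ι) {w : ℂ} (hw : ∃ a ∈ A, ‖w - a‖ ≤ R / 2) : ‖L.sm S r w‖ ≤ L.DD A R S r := by
  obtain ⟨a, ha, hwa⟩ := hw
  refine (cauchy_le hR isOpen_HP (L.sm_diff S r) (hA a ha) hwa).trans ?_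
  exact Finset.single_le_sum (f := fun a => 1 / Real.pi * ∫ θ in (0 : ℝ)..2 * Real.pi, ‖L.sm S r (circleMap a R θ)‖)
    (fun a _ => mul_nonneg (by positivity)
      (intervalIntegral.integral_nonneg (by positivity) fun θ _ => norm_nonneg _)) ha

lemma sm_jmeas (h : Rnd P c κ Y) {a : ℂ} {R : ℝ} (hR : 0 < R) (ha : Metric.closedBall a R ⊆ HP)
    (S : Finset Nat.Primes) : Measurable fun x : Ω' × ℝ => L.sm S (c x.1) (circleMap a R x.2) := by
  unfold sm
  refine Finset.measurable_sum S fun p _ => ?_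
  have h1 : Measurable fun y : (ι → ZMod p) × ℝ => L.g p y.1 (circleMap a R y.2) := by
    refine measurable_from_prod_countable_right fun r => ?_
    have hcont : Continuous fun θ : ℝ => L.g p r (circleMap a R θ) :=
      ((L.diff p r).continuousOn.comp_continuous (continuous_circleMap _ _) fun θ =>
        ha (circleMap_mem_closedBall a hR.le θ))
    exact hcont.measurable
  have h2 : Measurable fun x : Ω' × ℝ => (c x.1 p, x.2) :=
    (((measurable_pi_apply p).comp h.meas).comp measurable_fst).prodMk measurable_snd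
  exact h1.comp h2

lemma sm_bd {a : ℂ} {R : ℝ} (hR : 0 < R) (ha : Metric.closedBall a R ⊆ HP)
    (S : Finset Nat.Primes) : ∃ B : ℝ, ∀ r : Om ι, ∀ θ : ℝ, ‖L.sm S r (circleMap a R θ)‖ ≤ B := by
  refine ⟨∑ p ∈ S, L.C * ((p : ℕ) : ℝ) ^ (-(1 / 2) : ℝ), fun r θ => ?_⟩
  unfold sm
  refine (norm_sum_le _ _).trans (Finset.sum_le_sum fun p _ => ?_)
  have h1 : circleMap a R θ ∈ HP := ha (circleMap_mem_closedBall a hR.le θ)
  refine (L.bound p (r p) _ h1).trans ?_
  have hp1 : (1 : ℝ) ≤ ((p : ℕ) : ℝ) := by exact_mod_cast p.2.one_lt.le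
  have h2 : -(1 / 2) < (circleMap a R θ).re := h1
  have := L.C0
  gcongr
  linarith

/-- The mean value of the dominating function. -/
lemma DD_int (h : Rnd P c κ Y) {A : Finset ℂ} {R : ℝ} (hR : 0 < R) (hA : ∀ a ∈ A, Metric.closedBall a R ⊆ HP)
    (S : Finset Nat.Primes) (B : ℝ)
    (hB : ∀ a ∈ A, ∀ θ : ℝ, ∫ ω, ‖L.sm S (c ω) (circleMap a R θ)‖ ∂P ≤ B) :
    Integrable (fun ω => L.DD A R S (c ω)) P ∧ ∫ ω, L.DD A R S (c ω) ∂P ≤ A.card * (2 * B) := by
  have := h.prob
  have hpi := Real.pi_pos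
  have hmain : ∀ a ∈ A, Integrable (fun ω => 1 / Real.pi * ∫ θ in (0 : ℝ)..2 * Real.pi,
      ‖L.sm S (c ω) (circleMap a R θ)‖) P ∧
      ∫ ω, 1 / Real.pi * (∫ θ in (0 : ℝ)..2 * Real.pi, ‖L.sm S (c ω) (circleMap a R θ)‖) ∂P ≤ 2 * B := by
    intro a ha
    obtain ⟨Bd, hBd⟩ := L.sm_bd hR (hA a ha) S
    set ν : Measure ℝ := volume.restrict (Set.Ioc 0 (2 * Real.pi)) with hν
    have : IsFiniteMeasure ν := ⟨by rw [hν, Measure.restrict_apply_univ, Real.volume_Ioc]; exact ENNReal.ofReal_lt_top⟩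
    have hint : Integrable (Function.uncurry fun (ω : Ω') (θ : ℝ) => ‖L.sm S (c ω) (circleMap a R θ)‖) (P.prod ν) := by
      refine Integrable.of_bound (L.sm_jmeas h hR (hA a ha) S).norm.aestronglyMeasurable Bd (ae_of_all _ fun x => ?_)
      rw [Function.uncurry_def, norm_norm]
      exact hBd _ _
    have e1 : ∀ ω, ∫ θ in (0 : ℝ)..2 * Real.pi, ‖L.sm S (c ω) (circleMap a R θ)‖ =
        ∫ θ, ‖L.sm S (c ω) (circleMap a R θ)‖ ∂ν := fun ω => by
      rw [intervalIntegral.integral_of_le (by positivity)]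
    simp only [e1]
    refine ⟨(hint.integral_prod_left).const_mul _, ?_⟩
    rw [integral_const_mul, integral_integral_swap hint]
    have h2 : ∫ θ, ∫ ω, ‖L.sm S (c ω) (circleMap a R θ)‖ ∂P ∂ν ≤ ∫ θ, B ∂ν :=
      integral_mono hint.integral_prod_right (integrable_const _) fun θ => hB a ha θ
    rw [integral_const, hν, measureReal_restrict_apply_univ, Real.volume_real_Ioc_of_le (by positivity), sub_zero,
      smul_eq_mul] at h2
    calc _ ≤ 1 / Real.pi * (2 * Real.pi * B) := by gcongr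
      _ = 2 * B := by field_simp
  unfold DD
  refine ⟨integrable_finsetSum _ fun a ha => (hmain a ha).1, ?_⟩
  rw [integral_finsetSum _ fun a ha => (hmain a ha).1]
  refine (Finset.sum_le_sum fun a ha => (hmain a ha).2).trans ?_
  rw [Finset.sum_const, nsmul_eq_mul]

/-- The mean value of a partial sum. -/
lemma sm_mean (h : Rnd P c κ Y) {θ : ℝ} {s : ℂ} (hs : -θ ≤ s.re) (hθ : θ < 1 / 2) (S : Finset Nat.Primes)
    (hS : ∀ p ∈ S, ∀ q ∈ S, ((p : ℕ) : ℝ) * ((q : ℕ) : ℝ) ≤ Y) (B : ℝ) (hB : 0 < B)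
    (hb : ∑ p ∈ S, (L.C * ((p : ℕ) : ℝ) ^ (-1 + θ)) ^ 2 + (∑ p ∈ S, L.C * ((p : ℕ) : ℝ) ^ (-(3 / 2) + θ)) ^ 2 +
      κ * (∑ p ∈ S, ((p : ℕ) : ℝ) * (L.C * ((p : ℕ) : ℝ) ^ (-1 + θ))) ^ 2 ≤ B ^ 2) :
    ∫ ω, ‖L.sm S (c ω) s‖ ∂P ≤ 2 * B := by
  have hsH : s ∈ HP := by
    change -(1 / 2) < s.re
    linarith
  have := L.C0
  refine h.abs_complex S hS (fun p r => L.g p r s) _ _ (fun p _ r => ?_) (fun p _ => ?_) B hB hb
  · refine (L.bound p r s hsH).trans ?_
    have hp1 : (1 : ℝ) ≤ ((p : ℕ) : ℝ) := by exact_mod_cast p.2.one_lt.le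
    gcongr
    linarith
  · refine (L.mean p s hsH).trans ?_
    have hp1 : (1 : ℝ) ≤ ((p : ℕ) : ℝ) := by exact_mod_cast p.2.one_lt.le
    gcongr
    linarith

end Loc

end Run7.h113.FE
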