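import Pool.Agent.Run7.h113.FE.Main
import Pool.Agent.Run7.h113.GE.Tail

/-!
# Large deviations of the random Euler product
-/

set_option autoImplicit false

namespace Run7.h113.FE

open Finset MeasureTheory ProbabilityTheory Filter Topology
open Pool.Agent.Y722.HS (EB EM red EB_mono EB_add EB_mul EB_const)
open scoped ENNReal NNReal

variable {ι : Type} [Fintype ι] [DecidableEq ι] {M : ℝ}

lemma mu_eval (p : Nat.Primes) (f : (ι → ZMod p) → ℝ) : ∫ ω : Om ι, f (ω p) ∂mu ι = EM (p : ℕ) f := by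
  rw [← integral_unif]
  have h5 := (measurePreserving_eval_infinitePi (unif ι) p).map_eq
  rw [← h5, integral_map (measurable_pi_apply p).aemeasurable (measurable_of_finite f).aestronglyMeasurable]
  rfl

/-- Hoeffding's inequality. -/
lemma hoeff (x : ∀ p : Nat.Primes, (ι → ZMod p) → ℝ) (b : Nat.Primes → ℝ) (S : Finset Nat.Primes)
    (hb : ∀ p r, |x p r| ≤ b p) {a : ℝ} (ha : 0 ≤ a) :
    (mu ι).real {ω | a ≤ ∑ p ∈ S, (x p (ω p) - EM (p : ℕ) (x p))} ≤
      Real.exp (-a ^ 2 / (2 * ∑ p ∈ S, b p ^ 2)) := by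
  have hb0 : ∀ p, 0 ≤ b p := fun p => (abs_nonneg _).trans (hb p 0)
  have hind : iIndepFun (fun (p : Nat.Primes) (ω : Om ι) => x p (ω p) - EM (p : ℕ) (x p)) (mu ι) :=
    iIndepFun_infinitePi (X := fun (p : Nat.Primes) (r : ι → ZMod p) => x p r - EM (p : ℕ) (x p))
      (fun p => measurable_of_finite _)
  have hsub : ∀ p ∈ S, HasSubgaussianMGF (fun ω : Om ι => x p (ω p) - EM (p : ℕ) (x p)) ((‖b p - -b p‖₊ / 2) ^ 2) (mu ι) := by
    intro p _
    have h1 := hasSubgaussianMGF_of_mem_Icc (μ := mu ι) (X := fun ω : Om ι => x p (ω p)) (a := -b p) (b := b p)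
      ((measurable_of_finite (x p)).comp (measurable_pi_apply p)).aemeasurable
      (ae_of_all _ fun ω => abs_le.mp (hb p (ω p)))
    rw [mu_eval] at h1
    exact h1
  have h2 := HasSubgaussianMGF.measure_sum_ge_le_of_iIndepFun hind hsub ha
  refine h2.trans (le_of_eq ?_)
  congr 3
  push_cast
  refine Finset.sum_congr rfl fun p _ => ?_
  rw [Real.norm_of_nonneg (by linarith [hb0 p])]
  ring

/-- Concentration of complex sums. -/
lemma conc (x : ∀ p : Nat.Primes, (ι → ZMod p) → ℂ) (b m : Nat.Primes → ℝ) (S : Finset Nat.Primes)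
    (hb : ∀ p r, ‖x p r‖ ≤ b p) (hm : ∀ p, ‖EC p (x p)‖ ≤ m p) {a : ℝ} (ha : 0 < a) :
    (mu ι).real {ω | 2 * (∑ p ∈ S, m p + a) < ‖∑ p ∈ S, x p (ω p)‖} ≤
      4 * Real.exp (-a ^ 2 / (2 * ∑ p ∈ S, b p ^ 2)) := by
  have h1 := hoeff (ι := ι) (fun p r => (x p r).re) b S (fun p r => (Complex.abs_re_le_norm _).trans (hb p r)) ha.le
  have h2 := hoeff (ι := ι) (fun p r => -(x p r).re) b S
    (fun p r => by rw [abs_neg]; exact (Complex.abs_re_le_norm _).trans (hb p r)) ha.le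
  have h3 := hoeff (ι := ι) (fun p r => (x p r).im) b S (fun p r => (Complex.abs_im_le_norm _).trans (hb p r)) ha.le
  have h4 := hoeff (ι := ι) (fun p r => -(x p r).im) b S
    (fun p r => by rw [abs_neg]; exact (Complex.abs_im_le_norm _).trans (hb p r)) ha.le
  have hneg : ∀ (p : Nat.Primes) (f : (ι → ZMod p) → ℝ), EM (p : ℕ) (fun r => -f r) = -EM (p : ℕ) f := by
    intro p f
    unfold EM
    rw [Finset.sum_neg_distrib, neg_div]
  have hsub : {ω : Om ι | 2 * (∑ p ∈ S, m p + a) < ‖∑ p ∈ S, x p (ω p)‖} ⊆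
      ({ω | a ≤ ∑ p ∈ S, ((x p (ω p)).re - EM (p : ℕ) fun r => (x p r).re)} ∪
        {ω | a ≤ ∑ p ∈ S, (-(x p (ω p)).re - EM (p : ℕ) fun r => -(x p r).re)}) ∪
      ({ω | a ≤ ∑ p ∈ S, ((x p (ω p)).im - EM (p : ℕ) fun r => (x p r).im)} ∪
        {ω | a ≤ ∑ p ∈ S, (-(x p (ω p)).im - EM (p : ℕ) fun r => -(x p r).im)}) := by
    intro ω hω
    by_contra hcon
    simp only [Set.mem_union, Set.mem_ofPred_eq, not_or, not_le] at hcon
    obtain ⟨⟨c1, c2⟩, c3, c4⟩ := hcon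
    rw [Finset.sum_sub_distrib] at c1 c2 c3 c4
    simp only [hneg, Finset.sum_neg_distrib] at c2 c4
    have e1 : |∑ p ∈ S, EM (p : ℕ) fun r : ι → ZMod p => (x p r).re| ≤ ∑ p ∈ S, m p := by
      refine (Finset.abs_sum_le_sum_abs _ _).trans (Finset.sum_le_sum fun p _ => ?_)
      rw [← EC_re]
      exact (Complex.abs_re_le_norm _).trans (hm p)
    have e2 : |∑ p ∈ S, EM (p : ℕ) fun r : ι → ZMod p => (x p r).im| ≤ ∑ p ∈ S, m p := by
      refine (Finset.abs_sum_le_sum_abs _ _).trans (Finset.sum_le_sum fun p _ => ?_)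
      rw [← EC_im]
      exact (Complex.abs_im_le_norm _).trans (hm p)
    have f1 := abs_le.mp e1
    have f2 := abs_le.mp e2
    have g1 : |(∑ p ∈ S, x p (ω p)).re| ≤ ∑ p ∈ S, m p + a := by
      rw [Complex.re_sum, abs_le]
      constructor <;> linarith
    have g2 : |(∑ p ∈ S, x p (ω p)).im| ≤ ∑ p ∈ S, m p + a := by
      rw [Complex.im_sum, abs_le]
      constructor <;> linarith
    have g3 := Complex.norm_le_abs_re_add_abs_im (∑ p ∈ S, x p (ω p))
    change 2 * (∑ p ∈ S, m p + a) < ‖∑ p ∈ S, x p (ω p)‖ at hω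
    linarith
  refine (measureReal_mono hsub).trans ?_
  refine (measureReal_union_le _ _).trans ?_
  have u1 := measureReal_union_le (μ := mu ι) {ω | a ≤ ∑ p ∈ S, ((x p (ω p)).re - EM (p : ℕ) fun r => (x p r).re)}
    {ω | a ≤ ∑ p ∈ S, (-(x p (ω p)).re - EM (p : ℕ) fun r => -(x p r).re)}
  have u2 := measureReal_union_le (μ := mu ι) {ω | a ≤ ∑ p ∈ S, ((x p (ω p)).im - EM (p : ℕ) fun r => (x p r).im)}
    {ω | a ≤ ∑ p ∈ S, (-(x p (ω p)).im - EM (p : ℕ) fun r => -(x p r).im)}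
  linarith

namespace Loc

/-- **Triple exponential tails of the random Euler product.** -/
theorem tail (L : Loc ι M) (hM : 0 < M) : ∃ C : ℝ, 0 ≤ C ∧ ∀ V : ℝ, C ≤ V → ∀ s : ℂ, 0 ≤ s.re → ∀ z : ℕ,
    (mu ι).real {ω | V ≤ ‖L.sm (pr z) ω s‖} ≤ Real.exp (-Real.exp (Real.exp ((V - C) / M))) := by
  classical
  obtain ⟨C1, hC1, hmert⟩ := Run7.h113.GE.mert_sum
  have hLC := L.C0
  set T : ℝ := tau (3 / 2) 0 with hT
  have hT0 : 0 ≤ T := tau_nonneg _ _
  set a : ℝ := 4 * L.C with ha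
  have ha0 : 0 < a := by positivity
  set C : ℝ := M * (1 + C1) + 3 * L.C * T + 2 * a + 1 with hC
  refine ⟨C, by positivity, ?_⟩
  intro V hV s0 hs0 z
  set y : ℝ := (V - C) / M with hy
  have hy0 : 0 ≤ y := div_nonneg (by linarith) hM.le
  have hVy : V = C + M * y := by
    rw [hy]
    field_simp
    ring
  set s : ℝ := Real.exp (Real.exp y) + 1 with hs
  have hey : 1 ≤ Real.exp y := Real.one_le_exp hy0
  have hey2 : 2.7 < Real.exp (Real.exp y) := by
    have h1 : Real.exp 1 ≤ Real.exp (Real.exp y) := Real.exp_le_exp.2 hey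
    have h2 := Real.exp_one_gt_d9
    linarith
  have hs3 : 3 ≤ s := by linarith
  set n : ℕ := ⌊s⌋₊ with hn
  have hn3 : 3 ≤ n := Nat.le_floor (by exact_mod_cast hs3)
  have hns : (n:ℝ) ≤ s := Nat.floor_le (by linarith)
  have hsn : s < n + 1 := Nat.lt_floor_add_one s
  have hn0 : (0:ℝ) < n := by
    have : 0 < n := by omega
    exact_mod_cast this
  have hlog1 : 0 < Real.log n := Real.log_pos (by
    have : (3:ℝ) ≤ n := by exact_mod_cast hn3
    linarith)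
  have hll : Real.log (Real.log n) ≤ y + 1 := by
    have h1 : s ≤ Real.exp (Real.exp (y + 1)) := by
      have h2 : Real.exp (y + 1) = Real.exp 1 * Real.exp y := by rw [← Real.exp_add, add_comm]
      have h3 : Real.exp y + 1 ≤ Real.exp (y + 1) := by
        rw [h2]
        have := Real.exp_one_gt_d9
        nlinarith
      have h4 : Real.exp (Real.exp y) + 1 ≤ Real.exp (Real.exp y + 1) := by
        rw [Real.exp_add]
        have := Real.exp_one_gt_d9
        nlinarith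
      exact h4.trans (Real.exp_le_exp.2 h3)
    have h2 : Real.log n ≤ Real.exp (y + 1) := by
      rw [← Real.log_exp (Real.exp (y + 1))]
      exact Real.log_le_log hn0 (hns.trans h1)
    calc Real.log (Real.log n) ≤ Real.log (Real.exp (y + 1)) := Real.log_le_log hlog1 h2
      _ = y + 1 := Real.log_exp _
  have hs0H : s0 ∈ HP := by
    change -(1 / 2) < s0.re
    linarith
  have hinj : ∀ F : Finset Nat.Primes, ∀ φ : ℕ → ℝ, ∑ p ∈ F, φ (p:ℕ) =
      ∑ p ∈ F.image (fun p : Nat.Primes => (p:ℕ)), φ p := by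
    intro F φ
    rw [Finset.sum_image]
    intro p _ q _ hpq
    exact Subtype.ext hpq
  have hhalf : ∀ F : Finset Nat.Primes, ∑ p ∈ F, ((p : ℕ) : ℝ) ^ (-(3 / 2 : ℝ)) ≤ T := fun F =>
    sum_tail 0 F (fun p _ => p.2.pos) (Real.summable_nat_rpow.mpr (by norm_num))
  set J : Finset Nat.Primes := (pr z).filter fun p => (p : ℕ) ≤ n with hJ
  set J' : Finset Nat.Primes := (pr z).filter fun p => ¬ (p : ℕ) ≤ n with hJ'
  have hsplit : ∀ ω : Om ι, L.sm (pr z) ω s0 = ∑ p ∈ J, L.g p (ω p) s0 + ∑ p ∈ J', L.g p (ω p) s0 := by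
    intro ω
    unfold sm
    exact (Finset.sum_filter_add_sum_filter_not _ _ _).symm
  have hJ1 : ∀ ω : Om ι, ‖∑ p ∈ J, L.g p (ω p) s0‖ ≤ M * (y + 1 + C1) + L.C * T := by
    intro ω
    refine (norm_sum_le _ _).trans ((Finset.sum_le_sum fun p _ => L.edge p (ω p) s0 hs0).trans ?_)
    rw [Finset.sum_add_distrib, ← Finset.mul_sum]
    have h2 := hmert n hn3 (J.image (fun p : Nat.Primes => (p:ℕ))) (by
      intro p hp
      rw [mem_image] at hp
      obtain ⟨q, hq, rfl⟩ := hp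
      rw [hJ, mem_filter] at hq
      exact ⟨q.2, hq.2⟩)
    rw [← hinj J (fun p => 1 / (p : ℝ))] at h2
    have h3 : ∑ p ∈ J, M / ((p : ℕ) : ℝ) = M * ∑ p ∈ J, 1 / ((p : ℕ) : ℝ) := by
      rw [Finset.mul_sum]
      exact Finset.sum_congr rfl fun p _ => by ring
    rw [h3]
    have h4 : M * ∑ p ∈ J, 1 / ((p : ℕ) : ℝ) ≤ M * (y + 1 + C1) := mul_le_mul_of_nonneg_left (by linarith) hM.le
    have h5 : L.C * ∑ p ∈ J, ((p : ℕ) : ℝ) ^ (-(3 / 2 : ℝ)) ≤ L.C * T := mul_le_mul_of_nonneg_left (hhalf J) hLC.le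
    linarith
  have hc := conc (ι := ι) (fun p r => L.g p r s0) (fun p => L.C / ((p : ℕ) : ℝ))
    (fun p => L.C * ((p : ℕ) : ℝ) ^ (-(3 / 2 : ℝ))) J' (fun p r => by
      refine (L.bound p r s0 hs0H).trans ?_
      have hp1 : (1 : ℝ) ≤ ((p : ℕ) : ℝ) := by exact_mod_cast p.2.one_lt.le
      have h4 : ((p : ℕ) : ℝ) ^ (-1 - s0.re) ≤ ((p : ℕ) : ℝ) ^ (-1 : ℝ) :=
        Real.rpow_le_rpow_of_exponent_le hp1 (by linarith)
      rw [Real.rpow_neg_one] at h4
      rw [div_eq_mul_inv]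
      gcongr) (fun p => by
      refine (L.mean p s0 hs0H).trans ?_
      have hp1 : (1 : ℝ) ≤ ((p : ℕ) : ℝ) := by exact_mod_cast p.2.one_lt.le
      gcongr
      linarith) ha0
  have hsub : {ω : Om ι | V ≤ ‖L.sm (pr z) ω s0‖} ⊆
      {ω | 2 * (∑ p ∈ J', L.C * ((p : ℕ) : ℝ) ^ (-(3 / 2 : ℝ)) + a) < ‖∑ p ∈ J', L.g p (ω p) s0‖} := by
    intro ω hω
    simp only [Set.mem_ofPred_eq] at hω ⊢
    rw [hsplit] at hω
    have h1 := (hω.trans (norm_add_le _ _)).trans (add_le_add_left (hJ1 ω) _)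
    rw [← Finset.mul_sum]
    have h2 : L.C * ∑ p ∈ J', ((p : ℕ) : ℝ) ^ (-(3 / 2 : ℝ)) ≤ L.C * T := mul_le_mul_of_nonneg_left (hhalf J') hLC.le
    rw [hVy, hC] at h1
    nlinarith
  rcases J'.eq_empty_or_nonempty with hJe | ⟨p0, hp0⟩
  · have h1 : {ω : Om ι | V ≤ ‖L.sm (pr z) ω s0‖} ⊆ ∅ := by
      refine hsub.trans ?_
      intro ω hω
      simp only [Set.mem_ofPred_eq, hJe, Finset.sum_empty, norm_zero] at hω
      linarith
    rw [Set.subset_empty_iff.mp h1, measureReal_empty]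
    positivity
  refine (measureReal_mono hsub).trans (hc.trans ?_)
  have hJ2 : ∑ p ∈ J', (L.C / ((p : ℕ) : ℝ)) ^ 2 ≤ L.C ^ 2 * (2 / ((n + 1 : ℕ) : ℝ)) := by
    have e : ∀ p ∈ J', (L.C / ((p : ℕ) : ℝ)) ^ 2 = L.C ^ 2 * (1 / ((p : ℕ) : ℝ) ^ 2) := fun p _ => by
      rw [div_pow]; ring
    rw [Finset.sum_congr rfl e, ← Finset.mul_sum, hinj J' (fun p => 1 / (p : ℝ) ^ 2)]
    apply mul_le_mul_of_nonneg_left _ (by positivity)
    apply Run7.h113.LE.sum_sq_tail (by omega)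
    intro p hp
    rw [mem_image] at hp
    obtain ⟨q, hq, rfl⟩ := hp
    rw [hJ', mem_filter] at hq
    omega
  have h0 : 0 < ∑ p ∈ J', (L.C / ((p : ℕ) : ℝ)) ^ 2 := by
    refine Finset.sum_pos (fun p _ => ?_) ⟨p0, hp0⟩
    have : (0 : ℝ) < ((p : ℕ) : ℝ) := by exact_mod_cast p.2.pos
    positivity
  have hexp : -a ^ 2 / (2 * ∑ p ∈ J', (L.C / ((p : ℕ) : ℝ)) ^ 2) ≤ -(4 * s) := by
    rw [neg_div, neg_le_neg_iff, le_div_iff₀ (by positivity)]
    have h1 : (0 : ℝ) < ((n + 1 : ℕ) : ℝ) := by positivity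
    calc 4 * s * (2 * ∑ p ∈ J', (L.C / ((p : ℕ) : ℝ)) ^ 2) ≤ 4 * s * (2 * (L.C ^ 2 * (2 / ((n + 1 : ℕ) : ℝ)))) := by
          gcongr
      _ = 16 * L.C ^ 2 * (s / ((n + 1 : ℕ) : ℝ)) := by ring
      _ ≤ 16 * L.C ^ 2 * 1 := by
          gcongr
          rw [div_le_one h1]
          push_cast
          exact hsn.le
      _ = a ^ 2 := by rw [ha]; ring
  have h4 : Real.exp (-(4 * s)) ≤ Real.exp (-2) * Real.exp (-s) := by
    rw [← Real.exp_add]
    exact Real.exp_le_exp.mpr (by linarith)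
  have h5 : 4 * Real.exp (-2) ≤ 1 := by
    have h6 : 4 ≤ Real.exp 2 := by
      have := Real.add_one_le_exp (1 : ℝ)
      have h7 : Real.exp 2 = Real.exp 1 * Real.exp 1 := by rw [← Real.exp_add]; norm_num
      rw [h7]
      nlinarith
    rw [Real.exp_neg, ← div_eq_mul_inv, div_le_one (Real.exp_pos _)]
    exact h6
  have h6 : Real.exp (-s) ≤ Real.exp (-Real.exp (Real.exp y)) := Real.exp_le_exp.mpr (by linarith)
  calc 4 * Real.exp (-a ^ 2 / (2 * ∑ p ∈ J', (L.C / ((p : ℕ) : ℝ)) ^ 2)) ≤ 4 * Real.exp (-(4 * s)) := by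
        gcongr
    _ ≤ 4 * (Real.exp (-2) * Real.exp (-s)) := by gcongr
    _ = (4 * Real.exp (-2)) * Real.exp (-s) := by ring
    _ ≤ 1 * Real.exp (-s) := by gcongr
    _ ≤ _ := by rw [one_mul]; exact h6

end Loc

end Run7.h113.FE
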