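import Pool.Agent.Run7.h113.FE.Tl

/-!
# Large deviations in the box
-/

set_option autoImplicit false

namespace Run7.h113.FE

open Finset MeasureTheory ProbabilityTheory Filter Topology
open Pool.Agent.Y722.HS (EB EM red EB_mono EB_add EB_mul EB_const)
open scoped ENNReal NNReal

variable {ι : Type} [Fintype ι] [DecidableEq ι] {M : ℝ}

lemma tel (n : ℕ) (hn : 2 ≤ n) : (n : ℝ) ^ (-(3 / 2 : ℝ)) ≤ 2 * (1 / Real.sqrt ((n - 1 : ℕ) : ℝ) - 1 / Real.sqrt n) := by
  obtain ⟨k, rfl⟩ : ∃ k, n = k + 1 := ⟨n - 1, by omega⟩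
  have hk : (0 : ℝ) < k := by
    have : 0 < k := by omega
    exact_mod_cast this
  rw [Nat.add_sub_cancel]
  push_cast
  set a := Real.sqrt k with ha
  set b := Real.sqrt ((k : ℝ) + 1) with hb
  have ha0 : 0 < a := Real.sqrt_pos.mpr hk
  have hb0 : 0 < b := Real.sqrt_pos.mpr (by linarith)
  have ha2 : a ^ 2 = k := Real.sq_sqrt hk.le
  have hb2 : b ^ 2 = (k : ℝ) + 1 := Real.sq_sqrt (by linarith)
  have hab : a ≤ b := Real.sqrt_le_sqrt (by linarith)
  have e1 : ((k : ℝ) + 1) ^ (-(3 / 2 : ℝ)) = 1 / b ^ 3 := by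
    rw [Real.rpow_neg (by linarith), one_div]
    congr 1
    rw [hb, Real.sqrt_eq_rpow, ← Real.rpow_natCast, ← Real.rpow_mul (by linarith)]
    norm_num
  rw [e1]
  have e2 : 1 / a - 1 / b = 1 / (a * b * (a + b)) := by
    have h1 : (b - a) * (b + a) = 1 := by nlinarith
    field_simp
    linarith
  rw [e2]
  have h3 : a * b * (a + b) ≤ 2 * b ^ 3 := by
    calc a * b * (a + b) ≤ b * b * (b + b) := by gcongr
      _ = _ := by ring
  rw [mul_one_div, div_le_div_iff₀ (by positivity) (by positivity)]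
  linarith

lemma sum_three_half {z : ℕ} (hz : 1 ≤ z) (S : Finset Nat.Primes) (hS : ∀ p ∈ S, z < (p : ℕ)) :
    ∑ p ∈ S, ((p : ℕ) : ℝ) ^ (-(3 / 2 : ℝ)) ≤ 2 / Real.sqrt z := by
  have hN : ∀ N : ℕ, z ≤ N → ∑ n ∈ Finset.Ioc z N, (n : ℝ) ^ (-(3 / 2 : ℝ)) ≤ 2 * (1 / Real.sqrt z - 1 / Real.sqrt N) := by
    intro N hN
    induction N, hN using Nat.le_induction with
    | base => simp
    | succ N hN ih =>
      rw [Finset.sum_Ioc_succ_top (by omega)]
      have h1 := tel (N + 1) (by omega)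
      rw [Nat.add_sub_cancel] at h1
      linarith
  have e : ∑ p ∈ S, ((p : ℕ) : ℝ) ^ (-(3 / 2 : ℝ)) = ∑ n ∈ S.image (fun p : Nat.Primes => (p : ℕ)), (n : ℝ) ^ (-(3 / 2 : ℝ)) := by
    rw [Finset.sum_image]
    intro p _ q _ h
    exact Subtype.ext h
  obtain ⟨N, hNS⟩ := (S.image (fun p : Nat.Primes => (p : ℕ))).bddAbove
  rw [e]
  have h1 := hN (max z N) (le_max_left _ _)
  have h2 : S.image (fun p : Nat.Primes => (p : ℕ)) ⊆ Finset.Ioc z (max z N) := by
    intro n hn
    have h3 := hNS hn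
    obtain ⟨p, hp, rfl⟩ := Finset.mem_image.mp hn
    rw [Finset.mem_Ioc]
    exact ⟨hS p hp, h3.trans (le_max_right _ _)⟩
  refine (Finset.sum_le_sum_of_subset_of_nonneg h2 fun n _ _ => by positivity).trans (h1.trans ?_)
  have h4 : 0 ≤ 1 / Real.sqrt ((max z N : ℕ) : ℝ) := by positivity
  calc 2 * (1 / Real.sqrt z - 1 / Real.sqrt ((max z N : ℕ) : ℝ)) ≤ 2 * (1 / Real.sqrt z) := by linarith
    _ = _ := by ring

lemma NN_pr (z : ℕ) : NN (pr z) ≤ 4 ^ z := by
  refine le_trans ?_ (primorial_le_four_pow z)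
  unfold NN primorial
  have e1 : ∏ p : (pr z : Finset Nat.Primes), ((p : Nat.Primes) : ℕ) = ∏ p ∈ pr z, (p : ℕ) :=
    Finset.prod_coe_sort (pr z) (fun p : Nat.Primes => (p : ℕ))
  rw [e1]
  have e : ∏ p ∈ pr z, (p : ℕ) = ∏ n ∈ (pr z).image (fun p : Nat.Primes => (p : ℕ)), n := by
    exact (Finset.prod_image (s := pr z) (g := fun p : Nat.Primes => (p : ℕ)) (f := fun n => n)
      (fun a _ b _ h => Subtype.ext h)).symm
  rw [e]
  refine Finset.prod_le_prod_of_subset_of_one_le' ?_ ?_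
  · intro n hn
    obtain ⟨p, hp, rfl⟩ := Finset.mem_image.mp hn
    rw [mem_pr] at hp
    rw [Finset.mem_filter, Finset.mem_range]
    exact ⟨by omega, p.2⟩
  · intro n hn _
    exact (Finset.mem_filter.mp hn).2.one_lt.le

/-- the proportion of a set in the box -/
lemma EB_ind (H : ℕ) (A : Set (ι → ℤ)) [DecidablePred (· ∈ A)] :
    EB H (fun c : ι → ℤ => if c ∈ A then 1 else 0) =
      (((Pool.Agent.Y722.HS.box ι H).filter (· ∈ A)).card : ℝ) / (2 * H + 1 : ℝ) ^ Fintype.card ι := by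
  unfold EB
  rw [Finset.sum_ite, Finset.sum_const_zero, add_zero, Finset.sum_const, nsmul_eq_mul, mul_one]

lemma shift_exp {k : ℕ} {y : ℝ} (hy : 0 ≤ y) :
    2 ^ k * Real.exp (-Real.exp (Real.exp (y + k * Real.log 2))) ≤ Real.exp (-Real.exp (Real.exp y)) := by
  set δ : ℝ := k * Real.log 2 with hδ
  have hδ0 : 0 ≤ δ := mul_nonneg (Nat.cast_nonneg _) (Real.log_nonneg (by norm_num))
  have e1 : (2 : ℝ) ^ k = Real.exp δ := by
    rw [hδ, mul_comm, Real.exp_mul, Real.exp_log two_pos, Real.rpow_natCast]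
  rw [e1, ← Real.exp_add]
  refine Real.exp_le_exp.mpr ?_
  have h1 : Real.exp y + δ ≤ Real.exp (y + δ) := by
    rw [Real.exp_add]
    have h2 := Real.add_one_le_exp δ
    have h3 : 1 ≤ Real.exp y := Real.one_le_exp hy
    nlinarith
  have h2 : Real.exp (Real.exp y) + δ ≤ Real.exp (Real.exp (y + δ)) := by
    have h3 : Real.exp (Real.exp y + δ) ≤ Real.exp (Real.exp (y + δ)) := Real.exp_le_exp.mpr h1
    rw [Real.exp_add] at h3
    have h4 := Real.add_one_le_exp δ
    have h5 : 1 ≤ Real.exp (Real.exp y) := Real.one_le_exp (Real.exp_pos y).le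
    nlinarith
  linarith

namespace Loc

/-- **Large deviations in the box.** -/
theorem tail_box (L : Loc ι M) (hM : 0 < M) : ∃ C : ℝ, 0 ≤ C ∧ ∀ V : ℝ, C ≤ V → ∀ H : ℕ, 2 ≤ H → ∀ s : ℂ,
    1 / Real.log H ≤ s.re → ∀ (A : Set (ι → ℤ)) [DecidablePred (· ∈ A)], (∀ c ∈ A, V ≤ ‖L.Q (redP c) s‖) →
    EB H (fun c : ι → ℤ => if c ∈ A then 1 else 0) ≤ Real.exp (-Real.exp (Real.exp ((V - C) / M))) + C / Real.log H := by
  obtain ⟨C, hC0, hC⟩ := L.tail hM
  have hLC := L.C0
  set k := Fintype.card ι with hk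
  have hl2 : 0 < Real.log 2 := Real.log_pos (by norm_num)
  set B : ℝ := 2 * (L.C ^ 2 * (6 + 2 ^ k)) with hB
  have hB0 : 0 < B := by positivity
  set C' : ℝ := C + M * (k * Real.log 2) + 1 + 64 * L.C + 4 * B + 2 with hC'
  refine ⟨C', by positivity, ?_⟩
  intro V hV H hH s hs A _ hA
  have hHr : (2 : ℝ) ≤ H := by exact_mod_cast hH
  have hlogH : 0 < Real.log H := Real.log_pos (by linarith)
  -- the parameters
  set y := Nat.sqrt (Nat.sqrt H) with hy
  set z := min (Nat.log 4 H) y with hz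
  rcases Nat.lt_or_ge H 4 with h4 | h4
  · -- small `H`
    have h1 : EB H (fun c : ι → ℤ => if c ∈ A then (1 : ℝ) else 0) ≤ 1 :=
      (EB_mono H _ (fun _ => 1) fun c => by split_ifs <;> norm_num).trans (EB_const H 1).le
    have h2 : Real.log H ≤ 2 := by
      have h3 : (H : ℝ) ≤ 4 := by exact_mod_cast h4.le
      calc Real.log H ≤ Real.log 4 := Real.log_le_log (by linarith) h3
        _ = 2 * Real.log 2 := by rw [show (4 : ℝ) = 2 ^ 2 by norm_num, Real.log_pow]; norm_num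
        _ ≤ 2 := by have := Real.log_two_lt_d9; linarith
    have h3 : 1 ≤ C' / Real.log H := by
      rw [le_div_iff₀ hlogH, one_mul]
      refine h2.trans ?_
      have : 0 ≤ C + M * (k * Real.log 2) + 1 + 64 * L.C + 4 * B := by positivity
      rw [hC']
      linarith
    have h5 := Real.exp_pos (-Real.exp (Real.exp ((V - C') / M)))
    linarith
  have hz1' : 1 ≤ Nat.log 4 H := Nat.le_log_of_pow_le (by norm_num) (by omega)
  have hz4 : 4 ^ z ≤ H := (Nat.pow_le_pow_right (by norm_num) (min_le_left _ _)).trans (Nat.pow_log_le_self 4 (by omega))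
  have hzH : H < 4 ^ (Nat.log 4 H + 1) := Nat.lt_pow_succ_log_self (by norm_num) H
  obtain ⟨n1, n2⟩ := nice_y H
  rw [← hy] at n1 n2
  have hy1 : 1 ≤ y := by
    rw [hy, Nat.le_sqrt', Nat.le_sqrt']
    omega
  have hz1 : 1 ≤ z := le_min hz1' hy1
  have hzy' : z ≤ y := min_le_right _ _
  have hzr : (1 : ℝ) ≤ z := by exact_mod_cast hz1
  have hlogz : Real.log H ≤ 4 * z := by
    rw [hz, Nat.cast_min, mul_min_of_nonneg _ _ (by norm_num : (0 : ℝ) ≤ 4), le_min_iff]
    have hzr' : (1 : ℝ) ≤ (Nat.log 4 H : ℕ) := by exact_mod_cast hz1'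
    constructor
    · have h1 : (H : ℝ) ≤ 4 ^ (Nat.log 4 H + 1) := by exact_mod_cast hzH.le
      calc Real.log H ≤ Real.log (4 ^ (Nat.log 4 H + 1)) := Real.log_le_log (by linarith) h1
        _ = ((Nat.log 4 H : ℕ) + 1 : ℝ) * Real.log 4 := by rw [Real.log_pow]; push_cast; rfl
        _ = ((Nat.log 4 H : ℕ) + 1 : ℝ) * (2 * Real.log 2) := by
            rw [show (4 : ℝ) = 2 ^ 2 by norm_num, Real.log_pow]; norm_num
        _ ≤ ((Nat.log 4 H : ℕ) + 1 : ℝ) * 2 := by
            have := Real.log_two_lt_d9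
            have : 2 * Real.log 2 ≤ 2 := by linarith
            gcongr
        _ ≤ 4 * (Nat.log 4 H : ℕ) := by linarith
    · have h1 : (H : ℝ) ≤ ((y : ℝ) + 1) ^ 4 := by exact_mod_cast n2.le
      have h0 : (0 : ℝ) ≤ y := Nat.cast_nonneg _
      calc Real.log H ≤ Real.log (((y : ℝ) + 1) ^ 4) := Real.log_le_log (by linarith) h1
        _ = 4 * Real.log ((y : ℝ) + 1) := by rw [Real.log_pow]; norm_num
        _ ≤ 4 * y := by
            have := Real.log_le_sub_one_of_pos (show (0 : ℝ) < y + 1 by linarith)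
            linarith
  have hε : 0 < 1 / Real.log H := by positivity
  -- replace the distance by a number at most 1
  have hlogy : Real.log H ≤ 4 * Real.log (y + 1) := by
    have h1 : (H : ℝ) ≤ ((y : ℝ) + 1) ^ 4 := by exact_mod_cast n2.le
    calc Real.log H ≤ Real.log (((y : ℝ) + 1) ^ 4) := Real.log_le_log (by linarith) h1
      _ = _ := by rw [Real.log_pow]; norm_num
  have hlogy0 : 0 < Real.log ((y : ℝ) + 1) := by linarith
  have hl4 : 1 ≤ Real.log H := by
    have h1 : Real.exp 1 ≤ H := by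
      have h2 : (4 : ℝ) ≤ H := by exact_mod_cast h4
      have := Real.exp_one_lt_d9
      linarith
    rw [← Real.log_exp 1]
    exact Real.log_le_log (Real.exp_pos 1) h1
  have hε1 : 1 / Real.log H ≤ 1 := by
    rw [div_le_one hlogH]
    exact hl4
  have htail : ∀ c : ι → ℤ, ‖L.Q (redP c) s - L.sm (pr y) (redP c) s‖ ≤ 64 * L.C := by
    intro c
    refine (L.Q_tail (redP c) hε hε1 hs hy1).trans ?_
    have h1 : 16 / (1 / Real.log H * Real.log (y + 1)) ≤ 64 := by
      rw [div_le_iff₀ (by positivity)]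
      have : 64 * (1 / Real.log H * Real.log (y + 1)) = 16 * (4 * Real.log (y + 1)) / Real.log H := by ring
      rw [this, le_div_iff₀ hlogH]
      linarith
    calc L.C * (16 / (1 / Real.log H * Real.log (y + 1))) ≤ L.C * 64 := by gcongr
      _ = _ := by ring
  have hs0 : 0 ≤ s.re := hε.le.trans hs
  have hsH : s ∈ HP := by
    change -(1 / 2) < s.re
    linarith
  -- the middle primes
  set S : Finset Nat.Primes := pr y \ pr z with hS
  have hSz : ∀ p ∈ S, z < (p : ℕ) := by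
    intro p hp
    have := (Finset.mem_sdiff.mp hp).2
    rw [mem_pr] at this
    omega
  have hSy : ∀ p ∈ S, ((p : ℕ) : ℝ) ≤ y := fun p hp => by exact_mod_cast mem_pr.mp (Finset.mem_sdiff.mp hp).1
  have hyr : (1 : ℝ) ≤ y := by exact_mod_cast hy1
  have hHy : (y : ℝ) ^ 4 ≤ H := by exact_mod_cast n1
  have hmid : EB H (fun c : ι → ℤ => ‖∑ p ∈ S, L.g p (redP c p) s‖ ^ 2) ≤ B / z := by
    have h1 := (rnd_bx (ι := ι) H).sq_complex S (by
      intro p hp q hq
      have h1 := hSy p hp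
      have h2 := hSy q hq
      calc ((p : ℕ) : ℝ) * ((q : ℕ) : ℝ) ≤ y * y := by gcongr
        _ ≤ (y : ℝ) ^ 4 := by
            calc (y : ℝ) * y = (y : ℝ) ^ 2 := by ring
              _ ≤ _ := pow_le_pow_right₀ hyr (by norm_num)
        _ ≤ 2 * H + 1 := by linarith) (fun p r => L.g p r s) (fun p => L.C / ((p : ℕ) : ℝ))
      (fun p => L.C * ((p : ℕ) : ℝ) ^ (-(3 / 2 : ℝ))) (fun p _ r => by
        refine (L.bound p r s hsH).trans ?_
        have hp1 : (1 : ℝ) ≤ ((p : ℕ) : ℝ) := by exact_mod_cast p.2.one_lt.le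
        have h4 : ((p : ℕ) : ℝ) ^ (-1 - s.re) ≤ ((p : ℕ) : ℝ) ^ (-1 : ℝ) :=
          Real.rpow_le_rpow_of_exponent_le hp1 (by linarith)
        rw [Real.rpow_neg_one] at h4
        rw [div_eq_mul_inv]
        gcongr) (fun p _ => by
        refine (L.mean p s hsH).trans ?_
        have hp1 : (1 : ℝ) ≤ ((p : ℕ) : ℝ) := by exact_mod_cast p.2.one_lt.le
        gcongr
        linarith)
    rw [integral_bx] at h1
    refine h1.trans ?_
    have t1 : ∑ p ∈ S, (L.C / ((p : ℕ) : ℝ)) ^ 2 ≤ L.C ^ 2 * (2 / (z : ℝ)) := by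
      have e : ∀ p ∈ S, (L.C / ((p : ℕ) : ℝ)) ^ 2 = L.C ^ 2 * (1 / ((p : ℕ) : ℝ) ^ 2) := fun p _ => by
        rw [div_pow]; ring
      have e2 : ∑ p ∈ S, 1 / ((p : ℕ) : ℝ) ^ 2 = ∑ n ∈ S.image (fun p : Nat.Primes => (p : ℕ)), 1 / (n : ℝ) ^ 2 := by
        rw [Finset.sum_image]
        intro p _ q _ h
        exact Subtype.ext h
      rw [Finset.sum_congr rfl e, ← Finset.mul_sum, e2]
      apply mul_le_mul_of_nonneg_left _ (by positivity)
      apply Run7.h113.LE.sum_sq_tail hz1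
      intro p hp
      obtain ⟨q, hq, rfl⟩ := Finset.mem_image.mp hp
      exact (hSz q hq).le
    have t2 : (∑ p ∈ S, L.C * ((p : ℕ) : ℝ) ^ (-(3 / 2 : ℝ))) ^ 2 ≤ L.C ^ 2 * (4 / (z : ℝ)) := by
      rw [← Finset.mul_sum, mul_pow]
      apply mul_le_mul_of_nonneg_left _ (by positivity)
      have h2 := sum_three_half hz1 S hSz
      have h3 : 0 ≤ ∑ p ∈ S, ((p : ℕ) : ℝ) ^ (-(3 / 2 : ℝ)) := Finset.sum_nonneg fun p _ => by positivity
      calc _ ≤ (2 / Real.sqrt z) ^ 2 := pow_le_pow_left₀ h3 h2 2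
        _ = 4 / z := by rw [div_pow, Real.sq_sqrt (by linarith)]; norm_num
    have t3 : (2 : ℝ) ^ k / (2 * H + 1) * (∑ p ∈ S, ((p : ℕ) : ℝ) * (L.C / ((p : ℕ) : ℝ))) ^ 2 ≤
        L.C ^ 2 * (2 ^ k / (z : ℝ)) := by
      have e : ∀ p ∈ S, ((p : ℕ) : ℝ) * (L.C / ((p : ℕ) : ℝ)) = L.C := fun p _ => by
        have : (0 : ℝ) < ((p : ℕ) : ℝ) := by exact_mod_cast p.2.pos
        field_simp
      rw [Finset.sum_congr rfl e, Finset.sum_const, nsmul_eq_mul]
      have hc : ((S.card : ℕ) : ℝ) ≤ y := by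
        have h1 : S.card ≤ (pr y).card := Finset.card_le_card Finset.sdiff_subset
        have h2 : ((pr y).image fun p : Nat.Primes => (p : ℕ)) ⊆ Finset.Icc 1 y := by
          intro n hn
          obtain ⟨p, hp, rfl⟩ := Finset.mem_image.mp hn
          rw [mem_pr] at hp
          exact Finset.mem_Icc.mpr ⟨p.2.one_lt.le, hp⟩
        have h3 := Finset.card_le_card h2
        have h4 := Finset.card_image_of_injective (pr y) (f := fun p : Nat.Primes => (p : ℕ))
          (fun a b h => Subtype.ext h)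
        rw [h4, Nat.card_Icc] at h3
        have h5 : S.card ≤ y := by omega
        exact_mod_cast h5
      have hzy : (z : ℝ) * (y : ℝ) ^ 2 ≤ H := by
        have h1 : (z : ℝ) ^ 2 ≤ H := by
          have h2 : z ^ 2 ≤ 4 ^ z := by
            have h3 : z < 2 ^ z := Nat.lt_two_pow_self
            calc z ^ 2 ≤ (2 ^ z) ^ 2 := Nat.pow_le_pow_left h3.le 2
              _ = 4 ^ z := by rw [← pow_mul, mul_comm, pow_mul]; norm_num
          exact_mod_cast h2.trans hz4
        have h2 : ((z : ℝ) * (y : ℝ) ^ 2) ^ 2 ≤ (H : ℝ) ^ 2 := by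
          have e1 : ((z : ℝ) * (y : ℝ) ^ 2) ^ 2 = (z : ℝ) ^ 2 * (y : ℝ) ^ 4 := by ring
          rw [e1, sq (H : ℝ)]
          gcongr
        exact le_of_sq_le_sq h2 (by linarith)
      have hfrac : (y : ℝ) ^ 2 / (2 * H + 1) ≤ 1 / z := by
        rw [div_le_div_iff₀ (by linarith) (by linarith)]
        linarith
      calc (2 : ℝ) ^ k / (2 * H + 1) * (S.card * L.C) ^ 2 ≤ (2 : ℝ) ^ k / (2 * H + 1) * (y * L.C) ^ 2 := by gcongr
        _ = L.C ^ 2 * 2 ^ k * ((y : ℝ) ^ 2 / (2 * H + 1)) := by ring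
        _ ≤ L.C ^ 2 * 2 ^ k * (1 / z) := mul_le_mul_of_nonneg_left hfrac (by positivity)
        _ = _ := by ring
    calc 2 * (∑ p ∈ S, (L.C / ((p : ℕ) : ℝ)) ^ 2 + (∑ p ∈ S, L.C * ((p : ℕ) : ℝ) ^ (-(3 / 2 : ℝ))) ^ 2 +
          2 ^ Fintype.card ι / (2 * H + 1) * (∑ p ∈ S, ((p : ℕ) : ℝ) * (L.C / ((p : ℕ) : ℝ))) ^ 2)
        ≤ 2 * (L.C ^ 2 * (2 / z) + L.C ^ 2 * (4 / z) + L.C ^ 2 * (2 ^ k / z)) := by
          gcongr
      _ = B / z := by rw [hB]; ring
  -- the small primes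
  set V' : ℝ := V - 1 - 64 * L.C with hV'
  have hVC : C ≤ V' := by
    have : 0 ≤ M * (k * Real.log 2) + 4 * B + 2 := by positivity
    rw [hV']
    linarith
  classical
  set F : Om ι → ℝ := fun ω => if V' ≤ ‖L.sm (pr z) ω s‖ then 1 else 0 with hF
  have hdep : Dep (pr z) F := L.dep_sm (pr z) (fun f => if V' ≤ ‖f s‖ then (1 : ℝ) else 0)
  have hNNz : NN (pr z) ≤ 2 * H + 1 := by
    have := NN_pr z
    omega
  have hsmall : EB H (fun c : ι → ℤ => F (redP c)) ≤ Real.exp (-Real.exp (Real.exp ((V - C') / M))) := by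
    refine (EB_le_mu hdep (fun ω => by simp only [hF]; split_ifs <;> norm_num) hNNz).trans ?_
    have h1 : ∫ ω, F ω ∂mu ι = (mu ι).real {ω | V' ≤ ‖L.sm (pr z) ω s‖} := by
      have e : F = Set.indicator {ω : Om ι | V' ≤ ‖L.sm (pr z) ω s‖} (fun _ => (1 : ℝ)) := by
        funext ω
        simp only [hF, Set.indicator_apply, Set.mem_ofPred_eq]
      have hm : Measurable fun ω : Om ι => L.sm (pr z) ω s :=
        Finset.measurable_sum _ fun p _ => (measurable_of_finite (fun r => L.g p r s)).comp (measurable_pi_apply p)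
      rw [e, integral_indicator (measurableSet_le measurable_const hm.norm), setIntegral_const, smul_eq_mul, mul_one]
    rw [h1]
    have h2 := hC V' hVC s hs0 z
    have h3 : (V - C') / M + k * Real.log 2 ≤ (V' - C) / M := by
      have e : (V - C') / M + k * Real.log 2 = (V - C' + M * (k * Real.log 2)) / M := by field_simp
      rw [e]
      gcongr
      rw [hV', hC']
      linarith
    have h4 : 0 ≤ (V - C') / M := div_nonneg (by linarith) hM.le
    have h5 := shift_exp (k := k) h4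
    refine le_trans ?_ h5
    refine mul_le_mul_of_nonneg_left (h2.trans ?_) (by positivity)
    refine Real.exp_le_exp.mpr (neg_le_neg (Real.exp_le_exp.mpr (Real.exp_le_exp.mpr h3)))
  -- conclusion
  have hpt : ∀ c : ι → ℤ, (if c ∈ A then (1 : ℝ) else 0) ≤ F (redP c) + ‖∑ p ∈ S, L.g p (redP c p) s‖ ^ 2 := by
    intro c
    split_ifs with hc
    · have h1 := hA c hc
      have h2 := htail c
      have h3 : L.sm (pr y) (redP c) s - L.sm (pr z) (redP c) s = ∑ p ∈ S, L.g p (redP c p) s := by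
        unfold sm
        rw [← Finset.sum_sdiff (pr_mono hzy')]
        ring
      by_cases hF1 : V' ≤ ‖L.sm (pr z) (redP c) s‖
      · have : F (redP c) = 1 := by simp only [hF]; rw [if_pos hF1]
        rw [this]
        have := sq_nonneg ‖∑ p ∈ S, L.g p (redP c p) s‖
        linarith
      · push Not at hF1
        have h4 : 1 ≤ ‖∑ p ∈ S, L.g p (redP c p) s‖ := by
          have h5 : L.Q (redP c) s = (L.Q (redP c) s - L.sm (pr y) (redP c) s) +
              (L.sm (pr z) (redP c) s + ∑ p ∈ S, L.g p (redP c p) s) := by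
            rw [← h3]; ring
          rw [h5] at h1
          have h6 := norm_add_le (L.Q (redP c) s - L.sm (pr y) (redP c) s)
            (L.sm (pr z) (redP c) s + ∑ p ∈ S, L.g p (redP c p) s)
          have h7 := norm_add_le (L.sm (pr z) (redP c) s) (∑ p ∈ S, L.g p (redP c p) s)
          linarith
        have h5 : 0 ≤ F (redP c) := by simp only [hF]; split_ifs <;> norm_num
        nlinarith
    · have h5 : 0 ≤ F (redP c) := by simp only [hF]; split_ifs <;> norm_num
      positivity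
  have hfin : EB H (fun c : ι → ℤ => if c ∈ A then (1 : ℝ) else 0) ≤
      EB H (fun c : ι → ℤ => F (redP c) + ‖∑ p ∈ S, L.g p (redP c p) s‖ ^ 2) := EB_mono H _ _ hpt
  rw [EB_add] at hfin
  have hBz : B / z ≤ C' / Real.log H := by
    rw [div_le_div_iff₀ (by linarith) hlogH]
    have : 4 * B ≤ C' := by
      have : 0 ≤ C + M * (k * Real.log 2) + 1 + 64 * L.C := by positivity
      rw [hC']
      linarith
    calc B * Real.log H ≤ B * (4 * z) := by gcongr
      _ = (4 * B) * z := by ring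
      _ ≤ C' * z := by gcongr
  linarith

end Loc

end Run7.h113.FE
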